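import Pool.Agent.W823.QT.Stm

/-!
# Project QT, part RUNB: runs of crossed vertices (MP_26aa9e_pr)
-/

set_option autoImplicit false

namespace Pool.Agent.W397.QTRUNB

open Pool.Agent.W823.QT

/-- The counting bound for an arbitrary set of indices with the right membership rule. -/
theorem run_aux (N : ℕ) (S : Finset (ℕ × ℕ)) (I : Finset ℕ)
    (hI : ∀ a, a ∈ I ↔ a < N ∧ Irr (a + 1) S) :
    I.card ≤ 1 + ∑ a ∈ I, ∑ e ∈ S.filter (fun e => e.1 = a), (e.2 - e.1) := by
  classical
  rcases I.eq_empty_or_nonempty with he | hne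
  · rw [he]; simp
  set M := I.max' hne with hM
  have hMI : M ∈ I := I.max'_mem hne
  obtain ⟨hMN, hMirr⟩ := (hI M).1 hMI
  have hcard : I.card ≤ M + 1 := by
    have hsub : I ⊆ Finset.range (M + 1) := by
      intro a ha
      have := I.le_max' a ha
      rw [Finset.mem_range]
      omega
    simpa using Finset.card_le_card hsub
  have hcov : Finset.Icc 1 M ⊆ I.biUnion fun a =>
      (S.filter (fun e => e.1 = a)).biUnion fun e => Finset.Ioo e.1 e.2 := by
    intro v hv
    rw [Finset.mem_Icc] at hv
    obtain ⟨e, heS, h1, h2⟩ := hMirr v (by omega) (by omega)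
    rw [Finset.mem_biUnion]
    refine ⟨e.1, (hI e.1).2 ⟨by omega, ?_⟩, ?_⟩
    · intro w hw0 hw1
      exact hMirr w hw0 (by omega)
    · rw [Finset.mem_biUnion]
      refine ⟨e, ?_, ?_⟩
      · rw [Finset.mem_filter]
        exact ⟨heS, rfl⟩
      · rw [Finset.mem_Ioo]
        exact ⟨h1, h2⟩
  have hle : M ≤ ∑ a ∈ I, ∑ e ∈ S.filter (fun e => e.1 = a), (e.2 - e.1) := by
    calc M = (Finset.Icc 1 M).card := by simp
      _ ≤ (I.biUnion fun a =>
            (S.filter (fun e => e.1 = a)).biUnion fun e => Finset.Ioo e.1 e.2).card :=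
          Finset.card_le_card hcov
      _ ≤ ∑ a ∈ I, ((S.filter (fun e => e.1 = a)).biUnion fun e => Finset.Ioo e.1 e.2).card :=
          Finset.card_biUnion_le
      _ ≤ ∑ a ∈ I, ∑ e ∈ S.filter (fun e => e.1 = a), (e.2 - e.1) := by
          apply Finset.sum_le_sum
          intro a _
          refine Finset.card_biUnion_le.trans ?_
          apply Finset.sum_le_sum
          intro e _
          rw [Nat.card_Ioo]
          omega
  omega

open Classical in
theorem main : RUNB_T := by
  intro N S _
  apply run_aux N S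
  intro a
  rw [Finset.mem_filter, Finset.mem_range]
  constructor
  · exact fun h => h.2
  · exact fun h => ⟨by have := h.1; omega, h⟩

end Pool.Agent.W397.QTRUNB
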