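import Pool.Agent.W397.LGFinalB

set_option autoImplicit false

namespace Pool.Agent.W397.LGFinal

open Finset Pool.Agent.W246.LG

lemma div_le_of {c ε x : ℝ} (hε : 0 < ε) (hx : 0 < x) (h : c / ε ≤ x) : c / x ≤ ε := by
  rw [div_le_iff₀ hε] at h
  rw [div_le_iff₀ hx]
  linarith

lemma floor_half {y : ℝ} (hy : 1 ≤ y) : y / 2 ≤ (⌊y⌋₊ : ℝ) := by
  have h1 : 1 ≤ ⌊y⌋₊ := Nat.floor_pos.2 hy
  have h2 := Nat.lt_floor_add_one y
  have h3 : (1 : ℝ) ≤ ⌊y⌋₊ := by exact_mod_cast h1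
  linarith

/-- bounds of the form `c x^i / x^j ≤ c / x` -/
lemma pow_div_le {c x : ℝ} (hc : 0 ≤ c) (hx : 1 ≤ x) {i j : ℕ} (hij : i + 1 ≤ j) :
    c * x ^ i / x ^ j ≤ c / x := by
  have hx0 : 0 < x := by linarith
  rw [div_le_div_iff₀ (by positivity) hx0]
  have : x ^ i * x ≤ x ^ j := by
    rw [← pow_succ]
    exact pow_le_pow_right₀ hx hij
  calc c * x ^ i * x = c * (x ^ i * x) := by ring
    _ ≤ _ := mul_le_mul_of_nonneg_left this hc

theorem main : S_final := by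
  intro h_chi h_tp h_fejer h_pair h_core h_struct K L hK hL
  obtain ⟨m, hm1, hm⟩ := const_m L hL
  have hmR : (1 : ℝ) ≤ m := by exact_mod_cast hm1
  set sm : ℝ := Real.sqrt m with hsm
  clear_value sm
  have hsm1 : 1 ≤ sm := by
    rw [hsm]
    exact Real.one_le_sqrt.2 hmR
  set μ0 : ℝ := 4 * sm * (16 * (L + 1)) with hμ0
  clear_value μ0
  have hμ1 : 1 ≤ μ0 := by nlinarith
  set W : ℝ := 8 * μ0 with hW
  clear_value W
  set E : ℝ := Real.exp (-2 * W) with hE
  clear_value E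
  have hE0 : 0 < E := by
    rw [hE]
    exact Real.exp_pos _
  have hW1 : 1 ≤ W := by linarith
  obtain ⟨R, hR, hRW⟩ := const_R W (E / 8) (by positivity)
  have hR1 : 1 ≤ R := hR.pos
  have hRR : (1 : ℝ) ≤ R := by exact_mod_cast hR1
  set P : ℝ := (100 * R * W) ^ (10 * R) with hP
  clear_value P
  have hP0 : 0 < P := by
    rw [hP]
    positivity
  have hK0 : 0 < K := by linarith
  have hμpos : 0 < μ0 := by linarith
  have hsm0 : 0 < sm := by linarith
  have hm0 : (0 : ℝ) < m := by linarith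
  have hL1 : 0 < L + 1 := by linarith
  obtain ⟨C, hC⟩ : ∃ C : ℕ, (m + (2 * R + 5) + 2 * K + 64 * μ0 / E +
    2048 * P * μ0 * (m * sm) / E : ℝ) ≤ C := exists_nat_ge _
  have q1 : (0 : ℝ) ≤ 64 * μ0 / E := by positivity
  have q2 : (0 : ℝ) ≤ 2048 * P * μ0 * (m * sm) / E := by positivity
  have hCm : m ≤ C := by
    have : (m : ℝ) ≤ C := by linarith
    exact_mod_cast this
  have hCR : 2 * R + 5 ≤ C := by
    have : (2 * R + 5 : ℝ) ≤ C := by linarith
    exact_mod_cast this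
  have hCK : 2 * K ≤ (C : ℝ) := by linarith
  have hC0 : (0 : ℝ) < C := by linarith
  have hC1 : 8 * (μ0 / C) ≤ E / 8 := by
    have h1 : 64 * μ0 / E ≤ (C : ℝ) := by linarith
    have h2 := div_le_of hE0 hC0 h1
    calc 8 * (μ0 / C) = (64 * μ0 / C) / 8 := by ring
      _ ≤ _ := by linarith
  have hC2 : P * (64 * μ0 * (m * sm) / C) ≤ E / 32 := by
    have h1 : 2048 * P * μ0 * (m * sm) / E ≤ (C : ℝ) := by linarith
    have h2 := div_le_of hE0 hC0 h1
    calc P * (64 * μ0 * (m * sm) / C) = (2048 * P * μ0 * (m * sm) / C) / 32 := by ring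
      _ ≤ _ := by linarith
  obtain ⟨k0, hk0⟩ := h_struct C
  set c1 : ℝ := 16 * (m * sm) + μ0 with hc1
  clear_value c1
  have hc10 : 0 < c1 := by
    rw [hc1]
    positivity
  set c2 : ℝ := P * (Real.sqrt c1 + 24 * μ0 ^ 2 + 2 ^ (2 * R + 2) * m) with hc2
  clear_value c2
  have hc20 : 0 < c2 := by
    rw [hc2]
    positivity
  set X0 : ℝ := 2 + 16 * (L + 1) + μ0 + (2 * K ^ 2 * (2 * m + 1) + 1) + (2 * R + 2) * c1 / (1 / 16) +
    c2 / (E / 32) + 128 * m * (L + 1) ^ 2 / (E / 16) + 3 * μ0 * m / (E / 16) + 2 * K / (E / 64) +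
    1 / (E / 64) with hX0
  clear_value X0
  obtain ⟨k1, hk1⟩ : ∃ k1 : ℕ, ∀ k ≥ k1, X0 ≤ (k : ℝ) ^ (1 / 1000 : ℝ) := by
    have h1 : Filter.Tendsto (fun k : ℕ => (k : ℝ) ^ (1 / 1000 : ℝ)) Filter.atTop Filter.atTop :=
      (tendsto_rpow_atTop (by norm_num)).comp tendsto_natCast_atTop_atTop
    exact Filter.eventually_atTop.1 (h1.eventually_ge_atTop X0)
  refine ⟨max k0 k1, fun k hk p _ hkp A hA => ?_⟩
  by_contra hng
  have hkk0 : k0 ≤ k := le_trans (le_max_left _ _) hk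
  set x : ℝ := (k : ℝ) ^ (1 / 1000 : ℝ) with hx
  clear_value x
  have hxX : X0 ≤ x := by
    rw [hx]
    exact hk1 k (le_trans (le_max_right _ _) hk)
  have hxk : x ^ 1000 = k := by
    rw [hx, ← Real.rpow_natCast, ← Real.rpow_mul (Nat.cast_nonneg k)]
    norm_num
  -- nonnegativity of the pieces of X0
  have r1 : (0 : ℝ) ≤ 2 * K ^ 2 * (2 * m + 1) := by positivity
  have r2 : (0 : ℝ) ≤ (2 * R + 2) * c1 / (1 / 16) := by positivity
  have r3 : (0 : ℝ) ≤ c2 / (E / 32) := by positivity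
  have r4 : (0 : ℝ) ≤ 128 * m * (L + 1) ^ 2 / (E / 16) := by positivity
  have r5 : (0 : ℝ) ≤ 3 * μ0 * m / (E / 16) := by positivity
  have r6 : (0 : ℝ) ≤ 2 * K / (E / 64) := by positivity
  have r7 : (0 : ℝ) ≤ 1 / (E / 64) := by positivity
  have hx2 : 2 ≤ x := by linarith
  have hx0 : 0 < x := by linarith
  have hx1 : 1 ≤ x := by linarith
  have hxL : 16 * (L + 1) ≤ x := by linarith
  have hxμ : μ0 ≤ x := by linarith
  have hxK : 2 * K ^ 2 * (2 * m + 1) < x := by linarith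
  have t1 : (2 * R + 2) * c1 / x ≤ 1 / 16 := div_le_of (by norm_num) hx0 (by linarith)
  have t2 : c2 / x ≤ E / 32 := div_le_of (by positivity) hx0 (by linarith)
  have t3 : 128 * m * (L + 1) ^ 2 / x ≤ E / 16 := div_le_of (by positivity) hx0 (by linarith)
  have t4 : 3 * μ0 * m / x ≤ E / 16 := div_le_of (by positivity) hx0 (by linarith)
  have t5 : 2 * K / x ≤ E / 64 := div_le_of (by positivity) hx0 (by linarith)
  have t6 : 1 / x ≤ E / 64 := div_le_of (by positivity) hx0 (by linarith)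
  have hxk' : x ≤ k := by
    calc x = x ^ 1 := (pow_one x).symm
      _ ≤ x ^ 1000 := pow_le_pow_right₀ hx1 (by norm_num)
      _ = k := hxk
  have hkR : (0 : ℝ) < k := lt_of_lt_of_le hx0 hxk'
  have hk1' : 1 ≤ k := by
    have : 0 < k := by exact_mod_cast hkR
    exact this
  have hk1R : (1 : ℝ) ≤ k := by exact_mod_cast hk1'
  have hinvk : 1 / (k : ℝ) ≤ 1 / x := one_div_le_one_div_of_le hx0 hxk'
  clear r1 r2 r3 r4 r5 r6 r7 hxX hX0 hk1 hx hC q1 q2
  -- p is large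
  have hp0 : (0 : ℝ) < p := by exact_mod_cast (Fact.out : p.Prime).pos
  have hpexp : Real.exp (k / K) ≤ p := by
    rw [← Real.le_log_iff_exp_le hp0, div_le_iff₀ hK0]
    linarith
  have hpk : (2 * m + 1) * (k : ℝ) < p := by
    have h1 := Real.quadratic_le_exp_of_nonneg (x := (k : ℝ) / K) (by positivity)
    have h2 : (0 : ℝ) ≤ k / K := by positivity
    have h3 : (2 * m + 1) * (k : ℝ) < ((k : ℝ) / K) ^ 2 / 2 := by
      rw [div_pow, lt_div_iff₀ (by norm_num), lt_div_iff₀ (by positivity)]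
      have h4 : 2 * K ^ 2 * (2 * m + 1) < (k : ℝ) := lt_of_lt_of_le hxK hxk'
      calc (2 * m + 1) * (k : ℝ) * 2 * K ^ 2 = (2 * K ^ 2 * (2 * m + 1)) * k := by ring
        _ < (k : ℝ) * (k : ℝ) := mul_lt_mul_of_pos_right h4 hkR
        _ = (k : ℝ) ^ 2 := by ring
    linarith
  have hkp' : k < p := by
    have h0 : (0 : ℝ) ≤ m * k := by positivity
    have : (k : ℝ) < p := by linarith
    exact_mod_cast this
  -- n and h
  set n : ℕ := ⌊(k : ℝ) / (8 * (L + 1))⌋₊ with hn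
  clear_value n
  have hkL : 16 * (L + 1) ≤ (k : ℝ) := hxL.trans hxk'
  have hnn1 : (n : ℝ) ≤ (k : ℝ) / (8 * (L + 1)) := by
    rw [hn]
    exact Nat.floor_le (by positivity)
  have hn2 : 8 * (L + 1) * n ≤ k := by
    rw [le_div_iff₀ (by positivity)] at hnn1
    linarith
  have hnn2 : 1 ≤ (k : ℝ) / (8 * (L + 1)) := by
    rw [le_div_iff₀ (by positivity)]
    linarith
  have hn1 : 1 ≤ n := by
    rw [hn]
    exact Nat.floor_pos.2 hnn2
  have hn1R : (1 : ℝ) ≤ n := by exact_mod_cast hn1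
  have hn0 : (0 : ℝ) < n := by linarith
  have hn3 : (k : ℝ) ≤ 16 * (L + 1) * n := by
    have h1 := floor_half hnn2
    rw [← hn] at h1
    have h2 : (k : ℝ) / (8 * (L + 1)) ≤ 2 * n := by linarith
    rw [div_le_iff₀ (by positivity)] at h2
    linarith
  have hnk : (n : ℝ) ≤ k := by
    refine le_trans ?_ hn2
    have h1 : (1 : ℝ) ≤ 8 * (L + 1) := by linarith
    calc (n : ℝ) = 1 * n := (one_mul _).symm
      _ ≤ 8 * (L + 1) * n := mul_le_mul_of_nonneg_right h1 hn0.le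
  have hnkN : n ≤ k := by exact_mod_cast hnk
  set h : ℕ := m * n with hh
  clear_value h
  have hhR : (h : ℝ) = m * n := by
    rw [hh]
    push_cast
    rfl
  have hh1 : 1 ≤ h := by
    rw [hh]
    exact Nat.mul_pos hm1 hn1
  have hh1R : (1 : ℝ) ≤ h := by exact_mod_cast hh1
  have hhk : (h : ℝ) ≤ m * k := by
    rw [hhR]
    exact mul_le_mul_of_nonneg_left hnk hm0.le
  have hhp : 2 * h < p := by
    have : (2 * h : ℝ) < p := by linarith
    exact_mod_cast this
  have hhC : h ≤ C * k := by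
    rw [hh]
    exact Nat.mul_le_mul hCm hnkN
  obtain ⟨chi, a, hchi, hper, hexp, haev, ha, hflat, hdec, ha0n⟩ := h_chi m n hm1 hn1
  rw [← hsm] at ha0n
  rw [← hh] at hexp
  have ha0 : 0 ≤ a 0 := (abs_nonneg _).trans (ha 0)
  have hka : (k : ℝ) * a 0 ≤ μ0 := by
    calc (k : ℝ) * a 0 ≤ (16 * (L + 1) * n) * (4 * sm / n) :=
          mul_le_mul hn3 ha0n ha0 (by positivity)
      _ = μ0 := by
          rw [hμ0]
          field_simp
  have ha0k : a 0 ≤ μ0 / k := by
    rw [le_div_iff₀ hkR]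
    linarith
  have hha : (h : ℝ) * a 0 ≤ 4 * (m * sm) := by
    calc (h : ℝ) * a 0 ≤ (m * n) * (4 * sm / n) := by
          rw [hhR]
          exact mul_le_mul_of_nonneg_left ha0n (by positivity)
      _ = _ := by
          field_simp
  have ha1 : a 0 ≤ 1 := by
    refine ha0k.trans ?_
    rw [div_le_one hkR]
    exact hxμ.trans hxk'
  have hLn : (L + 1) / k ≤ 1 / (4 * n) := by
    rw [div_le_div_iff₀ hkR (by positivity)]
    have h0 : 0 ≤ (L + 1) * (n : ℝ) := by positivity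
    linarith
  clear hkp hnn1 hnn2
  -- the structure
  obtain ⟨N, z, s, Q, M, Hs, B1, B, o, hN, hs, hz, hsk, hMH, hMl, hη, hB, hB1, hBC, hrep, ho1,
    ho2, hsep, hdep⟩ := hk0 k hkk0 p hkp' A hA h hh1 hhC
  clear hk0 hkk0
  have hsR : (1 : ℝ) ≤ s := by exact_mod_cast hs
  have hs0 : (0 : ℝ) < s := by linarith
  have hC1N : 1 ≤ C := by omega
  have hz1 : 1 ≤ z := le_trans (Nat.mul_pos hC1N hs) hz
  have hz0 : (0 : ℝ) < z := by exact_mod_cast hz1
  have hzR : (C : ℝ) * s ≤ z := by exact_mod_cast hz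
  have hsx : (s : ℝ) ≤ x := by
    have h1 : (s : ℝ) ^ 1000 ≤ x ^ 1000 := by
      rw [hxk]
      exact_mod_cast hsk
    exact (pow_le_pow_iff_left₀ hs0.le hx0.le (by norm_num)).1 h1
  set η : ℝ := 1 / (k : ℝ) ^ C with hηd
  clear_value η
  have hη0 : 0 ≤ η := by
    rw [hηd]
    positivity
  have hη1 : ∑ q ∈ Q, (Hs q : ℝ) * (2 / Real.sqrt (M q)) ≤ η := by
    rw [hηd, le_div_iff₀ (by positivity)]
    exact hη
  have hkη : ∀ i : ℕ, i + 1 ≤ C → (k : ℝ) ^ i * η ≤ 1 / k := by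
    intro i hi
    rw [hηd]
    calc (k : ℝ) ^ i * (1 / (k : ℝ) ^ C) = 1 * (k : ℝ) ^ i / (k : ℝ) ^ C := by ring
      _ ≤ 1 / k := pow_div_le (by norm_num) hk1R hi
  -- the numbers
  set Qn : ℕ := ⌊x ^ 100⌋₊ with hQn
  clear_value Qn
  have hx100 : 1 ≤ x ^ 100 := one_le_pow₀ hx1
  have hQn1 : 1 ≤ Qn := by
    rw [hQn]
    exact Nat.floor_pos.2 hx100
  have hQn2 : (Qn : ℝ) ≤ x ^ 100 := by
    rw [hQn]
    exact Nat.floor_le (by positivity)
  have hQn3 : x ^ 100 / 2 ≤ (Qn : ℝ) := by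
    rw [hQn]
    exact floor_half hx100
  have hQn0 : (0 : ℝ) < Qn := by exact_mod_cast hQn1
  set ρ : ℝ := 1 / x ^ 210 with hρ
  clear_value ρ
  have hρ0 : 0 < ρ := by
    rw [hρ]
    positivity
  set qs : ℝ := c1 / x ^ 100 with hqs
  clear_value qs
  have hqs0 : 0 < qs := by
    rw [hqs]
    positivity
  have n2 : ((B1 \ B).card : ℝ) * a 0 ≤ μ0 / C := by
    have h1 : (C : ℝ) * (B1 \ B).card ≤ k := by exact_mod_cast hBC
    rw [le_div_iff₀ hC0]
    calc ((B1 \ B).card : ℝ) * a 0 * C = (C * (B1 \ B).card) * a 0 := by ring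
      _ ≤ k * a 0 := mul_le_mul_of_nonneg_right h1 ha0
      _ ≤ μ0 := hka
  have n3 : (k : ℝ) * s * (a 0 ^ 2 * (2 * h / z + 3)) ≤
      μ0 * (8 * (m * sm) / C + 3 * μ0 / x) := by
    have h1 : (s : ℝ) / z ≤ 1 / C := by
      rw [div_le_div_iff₀ hz0 hC0]
      linarith
    have h2 : (s : ℝ) * a 0 ≤ μ0 / x := by
      calc (s : ℝ) * a 0 ≤ x * (μ0 / k) := mul_le_mul hsx ha0k ha0 hx0.le
        _ = μ0 * x ^ 1 / x ^ 1000 := by
          rw [hxk]
          ring
        _ ≤ μ0 / x := pow_div_le hμpos.le hx1 (by norm_num)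
    have h3 : (s : ℝ) * a 0 * (2 * h / z + 3) ≤ 8 * (m * sm) / C + 3 * μ0 / x := by
      calc (s : ℝ) * a 0 * (2 * h / z + 3) = 2 * (h * a 0) * (s / z) + 3 * (s * a 0) := by ring
        _ ≤ 2 * (4 * (m * sm)) * (1 / C) + 3 * (μ0 / x) := by
          refine add_le_add (mul_le_mul (by linarith) h1 (by positivity) (by positivity))
            (by linarith)
        _ = _ := by ring
    calc (k : ℝ) * s * (a 0 ^ 2 * (2 * h / z + 3)) =
        (k * a 0) * (s * a 0 * (2 * h / z + 3)) := by ring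
      _ ≤ _ := mul_le_mul hka h3 (by positivity) hμpos.le
  have hp1000 : x ^ 1000 ≤ p := by
    rw [hxk]
    exact_mod_cast hkp'.le
  have n4 : (Qn : ℝ) ^ 2 * (2 * (2 * ρ * p + 1)) ≤ p / 8 := by
    have h1 : (Qn : ℝ) ^ 2 ≤ x ^ 200 := by
      calc (Qn : ℝ) ^ 2 ≤ (x ^ 100) ^ 2 := pow_le_pow_left₀ hQn0.le hQn2 2
        _ = x ^ 200 := by ring
    have h2 : x ^ 200 * (2 * (2 * ρ * p + 1)) = 4 * p * (1 / x ^ 10) + 2 * x ^ 200 := by
      have h0 : x ^ 200 * ρ = 1 / x ^ 10 := by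
        rw [hρ, show x ^ 210 = x ^ 200 * x ^ 10 by ring]
        field_simp
      calc x ^ 200 * (2 * (2 * ρ * p + 1)) = 4 * p * (x ^ 200 * ρ) + 2 * x ^ 200 := by ring
        _ = _ := by rw [h0]
    have h3 : 1 / x ^ 10 ≤ 1 / 64 := by
      apply one_div_le_one_div_of_le (by norm_num)
      calc (64 : ℝ) ≤ 2 ^ 10 := by norm_num
        _ ≤ x ^ 10 := pow_le_pow_left₀ (by norm_num) hx2 10
    have h4 : 2 * x ^ 200 ≤ p / 16 := by
      have h5 : 32 * x ^ 200 ≤ x ^ 1000 := by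
        have h6 : (32 : ℝ) ≤ x ^ 5 := by
          calc (32 : ℝ) = 2 ^ 5 := by norm_num
            _ ≤ x ^ 5 := pow_le_pow_left₀ (by norm_num) hx2 5
        calc 32 * x ^ 200 ≤ x ^ 5 * x ^ 200 := mul_le_mul_of_nonneg_right h6 (by positivity)
          _ = x ^ 205 := by ring
          _ ≤ x ^ 1000 := pow_le_pow_right₀ hx1 (by norm_num)
      linarith
    have h5 : 0 ≤ 2 * (2 * ρ * p + 1) := by positivity
    calc (Qn : ℝ) ^ 2 * (2 * (2 * ρ * p + 1)) ≤ x ^ 200 * (2 * (2 * ρ * p + 1)) :=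
          mul_le_mul_of_nonneg_right h1 h5
      _ = 4 * p * (1 / x ^ 10) + 2 * x ^ 200 := h2
      _ ≤ 4 * p * (1 / 64) + p / 16 := by
          refine add_le_add (mul_le_mul_of_nonneg_left h3 (by positivity)) h4
      _ = _ := by ring
  have n5 : a 0 * (2 * h / Qn + 1) ≤ qs := by
    have h1 : a 0 * (2 * h / Qn + 1) = 2 * (h * a 0) * (1 / Qn) + a 0 := by ring
    have h2 : 1 / (Qn : ℝ) ≤ 2 / x ^ 100 := by
      rw [div_le_div_iff₀ hQn0 (by positivity)]
      linarith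
    have h3 : a 0 ≤ μ0 / x ^ 100 := by
      refine ha0k.trans ?_
      apply div_le_div_of_nonneg_left hμpos.le (by positivity)
      rw [← hxk]
      exact pow_le_pow_right₀ hx1 (by norm_num)
    rw [h1]
    calc 2 * (h * a 0) * (1 / Qn) + a 0 ≤ 2 * (4 * (m * sm)) * (2 / x ^ 100) + μ0 / x ^ 100 := by
          refine add_le_add (mul_le_mul (by linarith) h2 (by positivity) (by positivity)) h3
      _ = qs := by
          rw [hqs, hc1]
          ring
  have n8 : (s : ℝ) * (2 * R + 2) * qs ≤ 1 / 16 := by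
    refine le_trans ?_ t1
    calc (s : ℝ) * (2 * R + 2) * qs ≤ x * (2 * R + 2) * qs := by
          apply mul_le_mul_of_nonneg_right _ hqs0.le
          exact mul_le_mul_of_nonneg_right hsx (by positivity)
      _ = ((2 * R + 2) * c1) * x ^ 1 / x ^ 100 := by
          rw [hqs]
          ring
      _ ≤ _ := pow_div_le (by positivity) hx1 (by norm_num)
  have n7 : qs ≤ 1 / 2 := by
    have h1 : 1 * qs ≤ (s : ℝ) * (2 * R + 2) * qs := by
      apply mul_le_mul_of_nonneg_right _ hqs0.le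
      exact one_le_mul_of_one_le_of_one_le hsR (by linarith)
    linarith
  have hhη : ((k : ℝ) + 1) ^ (2 * R + 2) * h * η ≤ 2 ^ (2 * R + 2) * m / x := by
    have h1 : ((k : ℝ) + 1) ^ (2 * R + 2) ≤ (2 * k) ^ (2 * R + 2) :=
      pow_le_pow_left₀ (by positivity) (by linarith) _
    calc ((k : ℝ) + 1) ^ (2 * R + 2) * h * η ≤ (2 * k) ^ (2 * R + 2) * (m * k) * η := by
          apply mul_le_mul_of_nonneg_right _ hη0
          exact mul_le_mul h1 hhk (by positivity) (by positivity)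
      _ = 2 ^ (2 * R + 2) * m * ((k : ℝ) ^ (2 * R + 3) * η) := by
          rw [mul_pow]
          ring
      _ ≤ 2 ^ (2 * R + 2) * m * (1 / x) := by
          apply mul_le_mul_of_nonneg_left _ (by positivity)
          exact (hkη _ (by omega)).trans hinvk
      _ = _ := by ring
  have n9 : P * ((s : ℝ) ^ 2 * Real.sqrt qs + 8 * (μ0 * (8 * (m * sm) / C + 3 * μ0 / x)) +
      (k + 1) ^ (2 * R + 2) * h * η) ≤ E / 8 := by
    have h1 : (s : ℝ) ^ 2 * Real.sqrt qs ≤ Real.sqrt c1 / x := by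
      have h2 : Real.sqrt qs = Real.sqrt c1 / x ^ 50 := by
        rw [hqs, Real.sqrt_div hc10.le]
        congr 1
        rw [show x ^ 100 = (x ^ 50) ^ 2 by ring]
        exact Real.sqrt_sq (by positivity)
      rw [h2]
      calc (s : ℝ) ^ 2 * (Real.sqrt c1 / x ^ 50) ≤ x ^ 2 * (Real.sqrt c1 / x ^ 50) := by
            apply mul_le_mul_of_nonneg_right _ (by positivity)
            exact pow_le_pow_left₀ hs0.le hsx 2
        _ = Real.sqrt c1 * x ^ 2 / x ^ 50 := by ring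
        _ ≤ _ := pow_div_le (Real.sqrt_nonneg _) hx1 (by norm_num)
    calc P * ((s : ℝ) ^ 2 * Real.sqrt qs + 8 * (μ0 * (8 * (m * sm) / C + 3 * μ0 / x)) +
          (k + 1) ^ (2 * R + 2) * h * η) ≤
        P * (Real.sqrt c1 / x + 8 * (μ0 * (8 * (m * sm) / C + 3 * μ0 / x)) +
          2 ^ (2 * R + 2) * m / x) := by
          apply mul_le_mul_of_nonneg_left _ hP0.le
          linarith
      _ = P * (64 * μ0 * (m * sm) / C) + c2 / x := by
          rw [hc2]
          ring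
      _ ≤ E / 8 := by linarith
  have n11 : 8 * (μ0 / C) + (k + 1) * (m / (4 * (n : ℝ) ^ 2 * ρ ^ 2)) +
      k * ((2 * h + 1) * a 0 * η) ≤ E / 4 := by
    have h1 : ((k : ℝ) + 1) * (m / (4 * (n : ℝ) ^ 2 * ρ ^ 2)) ≤ E / 16 := by
      refine le_trans ?_ t3
      have h2 : (k : ℝ) ^ 2 ≤ 256 * (L + 1) ^ 2 * (n : ℝ) ^ 2 := by
        calc (k : ℝ) ^ 2 ≤ (16 * (L + 1) * n) ^ 2 := pow_le_pow_left₀ hkR.le hn3 2
          _ = _ := by ring
      have h3 : 1 / (n : ℝ) ^ 2 ≤ 256 * (L + 1) ^ 2 / (k : ℝ) ^ 2 := by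
        rw [div_le_div_iff₀ (by positivity) (by positivity)]
        linarith
      have h4 : (m / (4 * (n : ℝ) ^ 2 * ρ ^ 2)) = m / 4 * x ^ 420 * (1 / (n : ℝ) ^ 2) := by
        rw [hρ]
        field_simp
      rw [h4]
      calc ((k : ℝ) + 1) * (m / 4 * x ^ 420 * (1 / (n : ℝ) ^ 2)) ≤
          (2 * k) * (m / 4 * x ^ 420 * (256 * (L + 1) ^ 2 / (k : ℝ) ^ 2)) := by
            apply mul_le_mul (by linarith) _ (by positivity) (by positivity)
            exact mul_le_mul_of_nonneg_left h3 (by positivity)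
        _ = 128 * m * (L + 1) ^ 2 * x ^ 420 / x ^ 1000 := by
            rw [hxk]
            field_simp
            ring
        _ ≤ _ := pow_div_le (by positivity) hx1 (by norm_num)
    have h2 : (k : ℝ) * ((2 * h + 1) * a 0 * η) ≤ E / 16 := by
      refine le_trans ?_ t4
      calc (k : ℝ) * ((2 * h + 1) * a 0 * η) = (k * a 0) * ((2 * h + 1) * η) := by ring
        _ ≤ μ0 * ((3 * (m * k)) * η) := by
            apply mul_le_mul hka _ (by positivity) hμpos.le
            apply mul_le_mul_of_nonneg_right _ hη0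
            linarith
        _ = 3 * μ0 * m * ((k : ℝ) ^ 1 * η) := by ring
        _ ≤ 3 * μ0 * m * (1 / x) := by
            apply mul_le_mul_of_nonneg_left _ (by positivity)
            exact (hkη _ (by omega)).trans hinvk
        _ = _ := by ring
    linarith
  have n12 : (∏ q ∈ Q, (M q : ℝ)) / p + (k : ℝ) ^ 2 * η ≤ E / 32 := by
    have h1 : ∏ q ∈ Q, (M q : ℝ) = Real.exp (∑ q ∈ Q, Real.log (M q)) := by
      rw [Real.exp_sum]
      refine Finset.prod_congr rfl (fun q hq => ?_)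
      rw [Real.exp_log]
      have := (hMH q hq).1
      exact_mod_cast this
    have h2 : ∑ q ∈ Q, Real.log (M q) ≤ k / C := by
      rw [le_div_iff₀ hC0]
      linarith
    have h3 : (k : ℝ) / C ≤ k / (2 * K) :=
      div_le_div_of_nonneg_left hkR.le (by positivity) hCK
    have h4 : (∏ q ∈ Q, (M q : ℝ)) / p ≤ 2 * K / x := by
      rw [h1]
      have h5 : Real.exp (∑ q ∈ Q, Real.log (M q)) ≤ Real.exp (k / (2 * K)) :=
        Real.exp_le_exp.2 (h2.trans h3)
      have h6 : Real.exp (k / (2 * K)) * Real.exp (k / (2 * K)) ≤ p := by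
        rw [← Real.exp_add]
        refine le_trans (Real.exp_le_exp.2 ?_) hpexp
        apply le_of_eq
        field_simp
        ring
      have h7 : k / (2 * K) ≤ Real.exp (k / (2 * K)) := by
        have := Real.add_one_le_exp ((k : ℝ) / (2 * K))
        linarith
      have h8 : 0 < Real.exp ((k : ℝ) / (2 * K)) := Real.exp_pos _
      have h9 : Real.exp (∑ q ∈ Q, Real.log (M q)) / p ≤ 2 * K / k := by
        rw [div_le_div_iff₀ hp0 hkR]
        have h10 : (k : ℝ) ≤ 2 * K * Real.exp (k / (2 * K)) := by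
          rw [div_le_iff₀ (by positivity)] at h7
          linarith
        calc Real.exp (∑ q ∈ Q, Real.log (M q)) * k ≤
            Real.exp (k / (2 * K)) * (2 * K * Real.exp (k / (2 * K))) :=
              mul_le_mul h5 h10 hkR.le h8.le
          _ = 2 * K * (Real.exp (k / (2 * K)) * Real.exp (k / (2 * K))) := by ring
          _ ≤ _ := mul_le_mul_of_nonneg_left h6 (by positivity)
      refine h9.trans ?_
      exact div_le_div_of_nonneg_left (by positivity) hx0 hxk'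
    have h5 : (k : ℝ) ^ 2 * η ≤ 1 / x := (hkη 2 (by omega)).trans hinvk
    linarith
  have n13 : (1 / 2 : ℝ) ^ m ≤ E / 32 := by
    refine hm.trans (le_of_eq ?_)
    ring
  exact det h_tp h_fejer h_pair h_core L hL m R k p n h hk1' hn1 hh1 hhp hR A hA hng chi a hchi
    hper hexp haev ha hflat hdec ha1 hLn N z s Q M Hs B1 B o hN hs hz1 (fun q hq => (hMH q hq).1)
    (fun q hq => le_trans (Nat.mul_le_mul_right _ (by omega)) (hMH q hq).2) η hη0 hη1 hB hB1 hrep
    ho1 ho2 hsep hdep μ0 W (μ0 / C) (μ0 * (8 * (m * sm) / C + 3 * μ0 / x)) E qs ρ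
    (m / (4 * (n : ℝ) ^ 2 * ρ ^ 2)) P Qn hQn1 hW hW1 (by positivity) (by positivity) hE hP rfl
    hka n2 n3 hρ0 n4 n5 hqs0 n7 n8 n9 hRW n11 n12 n13

end Pool.Agent.W397.LGFinal
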