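import Mathlib
import Pool.Agent.W257.LStm

/-! LV-2: auxiliary polynomial by linear algebra (part of helper257's project for
MP_26d9ad_nt). -/

set_option autoImplicit false

namespace Pool.Agent.W397.LV2

open MvPolynomial

/-- the exponent `(a, b)` -/
noncomputable def dd (a b : ℕ) : Fin 2 →₀ ℕ := Finsupp.single 0 a + Finsupp.single 1 b

@[simp] theorem dd0 (a b : ℕ) : dd a b 0 = a := by simp [dd]
@[simp] theorem dd1 (a b : ℕ) : dd a b 1 = b := by simp [dd]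

theorem eq_dd (d : Fin 2 →₀ ℕ) : d = dd (d 0) (d 1) := by
  ext i; fin_cases i <;> simp

/-- the conditions, first part -/
def S1 (m n l q : ℕ) : Finset (ℕ × ℕ) :=
  (Finset.range (m + n + 1)).biUnion fun B =>
    (Finset.Icc (n + 2 - (m + n - B)) (q + (l + 2) * B)).image fun α => (α, m + n - B)

/-- the conditions, second part -/
def S2 (m n l : ℕ) : Finset (ℕ × ℕ) :=
  (Finset.range (n + 1)).biUnion fun i =>
    (Finset.Icc 1 ((l + 1) * i)).image fun α => (α, m + n + (n - i))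

theorem card_S1 (m n l q : ℕ) :
    2 * (S1 m n l q).card ≤ 2 * ((m + n + 1) * (q + m)) + (l + 1) * ((m + n + 1) * (m + n)) := by
  have h1 : (S1 m n l q).card ≤ ∑ B ∈ Finset.range (m + n + 1), (q + m + (l + 1) * B) := by
    refine Finset.card_biUnion_le.trans (Finset.sum_le_sum fun B hB => ?_)
    refine Finset.card_image_le.trans ?_
    rw [Nat.card_Icc]
    have h2 : (l + 2) * B = (l + 1) * B + B := by ring
    rw [h2]
    have := Finset.mem_range.mp hB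
    omega
  rw [Finset.sum_add_distrib, ← Finset.mul_sum, Finset.sum_const, Finset.card_range,
    smul_eq_mul] at h1
  have h3 := Finset.sum_range_id_mul_two (m + n + 1)
  rw [Nat.add_sub_cancel] at h3
  calc 2 * (S1 m n l q).card ≤ 2 * ((m + n + 1) * (q + m) +
        (l + 1) * ∑ i ∈ Finset.range (m + n + 1), i) := by gcongr
    _ = 2 * ((m + n + 1) * (q + m)) + (l + 1) * ((∑ i ∈ Finset.range (m + n + 1), i) * 2) := by
        ring
    _ = _ := by rw [h3]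

theorem card_S2 (m n l : ℕ) : 2 * (S2 m n l).card ≤ (l + 1) * ((n + 1) * n) := by
  have h1 : (S2 m n l).card ≤ ∑ i ∈ Finset.range (n + 1), ((l + 1) * i) := by
    refine Finset.card_biUnion_le.trans (Finset.sum_le_sum fun B hB => ?_)
    refine Finset.card_image_le.trans ?_
    rw [Nat.card_Icc]
    omega
  rw [← Finset.mul_sum] at h1
  have h3 := Finset.sum_range_id_mul_two (n + 1)
  rw [Nat.add_sub_cancel] at h3
  calc 2 * (S2 m n l).card ≤ 2 * ((l + 1) * ∑ i ∈ Finset.range (n + 1), i) := by gcongr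
    _ = (l + 1) * ((∑ i ∈ Finset.range (n + 1), i) * 2) := by ring
    _ = _ := by rw [h3]

theorem card_lt (m l : ℕ) (hm : 3 ≤ m) :
    (S1 m (100 * m) l ((l + 1) * (100 * m)) ∪ S2 m (100 * m) l).card <
      m * ((100 * m) * ((l + 1) * (100 * m))) := by
  have h1 := card_S1 m (100 * m) l ((l + 1) * (100 * m))
  have h2 := card_S2 m (100 * m) l
  have h3 := Finset.card_union_le (S1 m (100 * m) l ((l + 1) * (100 * m))) (S2 m (100 * m) l)
  have h4 : 2 * ((m + 100 * m + 1) * ((l + 1) * (100 * m) + m)) +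
      (l + 1) * ((m + 100 * m + 1) * (m + 100 * m)) + (l + 1) * ((100 * m + 1) * (100 * m)) <
      2 * (m * ((100 * m) * ((l + 1) * (100 * m)))) := by
    have e1 : m + 100 * m + 1 ≤ 102 * m := by omega
    have e2 : (l + 1) * (100 * m) + m ≤ (l + 1) * (101 * m) := by nlinarith
    have e3 : 100 * m + 1 ≤ 101 * m := by omega
    calc 2 * ((m + 100 * m + 1) * ((l + 1) * (100 * m) + m)) +
      (l + 1) * ((m + 100 * m + 1) * (m + 100 * m)) + (l + 1) * ((100 * m + 1) * (100 * m))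
        ≤ 2 * ((102 * m) * ((l + 1) * (101 * m))) +
      (l + 1) * ((102 * m) * (101 * m)) + (l + 1) * ((101 * m) * (100 * m)) := by
          have e4 : m + 100 * m = 101 * m := by ring
          rw [e4] at e1 ⊢
          gcongr
      _ = 41006 * ((l + 1) * (m * m)) := by ring
      _ < 60000 * ((l + 1) * (m * m)) := by
          have : 0 < (l + 1) * (m * m) := by positivity
          omega
      _ ≤ 20000 * m * ((l + 1) * (m * m)) := by
          have : 60000 ≤ 20000 * m := by omega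
          gcongr
      _ = 2 * (m * ((100 * m) * ((l + 1) * (100 * m)))) := by ring
  omega

/-- index set -/
abbrev Ix (m n q : ℕ) := Fin m × Fin n × Fin q

/-- the basic term -/
noncomputable def tm (m n q : ℕ) (Q : MvPolynomial (Fin 2) ℚ) (i : Ix m n q) :
    MvPolynomial (Fin 2) ℚ :=
  monomial (dd (q + i.2.1 - i.2.2) (m + n - i.1 - i.2.1)) 1 * Q ^ (i.1 : ℕ)

/-- the linear combination -/
noncomputable def L (m n q : ℕ) (Q : MvPolynomial (Fin 2) ℚ) :
    (Ix m n q → ℚ) →ₗ[ℚ] MvPolynomial (Fin 2) ℚ where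
  toFun c := ∑ i, c i • tm m n q Q i
  map_add' a b := by
    simp only [Pi.add_apply, add_smul, Finset.sum_add_distrib]
  map_smul' a b := by
    simp only [Pi.smul_apply, smul_eq_mul, mul_smul, Finset.smul_sum, RingHom.id_apply]

theorem L_apply (m n q : ℕ) (Q : MvPolynomial (Fin 2) ℚ) (c : Ix m n q → ℚ) :
    L m n q Q c = ∑ i, c i • tm m n q Q i := rfl

theorem supp_L {m n q : ℕ} {Q : MvPolynomial (Fin 2) ℚ} {c : Ix m n q → ℚ} {d : Fin 2 →₀ ℕ}
    (h : coeff d (L m n q Q c) ≠ 0) :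
    ∃ i : Ix m n q, q + i.2.1 - i.2.2 ≤ d 0 ∧ m + n - i.1 - i.2.1 ≤ d 1 := by
  rw [L_apply, coeff_sum] at h
  obtain ⟨i, -, hi⟩ := Finset.exists_ne_zero_of_sum_ne_zero h
  refine ⟨i, ?_⟩
  rw [coeff_smul, smul_eq_mul] at hi
  have h2 := right_ne_zero_of_mul hi
  rw [tm, coeff_monomial_mul'] at h2
  split_ifs at h2 with h3
  · have h4 := h3 0
    have h5 := h3 1
    rw [dd0] at h4
    rw [dd1] at h5
    exact ⟨h4, h5⟩
  · exact absurd rfl h2

/-- allowed exponents -/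
def Good (m n l q : ℕ) (d : Fin 2 →₀ ℕ) : Prop :=
  (d 1 ≤ m + n ∧ q + (l + 2) * (m + n - d 1) < d 0) ∨
    (m + n < d 1 ∧ q < d 0 + (l + 1) * (d 1 - (m + n)))

theorem exists_c (m l n q : ℕ) (hm : 3 ≤ m) (hn : n = 100 * m) (hq : q = (l + 1) * (100 * m))
    (Q : MvPolynomial (Fin 2) ℚ) :
    ∃ c : Ix m n q → ℚ, c ≠ 0 ∧
      ∀ d, coeff d (L m n q Q c) ≠ 0 → Good m n l q d := by
  have hcard := card_lt m l hm
  rw [← hq, ← hn] at hcard
  have hqn : q = (l + 1) * n := by rw [hq, hn]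
  let S : Finset (ℕ × ℕ) := S1 m n l q ∪ S2 m n l
  let Φ : (Ix m n q → ℚ) →ₗ[ℚ] (S → ℚ) :=
    { toFun := fun c p => coeff (dd p.1.1 p.1.2) (L m n q Q c)
      map_add' := fun a b => by
        ext p
        simp only [map_add, coeff_add, Pi.add_apply]
      map_smul' := fun a b => by
        ext p
        simp only [map_smul, coeff_smul, Pi.smul_apply, RingHom.id_apply] }
  have hfin : Module.finrank ℚ (S → ℚ) < Module.finrank ℚ (Ix m n q → ℚ) := by
    rw [Module.finrank_fintype_fun_eq_card, Module.finrank_fintype_fun_eq_card,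
      Fintype.card_coe, Fintype.card_prod, Fintype.card_prod, Fintype.card_fin, Fintype.card_fin,
      Fintype.card_fin]
    exact hcard
  have hker := LinearMap.ker_ne_bot_of_finrank_lt hfin (f := Φ)
  obtain ⟨c, hc, hc0⟩ := Submodule.exists_mem_ne_zero_of_ne_bot hker
  refine ⟨c, hc0, fun d hd => ?_⟩
  have hnot : (d 0, d 1) ∉ S := by
    intro hS
    have h1 := congrFun (LinearMap.mem_ker.mp hc) ⟨(d 0, d 1), hS⟩
    have h2 : coeff (dd (d 0) (d 1)) (L m n q Q c) = 0 := h1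
    rw [← eq_dd] at h2
    exact hd h2
  obtain ⟨⟨j, k, r⟩, h0, h1⟩ := supp_L hd
  simp only at h0 h1
  have hj := j.2
  have hk := k.2
  have hr := r.2
  have hn1 : (d 0, d 1) ∉ S1 m n l q := fun h => hnot (Finset.mem_union_left _ h)
  have hn2 : (d 0, d 1) ∉ S2 m n l := fun h => hnot (Finset.mem_union_right _ h)
  unfold Good
  rcases le_or_gt (d 1) (m + n) with hd1 | hd1
  · left
    refine ⟨hd1, ?_⟩
    by_contra hcon
    push Not at hcon
    apply hn1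
    unfold S1
    rw [Finset.mem_biUnion]
    refine ⟨m + n - d 1, by rw [Finset.mem_range]; omega, ?_⟩
    rw [Finset.mem_image]
    refine ⟨d 0, ?_, ?_⟩
    · rw [Finset.mem_Icc]
      refine ⟨?_, hcon⟩
      omega
    · have : m + n - (m + n - d 1) = d 1 := by omega
      rw [this]
  · right
    refine ⟨hd1, ?_⟩
    rcases le_or_gt (d 1) (m + n + n) with h2 | h2
    · by_contra hcon
      push Not at hcon
      apply hn2
      unfold S2
      rw [Finset.mem_biUnion]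
      refine ⟨m + n + n - d 1, by rw [Finset.mem_range]; omega, ?_⟩
      rw [Finset.mem_image]
      refine ⟨d 0, ?_, ?_⟩
      · rw [Finset.mem_Icc]
        refine ⟨by omega, ?_⟩
        have h3 : (l + 1) * (m + n + n - d 1) + (l + 1) * (d 1 - (m + n)) = q := by
          rw [← mul_add, hqn]
          congr 1
          omega
        omega
      · have : m + n + (n - (m + n + n - d 1)) = d 1 := by omega
        rw [this]
    · have h3 : (l + 1) * n < (l + 1) * (d 1 - (m + n)) := by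
        apply Nat.mul_lt_mul_of_pos_left
        · omega
        · omega
      omega

/-- the allowed monomials are small -/
theorem good_bd {m n l q : ℕ} {d : Fin 2 →₀ ℕ} (hd : Good m n l q d) {T Y : ℝ} (hT : 1 ≤ T)
    (h1 : T ^ l ≤ Y) (h2 : Y ≤ T ^ (l + 1)) :
    T ^ (q + 1) * (T * Y) ^ (m + n) ≤ T ^ (d 0) * (T * Y) ^ (d 1) := by
  have hT0 : 0 < T := by linarith
  have hY0 : 0 < Y := lt_of_lt_of_le (by positivity) h1
  have hu : T * Y ≤ T ^ (l + 2) := by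
    calc T * Y ≤ T * T ^ (l + 1) := by gcongr
      _ = T ^ (l + 2) := by ring
  have hlo : T ^ (l + 1) ≤ T * Y := by
    calc T ^ (l + 1) = T * T ^ l := by ring
      _ ≤ T * Y := by gcongr
  rcases hd with ⟨ha, hb⟩ | ⟨ha, hb⟩
  · obtain ⟨B, hB⟩ : ∃ B, B = m + n - d 1 := ⟨_, rfl⟩
    rw [← hB] at hb
    have hmn : m + n = B + d 1 := by omega
    rw [hmn, pow_add (T * Y), ← mul_assoc]
    refine mul_le_mul_of_nonneg_right ?_ (by positivity)
    calc T ^ (q + 1) * (T * Y) ^ B ≤ T ^ (q + 1) * (T ^ (l + 2)) ^ B := by gcongr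
      _ = T ^ (q + 1 + (l + 2) * B) := by rw [← pow_mul, ← pow_add]
      _ ≤ T ^ (d 0) := pow_le_pow_right₀ hT (by omega)
  · obtain ⟨b, hb'⟩ : ∃ b, b = d 1 - (m + n) := ⟨_, rfl⟩
    rw [← hb'] at hb
    have hmn : d 1 = b + (m + n) := by omega
    rw [hmn, pow_add (T * Y) b, ← mul_assoc]
    have hpp : 0 ≤ (T * Y) ^ (m + n) := by positivity
    refine mul_le_mul_of_nonneg_right ?_ hpp
    calc T ^ (q + 1) ≤ T ^ (d 0 + (l + 1) * b) := pow_le_pow_right₀ hT (by omega)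
      _ = T ^ (d 0) * (T ^ (l + 1)) ^ b := by rw [← pow_mul, ← pow_add]
      _ ≤ T ^ (d 0) * (T * Y) ^ b := by gcongr

/-- evaluation of the basic term -/
theorem eval_tm {m n q : ℕ} (Q : MvPolynomial (Fin 2) ℚ) (i : Ix m n q) {t y : ℝ} (ht : t ≠ 0)
    (hy : y ≠ 0) :
    t ^ q * (t * y) ^ (m + n) * aeval ![1 / t, 1 / (t * y)] (tm m n q Q i) =
      (t * y * aeval ![1 / t, 1 / (t * y)] Q) ^ (i.1 : ℕ) * y ^ (i.2.1 : ℕ) * t ^ (i.2.2 : ℕ) := by
  obtain ⟨j, k, r⟩ := i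
  have hj := j.2
  have hk := k.2
  have hr := r.2
  obtain ⟨p, hp⟩ : ∃ p, p = q + (k : ℕ) - (r : ℕ) := ⟨_, rfl⟩
  obtain ⟨p', hp'⟩ : ∃ p', p' = m + n - (j : ℕ) - (k : ℕ) := ⟨_, rfl⟩
  have e : aeval ![1 / t, 1 / (t * y)] (tm m n q Q (j, k, r)) =
      (1 / t) ^ p * (1 / (t * y)) ^ p' * (aeval ![1 / t, 1 / (t * y)] Q) ^ (j : ℕ) := by
    unfold tm
    rw [map_mul, map_pow, aeval_monomial, map_one, one_mul,
      Finsupp.prod_fintype _ _ (fun i => pow_zero _), Fin.prod_univ_two]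
    simp only [dd0, dd1, ← hp, ← hp']
    rfl
  rw [e]
  set v := aeval ![1 / t, 1 / (t * y)] Q
  have hty : t * y ≠ 0 := mul_ne_zero ht hy
  have h1 : m + n = p' + ((j : ℕ) + (k : ℕ)) := by omega
  have h2 : p + (r : ℕ) = q + (k : ℕ) := by omega
  have h3 : t ^ q * t ^ (k : ℕ) * (1 / t) ^ p = t ^ (r : ℕ) := by
    rw [← pow_add, ← h2, pow_add, mul_comm (t ^ p), mul_assoc, ← mul_pow, mul_one_div_cancel ht,
      one_pow, mul_one]
  have h4 : (t * y) ^ (m + n) * (1 / (t * y)) ^ p' = (t * y) ^ ((j : ℕ) + (k : ℕ)) := by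
    rw [h1, pow_add (t * y) p', mul_comm ((t * y) ^ p'), mul_assoc, ← mul_pow,
      mul_one_div_cancel hty, one_pow, mul_one]
  calc t ^ q * (t * y) ^ (m + n) * ((1 / t) ^ p * (1 / (t * y)) ^ p' * v ^ (j : ℕ))
      = t ^ q * (1 / t) ^ p * ((t * y) ^ (m + n) * (1 / (t * y)) ^ p') * v ^ (j : ℕ) := by ring
    _ = t ^ q * (1 / t) ^ p * (t * y) ^ ((j : ℕ) + (k : ℕ)) * v ^ (j : ℕ) := by rw [h4]
    _ = (t * y) ^ (j : ℕ) * v ^ (j : ℕ) * y ^ (k : ℕ) *
        (t ^ q * t ^ (k : ℕ) * (1 / t) ^ p) := by rw [pow_add, mul_pow _ _ (k : ℕ)]; ring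
    _ = _ := by rw [h3, mul_pow _ v]

/-- size of a polynomial in small arguments -/
theorem eval_le (P : MvPolynomial (Fin 2) ℚ) : ∃ M : ℝ, 0 ≤ M ∧ ∀ u s : ℝ, |u| ≤ 1 → |s| ≤ 1 →
    |aeval ![u, s] P| ≤ M := by
  refine ⟨∑ d ∈ P.support, |((coeff d P : ℚ) : ℝ)|, Finset.sum_nonneg fun _ _ => abs_nonneg _, ?_⟩
  intro u s hu hs
  rw [aeval_def, eval₂_eq']
  refine (Finset.abs_sum_le_sum_abs _ _).trans (Finset.sum_le_sum fun d _ => ?_)
  rw [abs_mul, Fin.prod_univ_two, abs_mul, abs_pow, abs_pow]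
  have h1 : |u| ^ d 0 ≤ 1 := pow_le_one₀ (abs_nonneg _) hu
  have h2 : |s| ^ d 1 ≤ 1 := pow_le_one₀ (abs_nonneg _) hs
  have h3 : |(![u, s] 0)| ^ d 0 * |(![u, s] 1)| ^ d 1 ≤ 1 := by
    show |u| ^ d 0 * |s| ^ d 1 ≤ 1
    exact mul_le_one₀ h1 (by positivity) h2
  calc |(algebraMap ℚ ℝ) (coeff d P)| * (|(![u, s] 0)| ^ d 0 * |(![u, s] 1)| ^ d 1)
      ≤ |(algebraMap ℚ ℝ) (coeff d P)| * 1 := by gcongr
    _ = _ := by rw [mul_one]; rfl

/-- the value of `L c` -/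
theorem L_small {m n l q : ℕ} {Q : MvPolynomial (Fin 2) ℚ} {c : Ix m n q → ℚ}
    (hgood : ∀ d, coeff d (L m n q Q c) ≠ 0 → Good m n l q d) :
    ∃ C1 : ℝ, 0 ≤ C1 ∧ ∀ y t : ℝ, 1 ≤ |t| → |t| ^ l ≤ |y| → |y| ≤ |t| ^ (l + 1) →
      |t ^ q * (t * y) ^ (m + n) * aeval ![1 / t, 1 / (t * y)] (L m n q Q c)| * |t| ≤ C1 := by
  refine ⟨∑ d ∈ (L m n q Q c).support, |((coeff d (L m n q Q c) : ℚ) : ℝ)|,
    Finset.sum_nonneg fun _ _ => abs_nonneg _, ?_⟩
  intro y t ht h1 h2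
  have hT0 : 0 < |t| := by linarith
  have hY0 : 0 < |y| := lt_of_lt_of_le (by positivity) h1
  have hTY : 0 < |t| * |y| := by positivity
  rw [aeval_def, eval₂_eq', Finset.mul_sum]
  refine (mul_le_mul_of_nonneg_right (Finset.abs_sum_le_sum_abs _ _) (abs_nonneg _)).trans ?_
  rw [Finset.sum_mul]
  refine Finset.sum_le_sum fun d hd => ?_
  have hg := good_bd (hgood d (mem_support_iff.mp hd)) ht h1 h2
  have e : |t ^ q * (t * y) ^ (m + n) * ((algebraMap ℚ ℝ) (coeff d (L m n q Q c)) *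
      ∏ i, ![1 / t, 1 / (t * y)] i ^ d i)| * |t| =
      |((coeff d (L m n q Q c) : ℚ) : ℝ)| *
        ((|t| ^ (q + 1) * (|t| * |y|) ^ (m + n)) / (|t| ^ (d 0) * (|t| * |y|) ^ (d 1))) := by
    rw [Fin.prod_univ_two]
    show |t ^ q * (t * y) ^ (m + n) * ((algebraMap ℚ ℝ) (coeff d (L m n q Q c)) *
      ((1 / t) ^ d 0 * (1 / (t * y)) ^ d 1))| * |t| = _
    rw [abs_mul, abs_mul, abs_mul, abs_mul, abs_pow, abs_pow, abs_pow, abs_pow, abs_mul, abs_div,
      abs_div, abs_one, abs_mul]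
    have : |(algebraMap ℚ ℝ) (coeff d (L m n q Q c))| = |((coeff d (L m n q Q c) : ℚ) : ℝ)| := rfl
    rw [this]
    simp only [one_div, inv_pow]
    field_simp
    ring
  rw [e]
  have h5 : (|t| ^ (q + 1) * (|t| * |y|) ^ (m + n)) / (|t| ^ (d 0) * (|t| * |y|) ^ (d 1)) ≤ 1 := by
    rw [div_le_one (by positivity)]
    exact hg
  calc _ ≤ |((coeff d (L m n q Q c) : ℚ) : ℝ)| * 1 := by gcongr
    _ = _ := mul_one _

/-- the exponent `(a, b, c)` -/
noncomputable def ddd (a b c : ℕ) : Fin 3 →₀ ℕ :=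
  Finsupp.single 0 a + Finsupp.single 1 b + Finsupp.single 2 c

theorem ddd0 (a b c : ℕ) : ddd a b c 0 = a := by simp [ddd]
theorem ddd1 (a b c : ℕ) : ddd a b c 1 = b := by simp [ddd]
theorem ddd2 (a b c : ℕ) : ddd a b c 2 = c := by simp [ddd]

theorem ddd_inj {m n q : ℕ} {i i' : Ix m n q}
    (h : ddd i.1 i.2.1 i.2.2 = ddd i'.1 i'.2.1 i'.2.2) : i = i' := by
  have h0 := DFunLike.congr_fun h 0
  have h1 := DFunLike.congr_fun h 1
  have h2 := DFunLike.congr_fun h 2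
  rw [ddd0, ddd0] at h0
  rw [ddd1, ddd1] at h1
  rw [ddd2, ddd2] at h2
  obtain ⟨j, k, r⟩ := i
  obtain ⟨j', k', r'⟩ := i'
  simp only [Prod.mk.injEq]
  exact ⟨Fin.ext h0, Fin.ext h1, Fin.ext h2⟩

/-- the integral polynomial -/
noncomputable def GG {m n q : ℕ} (z : Ix m n q → ℤ) : MvPolynomial (Fin 3) ℤ :=
  ∑ i, monomial (ddd i.1 i.2.1 i.2.2) (z i)

theorem GG_coeff {m n q : ℕ} (z : Ix m n q → ℤ) (i : Ix m n q) :
    coeff (ddd i.1 i.2.1 i.2.2) (GG z) = z i := by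
  classical
  unfold GG
  rw [coeff_sum, Finset.sum_eq_single i]
  · rw [coeff_monomial, if_pos rfl]
  · intro i' _ hne
    rw [coeff_monomial, if_neg]
    intro h
    exact hne (ddd_inj h)
  · intro h
    exact absurd (Finset.mem_univ _) h

theorem GG_ne {m n q : ℕ} {z : Ix m n q → ℤ} (hz : z ≠ 0) : GG z ≠ 0 := by
  intro h
  apply hz
  funext i
  rw [← GG_coeff z i, h, coeff_zero]
  rfl

theorem GG_deg {m n q : ℕ} (hm : 0 < m) (z : Ix m n q → ℤ) : (GG z).degreeOf 0 < m := by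
  classical
  rw [degreeOf_lt_iff hm]
  intro d hd
  have h1 := support_sum hd
  rw [Finset.mem_biUnion] at h1
  obtain ⟨i, -, hi⟩ := h1
  have h2 := support_monomial_subset hi
  rw [Finset.mem_singleton] at h2
  rw [h2, ddd0]
  exact i.1.2

theorem GG_eval {m n q : ℕ} (z : Ix m n q → ℤ) (x y t : ℝ) :
    aeval ![x, y, t] (GG z) =
      ∑ i : Ix m n q, (z i : ℝ) * (x ^ (i.1 : ℕ) * y ^ (i.2.1 : ℕ) * t ^ (i.2.2 : ℕ)) := by
  unfold GG
  rw [map_sum]
  refine Finset.sum_congr rfl fun i _ => ?_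
  rw [aeval_monomial, Finsupp.prod_fintype _ _ (fun i => pow_zero _), Fin.prod_univ_three,
    ddd0, ddd1, ddd2]
  rfl

theorem main : Pool.Agent.W257.S_aux := by
  intro m l hm
  obtain ⟨n, hn⟩ : ∃ n, n = 100 * m := ⟨_, rfl⟩
  obtain ⟨q, hq⟩ : ∃ q, q = (l + 1) * (100 * m) := ⟨_, rfl⟩
  obtain ⟨Ω, hΩ⟩ : ∃ Ω, Ω = (l + 2) * m + (l + 1) * n + q := ⟨_, rfl⟩
  refine ⟨Ω + 1 + (l + 1), fun Q => ?_⟩
  obtain ⟨c, hc0, hgood⟩ := exists_c m l n q hm hn hq Q
  obtain ⟨b, hb⟩ := IsLocalization.exist_integer_multiples_of_finite (nonZeroDivisors ℤ) c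
  have hb0 : (b : ℤ) ≠ 0 := nonZeroDivisors.ne_zero b.2
  choose z hz using hb
  have hz' : ∀ i, (z i : ℝ) = (b : ℤ) * (c i : ℝ) := by
    intro i
    have h1 : ((z i : ℤ) : ℚ) = (b : ℤ) * c i := by
      have := hz i
      rw [zsmul_eq_mul] at this
      exact this
    exact_mod_cast h1
  have hzne : z ≠ 0 := by
    intro h
    apply hc0
    funext i
    have h1 := hz' i
    rw [h] at h1
    have h2 : ((b : ℤ) : ℝ) * (c i : ℝ) = 0 := by rw [← h1]; simp
    rcases mul_eq_zero.mp h2 with h3 | h3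
    · exact absurd (by exact_mod_cast h3) hb0
    · show c i = 0
      exact_mod_cast h3
  refine ⟨GG z, GG_ne hzne, GG_deg (by omega) z, fun C => ?_⟩
  obtain ⟨C1, hC1, hL⟩ := L_small hgood
  obtain ⟨M, hM, hQ⟩ := eval_le Q
  obtain ⟨C2, hC2⟩ : ∃ C2 : ℝ, C2 = M + |C| + 1 := ⟨_, rfl⟩
  have hC2' : 1 ≤ C2 := by have := abs_nonneg C; linarith
  obtain ⟨Z, hZ⟩ : ∃ Z : ℝ, Z = ∑ i, |(z i : ℝ)| := ⟨_, rfl⟩
  have hZ0 : 0 ≤ Z := by rw [hZ]; exact Finset.sum_nonneg fun _ _ => abs_nonneg _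
  refine ⟨|((b : ℤ) : ℝ)| * C1 + Z * (m * C2 ^ m * |C|) + 1, fun x y t hA h1 h2 hx => ?_⟩
  have hbig : 0 ≤ |((b : ℤ) : ℝ)| * C1 + Z * (m * C2 ^ m * |C|) := by positivity
  have ht1 : 1 ≤ |t| := by linarith
  have hT0 : 0 < |t| := by linarith
  have ht : t ≠ 0 := abs_pos.mp hT0
  have hY1 : 1 ≤ |y| := (one_le_pow₀ ht1).trans h1
  have hY0 : 0 < |y| := by linarith
  have hy : y ≠ 0 := abs_pos.mp hY0
  obtain ⟨X0, hX0⟩ : ∃ X0 : ℝ, X0 = t * y * aeval ![1 / t, 1 / (t * y)] Q := ⟨_, rfl⟩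
  rw [← hX0] at hx
  -- the value at `X0`
  have hv : |aeval ![X0, y, t] (GG z)| * |t| ≤ |((b : ℤ) : ℝ)| * C1 := by
    have e : aeval ![X0, y, t] (GG z) = ((b : ℤ) : ℝ) *
        (t ^ q * (t * y) ^ (m + n) * aeval ![1 / t, 1 / (t * y)] (L m n q Q c)) := by
      rw [GG_eval, L_apply, map_sum, Finset.mul_sum, Finset.mul_sum]
      refine Finset.sum_congr rfl fun i _ => ?_
      rw [map_smul, hz' i, hX0, ← eval_tm Q i ht hy, Rat.smul_def]
      ring
    rw [e, abs_mul, mul_assoc]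
    exact mul_le_mul_of_nonneg_left (hL y t ht1 h1 h2) (abs_nonneg _)
  -- the difference
  obtain ⟨R, hR⟩ : ∃ R : ℝ, R = |x - X0| := ⟨_, rfl⟩
  have hR0 : 0 ≤ R := by rw [hR]; exact abs_nonneg _
  rw [← hR] at hx
  have hR1 : R * |t| ^ (Ω + 1) ≤ |C| := by
    have h3 : R * |t| ^ (Ω + 1) * |t| ^ (l + 1) ≤ |C| * |t| ^ (l + 1) := by
      calc R * |t| ^ (Ω + 1) * |t| ^ (l + 1) = R * |t| ^ (Ω + 1 + (l + 1)) := by
            rw [pow_add]; ring
        _ ≤ C * |y| := hx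
        _ ≤ |C| * |y| := by gcongr; exact le_abs_self C
        _ ≤ |C| * |t| ^ (l + 1) := by gcongr
    exact le_of_mul_le_mul_right h3 (by positivity)
  have hX0b : |X0| ≤ M * |t| ^ (l + 2) := by
    rw [hX0, abs_mul, abs_mul]
    have h4 : |aeval ![1 / t, 1 / (t * y)] Q| ≤ M := by
      apply hQ
      · rw [abs_div, abs_one, div_le_one hT0]; exact ht1
      · rw [abs_div, abs_one, abs_mul, div_le_one (by positivity)]
        nlinarith
    calc |t| * |y| * |aeval ![1 / t, 1 / (t * y)] Q| ≤ |t| * |t| ^ (l + 1) * M := by gcongr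
      _ = M * |t| ^ (l + 2) := by ring
  have hRb : R ≤ |C| := by
    refine le_trans ?_ hR1
    exact le_mul_of_one_le_right hR0 (one_le_pow₀ ht1)
  have hpow1 : 1 ≤ |t| ^ (l + 2) := one_le_pow₀ ht1
  have hxb : |x| ≤ (M + |C|) * |t| ^ (l + 2) := by
    have h5 : |x| ≤ |x - X0| + |X0| := by
      have := abs_add_le (x - X0) X0
      rwa [sub_add_cancel] at this
    rw [← hR] at h5
    have h6 : |C| ≤ |C| * |t| ^ (l + 2) := le_mul_of_one_le_right (abs_nonneg _) hpow1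
    linarith
  have hmax : max |x| |X0| ≤ C2 * |t| ^ (l + 2) := by
    apply max_le
    · refine hxb.trans ?_
      have : M + |C| ≤ C2 := by linarith
      gcongr
    · refine hX0b.trans ?_
      have : M ≤ C2 := by have := abs_nonneg C; linarith
      gcongr
  have hdiff : |aeval ![x, y, t] (GG z) - aeval ![X0, y, t] (GG z)| * |t| ≤
      Z * (m * C2 ^ m * |C|) := by
    rw [GG_eval, GG_eval, ← Finset.sum_sub_distrib]
    refine (mul_le_mul_of_nonneg_right (Finset.abs_sum_le_sum_abs _ _) (abs_nonneg _)).trans ?_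
    rw [hZ, Finset.sum_mul, Finset.sum_mul]
    refine Finset.sum_le_sum fun i _ => ?_
    obtain ⟨j, k, r⟩ := i
    have hj := j.2
    have hk := k.2
    have hr := r.2
    simp only
    have e : (z (j, k, r) : ℝ) * (x ^ (j : ℕ) * y ^ (k : ℕ) * t ^ (r : ℕ)) -
        (z (j, k, r) : ℝ) * (X0 ^ (j : ℕ) * y ^ (k : ℕ) * t ^ (r : ℕ)) =
        (z (j, k, r) : ℝ) * ((x ^ (j : ℕ) - X0 ^ (j : ℕ)) * y ^ (k : ℕ) * t ^ (r : ℕ)) := by ring
    rw [e, abs_mul, mul_assoc]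
    refine mul_le_mul_of_nonneg_left ?_ (abs_nonneg _)
    rw [abs_mul, abs_mul, abs_pow, abs_pow]
    have h7 := abs_pow_sub_pow_le x X0 (j : ℕ)
    rw [← hR] at h7
    have h8 : max |x| |X0| ^ ((j : ℕ) - 1) ≤ C2 ^ m * |t| ^ ((l + 2) * m) := by
      have hbase : 1 ≤ C2 * |t| ^ (l + 2) := by nlinarith
      calc max |x| |X0| ^ ((j : ℕ) - 1) ≤ (C2 * |t| ^ (l + 2)) ^ ((j : ℕ) - 1) := by
            gcongr
        _ ≤ (C2 * |t| ^ (l + 2)) ^ m := pow_le_pow_right₀ hbase (by omega)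
        _ = C2 ^ m * |t| ^ ((l + 2) * m) := by rw [mul_pow, ← pow_mul]
    have h9 : |x ^ (j : ℕ) - X0 ^ (j : ℕ)| ≤ R * m * (C2 ^ m * |t| ^ ((l + 2) * m)) := by
      refine h7.trans ?_
      have : ((j : ℕ) : ℝ) ≤ m := by exact_mod_cast hj.le
      gcongr
    have h10 : |y| ^ (k : ℕ) ≤ |t| ^ ((l + 1) * n) := by
      calc |y| ^ (k : ℕ) ≤ |y| ^ n := pow_le_pow_right₀ hY1 hk.le
        _ ≤ (|t| ^ (l + 1)) ^ n := by gcongr
        _ = _ := by rw [← pow_mul]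
    have h11 : |t| ^ (r : ℕ) ≤ |t| ^ q := pow_le_pow_right₀ ht1 hr.le
    calc |x ^ (j : ℕ) - X0 ^ (j : ℕ)| * |y| ^ (k : ℕ) * |t| ^ (r : ℕ) * |t|
        ≤ (R * m * (C2 ^ m * |t| ^ ((l + 2) * m))) * |t| ^ ((l + 1) * n) * |t| ^ q * |t| := by
          gcongr
      _ = m * C2 ^ m * (R * |t| ^ (Ω + 1)) := by
          rw [hΩ, pow_add, pow_add, pow_add, pow_one]; ring
      _ ≤ m * C2 ^ m * |C| := by gcongr
  have hfin : |aeval ![x, y, t] (GG z)| * |t| < |t| := by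
    have h12 : |aeval ![x, y, t] (GG z)| ≤ |aeval ![x, y, t] (GG z) - aeval ![X0, y, t] (GG z)| +
        |aeval ![X0, y, t] (GG z)| := by
      have := abs_add_le (aeval ![x, y, t] (GG z) - aeval ![X0, y, t] (GG z))
        (aeval ![X0, y, t] (GG z))
      rwa [sub_add_cancel] at this
    have h13 := mul_le_mul_of_nonneg_right h12 hT0.le
    rw [add_mul] at h13
    linarith
  by_contra hcon
  push Not at hcon
  have : |t| ≤ |aeval ![x, y, t] (GG z)| * |t| := le_mul_of_one_le_left hT0.le hcon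
  linarith

end Pool.Agent.W397.LV2
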