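import Pool.Agent.W894.HT.Ex

/-!
HT-XMAT: the tournament of a square matrix.
-/

set_option autoImplicit false

namespace Pool.Agent.W397.HTX

open Pool.Agent.W894.HT

theorem Fb_symm (n M : ℕ) (G : ℕ → ℕ → Bool) (p q : ℕ) : Fb n M G p q = Fb n M G q p := by
  unfold Fb
  rw [Bool.or_comm]

/-- the entries -/
def TT (n M : ℕ) (G : ℕ → ℕ → Bool) (i j : ℕ) : Bool :=
  if i < j then !Fb n M G (i + 1) (j + 1) else if j < i then Fb n M G (i + 1) (j + 1) else false

theorem len (B : List (List Bool)) : (tmX B).length = 2 * B.length + MX B.length := by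
  simp [tmX]

theorem en_tmX (B : List (List Bool)) {i j : ℕ} (hi : i < 2 * B.length + MX B.length)
    (hj : j < 2 * B.length + MX B.length) :
    en (tmX B) i j = TT B.length (MX B.length) (en B) i j := by
  unfold tmX TT
  generalize en B = E
  unfold en
  simp [List.getD_eq_getElem?_getD, hi, hj]

theorem tour (B : List (List Bool)) : IsTour (tmX B) := by
  refine ⟨?_, ?_⟩
  · intro r hr
    rw [len]
    unfold tmX at hr
    rw [List.mem_map] at hr
    obtain ⟨i, _, rfl⟩ := hr
    simp
  · intro i hi
    rw [len] at hi
    refine ⟨?_, ?_⟩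
    · rw [en_tmX B hi hi]
      simp [TT]
    · intro j hj hij
      rw [len] at hj
      rw [en_tmX B hi hj, en_tmX B hj hi]
      unfold TT
      rcases lt_or_gt_of_ne hij with h | h
      · rw [if_pos h, if_neg (not_lt.2 h.le), if_pos h, Fb_symm]
      · rw [if_neg (not_lt.2 h.le), if_pos h, if_pos h, Bool.not_not, Fb_symm]

theorem chain_congr {α : Type} {R S : α → α → Prop} (l : List α)
    (h : ∀ a ∈ l, ∀ b ∈ l, (R a b ↔ S a b)) : l.IsChain R ↔ l.IsChain S := by
  induction l with
  | nil => simp
  | cons a l ih =>
    cases l with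
    | nil => simp
    | cons b l =>
      rw [List.isChain_cons_cons, List.isChain_cons_cons, h a (by simp) b (by simp),
        ih fun x hx y hy => h x (List.mem_cons_of_mem _ hx) y (List.mem_cons_of_mem _ hy)]

theorem arc_iff (B : List (List Bool)) {i j : ℕ} (hi : i < 2 * B.length + MX B.length)
    (hj : j < 2 * B.length + MX B.length) :
    en (tmX B) i j = true ↔ arc (Fb B.length (MX B.length) (en B)) (1 + i) (1 + j) := by
  rw [en_tmX B hi hj, add_comm 1 i, add_comm 1 j]
  unfold TT arc
  rcases lt_trichotomy i j with h | h | h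
  · rw [if_pos h]
    constructor
    · intro h1
      left
      refine ⟨by omega, ?_⟩
      simpa using h1
    · rintro (⟨_, h1⟩ | ⟨h1, _⟩)
      · simpa using h1
      · omega
  · subst h
    simp
  · rw [if_neg (not_lt.2 h.le), if_pos h]
    constructor
    · intro h1
      right
      exact ⟨by omega, h1⟩
    · rintro (⟨h1, _⟩ | ⟨_, h1⟩)
      · omega
      · exact h1

theorem chain_iff (B : List (List Bool)) (l : List ℕ)
    (hl : l.Perm (List.range (2 * B.length + MX B.length))) :
    (l.IsChain fun i j => en (tmX B) i j = true) ↔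
      (l.map (1 + ·)).IsChain (arc (Fb B.length (MX B.length) (en B))) := by
  rw [List.isChain_map]
  refine chain_congr l fun a ha b hb => ?_
  exact arc_iff B (List.mem_range.1 (hl.mem_iff.1 ha)) (List.mem_range.1 (hl.mem_iff.1 hb))

theorem count (B : List (List Bool)) : numHP (tmX B) = Nat.card {l : List ℕ //
    l.Perm (List.range' 1 (2 * B.length + MX B.length)) ∧
      l.IsChain (arc (Fb B.length (MX B.length) (en B)))} := by
  unfold numHP
  rw [len]
  have hrange : List.range' 1 (2 * B.length + MX B.length) =
      (List.range (2 * B.length + MX B.length)).map (1 + ·) := List.range'_eq_map_range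
  refine Nat.card_congr (Equiv.ofBijective (fun x => ⟨x.1.map (1 + ·), ?_, ?_⟩) ⟨?_, ?_⟩)
  · rw [hrange]
    exact x.2.1.map _
  · exact (chain_iff B x.1 x.2.1).1 x.2.2
  · intro x y hxy
    have h1 : x.1.map (1 + ·) = y.1.map (1 + ·) := congrArg Subtype.val hxy
    apply Subtype.ext
    exact List.map_injective_iff.2 (add_right_injective 1) h1
  · rintro ⟨l, hl1, hl2⟩
    have h1 : (l.map (· - 1)).Perm (List.range (2 * B.length + MX B.length)) := by
      rw [hrange] at hl1
      have h2 := hl1.map (· - 1)
      rw [List.map_map] at h2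
      have h3 : ((fun x : ℕ => x - 1) ∘ fun x => 1 + x) = id := by
        funext x
        simp
      rw [h3, List.map_id] at h2
      exact h2
    have h4 : (l.map (· - 1)).map (1 + ·) = l := by
      rw [List.map_map]
      conv_rhs => rw [← List.map_id l]
      refine List.map_congr_left fun x hx => ?_
      have h5 := hl1.mem_iff.1 hx
      rw [List.mem_range'_1] at h5
      show 1 + (x - 1) = x
      omega
    refine ⟨⟨l.map (· - 1), h1, ?_⟩, ?_⟩
    · rw [chain_iff B _ h1, h4]
      exact hl2
    · apply Subtype.ext
      exact h4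

theorem main : S_XMAT := fun B => ⟨tour B, count B⟩

end Pool.Agent.W397.HTX
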