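import Pool.Agent.W246.LG.Defs

/-!
Project LG, task FINAL: the analytic half (choice of the constants and of the translation `v`).
Basic facts.
-/

set_option autoImplicit false

namespace Pool.Agent.W397.LGFinal

open Finset Pool.Agent.W246.LG


section box
variable {G ι : Type} [AddCommGroup G]

lemma box_mono {Q : Finset ι} {d : ι → G} {H H' : ι → ℕ} (h : ∀ q ∈ Q, H q ≤ H' q) :
    Box Q d H ⊆ Box Q d H' := by
  rintro g ⟨m, hm, rfl⟩
  exact ⟨m, fun q hq => (hm q hq).trans (by exact_mod_cast h q hq), rfl⟩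

lemma box_sub {Q : Finset ι} {d : ι → G} {H H' H'' : ι → ℕ}
    (h : ∀ q ∈ Q, H q + H' q ≤ H'' q) {g g' : G} (hg : g ∈ Box Q d H) (hg' : g' ∈ Box Q d H') :
    g - g' ∈ Box Q d H'' := by
  obtain ⟨m, hm, rfl⟩ := hg
  obtain ⟨m', hm', rfl⟩ := hg'
  refine ⟨fun q => m q - m' q, fun q hq => ?_, by simp [sub_smul, Finset.sum_sub_distrib]⟩
  have h1 : ((H q : ℤ) + H' q) ≤ H'' q := by exact_mod_cast h q hq
  calc |m q - m' q| ≤ |m q| + |m' q| := abs_sub _ _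
    _ ≤ H q + H' q := add_le_add (hm q hq) (hm' q hq)
    _ ≤ _ := h1

lemma dep_mono {B B' : Finset G} (hB : B' ⊆ B) {y : G → G} {o : G → ℕ} {h : ℕ} {T T' : Set G}
    (hT : T ⊆ T') (F : Finset G) : dep B' y o h T F ⊆ dep B y o h T' F := by
  intro x hx
  simp only [dep, Finset.mem_filter] at hx ⊢
  obtain ⟨hx1, m, hm1, hm2, hm3⟩ := hx
  exact ⟨hB hx1, m, hm1, hT hm2, hm3⟩

end box

lemma const_m (L : ℝ) (hL : 1 ≤ L) :
    ∃ m : ℕ, 1 ≤ m ∧
      (1 / 2 : ℝ) ^ m ≤ (1 / 32) * Real.exp (-2 * (8 * (4 * Real.sqrt m * (16 * (L + 1))))) := by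
  obtain ⟨t, ht⟩ : ∃ t : ℕ, 2048 * (L + 1) + 10 ≤ (t : ℝ) := exists_nat_ge _
  have ht10 : (10 : ℝ) ≤ t := by nlinarith
  refine ⟨t ^ 2, ?_, ?_⟩
  · have : (10 : ℕ) ≤ t := by exact_mod_cast ht10
    exact Nat.one_le_iff_ne_zero.2 (by positivity)
  have hs : Real.sqrt ((t ^ 2 : ℕ) : ℝ) = t := by
    push_cast
    exact Real.sqrt_sq (by positivity)
  rw [hs]
  have h1 : (1 / 2 : ℝ) ^ (t ^ 2) ≤ Real.exp (-((t : ℝ) ^ 2 / 2)) := by
    have h2 : (1 / 2 : ℝ) ≤ Real.exp (-(1 / 2 : ℝ)) := by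
      have := Real.add_one_le_exp (-(1 / 2 : ℝ))
      linarith
    calc (1 / 2 : ℝ) ^ (t ^ 2) ≤ (Real.exp (-(1 / 2 : ℝ))) ^ (t ^ 2) :=
          pow_le_pow_left₀ (by norm_num) h2 _
      _ = Real.exp (-((t : ℝ) ^ 2 / 2)) := by
          rw [← Real.exp_nat_mul]
          push_cast
          congr 1
          ring
  have h3 : Real.exp (-5 : ℝ) ≤ 1 / 32 := by
    have h4 : (32 : ℝ) ≤ Real.exp 5 := by
      have h5 : (2 : ℝ) ≤ Real.exp 1 := by
        have := Real.add_one_le_exp (1 : ℝ)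
        linarith
      calc (32 : ℝ) = 2 ^ 5 := by norm_num
        _ ≤ (Real.exp 1) ^ 5 := pow_le_pow_left₀ (by norm_num) h5 _
        _ = Real.exp 5 := by
            rw [← Real.exp_nat_mul]
            norm_num
    rw [Real.exp_neg, ← one_div]
    exact one_div_le_one_div_of_le (by norm_num) h4
  have h6 : Real.exp (-((t : ℝ) ^ 2 / 2)) ≤
      Real.exp (-5) * Real.exp (-2 * (8 * (4 * (t : ℝ) * (16 * (L + 1))))) := by
    rw [← Real.exp_add]
    apply Real.exp_le_exp.2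
    nlinarith
  exact h1.trans (h6.trans (mul_le_mul_of_nonneg_right h3 (Real.exp_pos _).le))

lemma const_R (W ε : ℝ) (hε : 0 < ε) :
    ∃ R : ℕ, Odd R ∧ W ^ (R + 1) / (R + 1).factorial ≤ ε := by
  have h := FloorSemiring.tendsto_pow_div_factorial_atTop W
  have h2 := h.eventually (gt_mem_nhds hε)
  obtain ⟨n0, hn0⟩ := Filter.eventually_atTop.1 h2
  exact ⟨2 * n0 + 1, ⟨n0, rfl⟩, (hn0 _ (by omega)).le⟩

lemma prod_one_sub_ge {α : Type} (U : Finset α) (f : α → ℝ) (hf : ∀ b ∈ U, 0 ≤ f b ∧ f b ≤ 1) :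
    1 - ∑ b ∈ U, f b ≤ ∏ b ∈ U, (1 - f b) := by
  classical
  induction U using Finset.induction_on with
  | empty => simp
  | insert b U hb ih =>
    rw [Finset.sum_insert hb, Finset.prod_insert hb]
    have h1 := ih (fun c hc => hf c (Finset.mem_insert_of_mem hc))
    have h2 := hf b (Finset.mem_insert_self _ _)
    have h3 : 0 ≤ ∑ c ∈ U, f c :=
      Finset.sum_nonneg (fun c hc => (hf c (Finset.mem_insert_of_mem hc)).1)
    nlinarith

lemma prod_mem01 {α : Type} (U : Finset α) (f : α → ℝ) (hf : ∀ b ∈ U, 0 ≤ f b ∧ f b ≤ 1) :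
    0 ≤ ∏ b ∈ U, (1 - f b) ∧ ∏ b ∈ U, (1 - f b) ≤ 1 := by
  constructor
  · exact Finset.prod_nonneg (fun b hb => by linarith [(hf b hb).2])
  · exact Finset.prod_le_one (fun b hb => by linarith [(hf b hb).2])
      (fun b hb => by linarith [(hf b hb).1])

lemma prod_le_factor {α : Type} (U : Finset α) (f : α → ℝ) (hf : ∀ b ∈ U, 0 ≤ f b ∧ f b ≤ 1)
    (b : α) (hb : b ∈ U) : ∏ b ∈ U, (1 - f b) ≤ 1 - f b := by
  classical
  rw [← Finset.mul_prod_erase U _ hb]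
  have h1 := prod_mem01 (U.erase b) f (fun c hc => hf c (Finset.mem_of_mem_erase hc))
  have h2 := hf b hb
  nlinarith

/-- choice of `v` -/
lemma exists_v (p : ℕ) [NeZero p] (X1 X2 X3 : ZMod p → ℝ) (A1 A2 A3 : ℝ)
    (hA1 : 0 < A1) (hA2 : 0 < A2) (hA3 : 0 < A3)
    (h1 : ∀ v, 0 ≤ X1 v) (h2 : ∀ v, 0 ≤ X2 v) (h3 : ∀ v, 0 ≤ X3 v)
    (s1 : ∑ v, X1 v ≤ p * A1) (s2 : ∑ v, X2 v ≤ p * A2) (s3 : ∑ v, X3 v ≤ p * A3)
    (Bad : Finset (ZMod p)) (hb : (Bad.card : ℝ) ≤ p / 8) :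
    ∃ v, v ∉ Bad ∧ X1 v ≤ 8 * A1 ∧ X2 v ≤ 8 * A2 ∧ X3 v ≤ 8 * A3 := by
  classical
  by_contra hcon
  push Not at hcon
  have hp : (0 : ℝ) < p := by exact_mod_cast Nat.pos_of_ne_zero (NeZero.ne p)
  have key : ∀ v : ZMod p, (1 : ℝ) ≤ X1 v / (8 * A1) + X2 v / (8 * A2) + X3 v / (8 * A3) +
      (if v ∈ Bad then 1 else 0) := by
    intro v
    have a1 : 0 ≤ X1 v / (8 * A1) := div_nonneg (h1 v) (by positivity)
    have a2 : 0 ≤ X2 v / (8 * A2) := div_nonneg (h2 v) (by positivity)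
    have a3 : 0 ≤ X3 v / (8 * A3) := div_nonneg (h3 v) (by positivity)
    by_cases hv : v ∈ Bad
    · rw [if_pos hv]
      linarith
    rw [if_neg hv]
    by_cases b1 : X1 v ≤ 8 * A1
    · by_cases b2 : X2 v ≤ 8 * A2
      · have b3 := hcon v hv b1 b2
        have : 1 ≤ X3 v / (8 * A3) := (one_le_div (by positivity)).2 b3.le
        linarith
      · push Not at b2
        have : 1 ≤ X2 v / (8 * A2) := (one_le_div (by positivity)).2 b2.le
        linarith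
    · push Not at b1
      have : 1 ≤ X1 v / (8 * A1) := (one_le_div (by positivity)).2 b1.le
      linarith
  have hs : (p : ℝ) ≤ ∑ v : ZMod p, (X1 v / (8 * A1) + X2 v / (8 * A2) + X3 v / (8 * A3) +
      (if v ∈ Bad then 1 else 0)) := by
    calc (p : ℝ) = ∑ v : ZMod p, (1 : ℝ) := by simp [ZMod.card]
      _ ≤ _ := Finset.sum_le_sum (fun v _ => key v)
  rw [Finset.sum_add_distrib, Finset.sum_add_distrib, Finset.sum_add_distrib,
    ← Finset.sum_div, ← Finset.sum_div, ← Finset.sum_div] at hs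
  have e1 : (∑ v, X1 v) / (8 * A1) ≤ p / 8 := by
    rw [div_le_iff₀ (by positivity)]
    calc _ ≤ _ := s1
      _ = _ := by ring
  have e2 : (∑ v, X2 v) / (8 * A2) ≤ p / 8 := by
    rw [div_le_iff₀ (by positivity)]
    calc _ ≤ _ := s2
      _ = _ := by ring
  have e3 : (∑ v, X3 v) / (8 * A3) ≤ p / 8 := by
    rw [div_le_iff₀ (by positivity)]
    calc _ ≤ _ := s3
      _ = _ := by ring
  have e4 : ∑ v : ZMod p, (if v ∈ Bad then (1 : ℝ) else 0) ≤ p / 8 := by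
    rw [Finset.sum_ite_mem, Finset.univ_inter]
    simpa using hb
  linarith

section tpfacts

variable {p h : ℕ} [Fact p.Prime] {a : ℤ → ℝ}

lemma intCast_eq_zero_of (hh : h < p) {j : ℤ} (hj : j ∈ Icc (-(h : ℤ)) (h : ℤ)) :
    ((j : ZMod p) = 0) ↔ j = 0 := by
  rw [ZMod.intCast_zmod_eq_zero_iff_dvd]
  constructor
  · intro hd
    rw [Finset.mem_Icc] at hj
    refine Int.eq_zero_of_abs_lt_dvd hd ?_
    rw [abs_lt]
    constructor <;> omega
  · rintro rfl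
    simp

lemma sum_tp (hh : h < p)
    (htp : ∀ (o : ℕ) (x : ZMod p), (tp p h a o x : ℂ) =
      ∑ j ∈ (Icc (-(h : ℤ)) (h : ℤ)).filter (fun j => (o : ℤ) ∣ j),
      (a j : ℂ) * ZMod.stdAddChar (j • x)) (o : ℕ) :
    ∑ v : ZMod p, tp p h a o v = p * a 0 := by
  apply Complex.ofReal_injective
  push_cast
  simp_rw [htp]
  rw [Finset.sum_comm]
  have h1 : ∀ j ∈ (Icc (-(h : ℤ)) (h : ℤ)).filter (fun j => (o : ℤ) ∣ j),
      ∑ v : ZMod p, (a j : ℂ) * ZMod.stdAddChar (j • v) =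
        if j = 0 then (p : ℂ) * a 0 else 0 := by
    intro j hj
    rw [← Finset.mul_sum]
    have h2 : ∀ v : ZMod p, (ZMod.stdAddChar (j • v) : ℂ) = ZMod.stdAddChar (v * (j : ZMod p)) := by
      intro v
      rw [zsmul_eq_mul, mul_comm]
    simp_rw [h2]
    rw [AddChar.sum_mulShift _ (ZMod.isPrimitive_stdAddChar p)]
    have h3 := intCast_eq_zero_of hh (Finset.mem_filter.1 hj).1
    by_cases hj0 : j = 0
    · subst hj0
      simp [ZMod.card, mul_comm]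
    · rw [if_neg (fun hc => hj0 (h3.1 hc)), if_neg hj0]
      simp
  rw [Finset.sum_congr rfl h1]
  rw [Finset.sum_ite_eq']
  rw [if_pos]
  simp

lemma sum_tp_sub (hh : h < p)
    (htp : ∀ (o : ℕ) (x : ZMod p), (tp p h a o x : ℂ) =
      ∑ j ∈ (Icc (-(h : ℤ)) (h : ℤ)).filter (fun j => (o : ℤ) ∣ j),
      (a j : ℂ) * ZMod.stdAddChar (j • x)) (o : ℕ) (g : ZMod p) :
    ∑ v : ZMod p, tp p h a o (g - v) = p * a 0 := by
  rw [← sum_tp hh htp o]
  exact Equiv.sum_comp (Equiv.subLeft g) (fun v => tp p h a o v)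

lemma sum_tp_neg (hh : h < p)
    (htp : ∀ (o : ℕ) (x : ZMod p), (tp p h a o x : ℂ) =
      ∑ j ∈ (Icc (-(h : ℤ)) (h : ℤ)).filter (fun j => (o : ℤ) ∣ j),
      (a j : ℂ) * ZMod.stdAddChar (j • x)) (o : ℕ) :
    ∑ v : ZMod p, tp p h a o (-v) = p * a 0 := by
  rw [← sum_tp hh htp o]
  exact Equiv.sum_comp (Equiv.neg _) (fun v => tp p h a o v)

/-- number of multiples -/
lemma card_mult (o : ℕ) (ho : 1 ≤ o) :
    ((((Icc (-(h : ℤ)) (h : ℤ)).filter (fun j => (o : ℤ) ∣ j)).card : ℕ) : ℝ) ≤ 2 * h / o + 1 := by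
  have h1 : (Icc (-(h : ℤ)) (h : ℤ)).filter (fun j => (o : ℤ) ∣ j) ⊆
      (Icc (-((h / o : ℕ) : ℤ)) ((h / o : ℕ) : ℤ)).image (fun i => (o : ℤ) * i) := by
    intro j hj
    rw [Finset.mem_filter, Finset.mem_Icc] at hj
    obtain ⟨⟨hj1, hj2⟩, i, rfl⟩ := hj
    rw [Finset.mem_image]
    refine ⟨i, ?_, rfl⟩
    have ho' : (0 : ℤ) < o := by exact_mod_cast ho
    rw [Finset.mem_Icc]
    push_cast
    constructor
    · have : -i ≤ (h : ℤ) / o := by
        rw [Int.le_ediv_iff_mul_le ho']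
        nlinarith
      linarith
    · rw [Int.le_ediv_iff_mul_le ho']
      nlinarith
  have h2 := (Finset.card_le_card h1).trans Finset.card_image_le
  rw [Int.card_Icc] at h2
  have h3 : (((h / o : ℕ) : ℤ) + 1 - -((h / o : ℕ) : ℤ)).toNat = 2 * (h / o) + 1 := by omega
  rw [h3] at h2
  have h4 : ((h / o : ℕ) : ℝ) ≤ h / o := Nat.cast_div_le
  have h5 : ((((Icc (-(h : ℤ)) (h : ℤ)).filter (fun j => (o : ℤ) ∣ j)).card : ℕ) : ℝ) ≤
      ((2 * (h / o) + 1 : ℕ) : ℝ) := by exact_mod_cast h2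
  push_cast at h5
  calc _ ≤ _ := h5
    _ ≤ 2 * ((h : ℝ) / o) + 1 := by linarith
    _ = _ := by ring

lemma abs_tp_le (ha : ∀ j : ℤ, |a j| ≤ a 0) 
    (htp : ∀ (o : ℕ) (x : ZMod p), (tp p h a o x : ℂ) =
      ∑ j ∈ (Icc (-(h : ℤ)) (h : ℤ)).filter (fun j => (o : ℤ) ∣ j),
      (a j : ℂ) * ZMod.stdAddChar (j • x)) (o : ℕ) (x : ZMod p) :
    tp p h a o x ≤ a 0 * ((Icc (-(h : ℤ)) (h : ℤ)).filter (fun j => (o : ℤ) ∣ j)).card := by
  have h1 : |tp p h a o x| ≤ a 0 * ((Icc (-(h : ℤ)) (h : ℤ)).filter (fun j => (o : ℤ) ∣ j)).card := by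
    have h2 : |tp p h a o x| = ‖(tp p h a o x : ℂ)‖ := by
      rw [Complex.norm_real, Real.norm_eq_abs]
    rw [h2, htp]
    refine (norm_sum_le _ _).trans ?_
    rw [mul_comm, ← nsmul_eq_mul]
    refine Finset.sum_le_card_nsmul _ _ _ (fun j _ => ?_)
    rw [norm_mul, AddChar.norm_apply, mul_one, Complex.norm_real, Real.norm_eq_abs]
    exact ha j
  exact (le_abs_self _).trans h1

lemma tp_le_of_lt (ha : ∀ j : ℤ, |a j| ≤ a 0) 
    (htp : ∀ (o : ℕ) (x : ZMod p), (tp p h a o x : ℂ) =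
      ∑ j ∈ (Icc (-(h : ℤ)) (h : ℤ)).filter (fun j => (o : ℤ) ∣ j),
      (a j : ℂ) * ZMod.stdAddChar (j • x)) (htp0 : ∀ x : ZMod p, tp p h a 0 x = a 0)
    (o : ℕ) (Z : ℝ) (hZ : 0 < Z) (ho : o = 0 ∨ Z ≤ o) (x : ZMod p) :
    tp p h a o x ≤ a 0 * (2 * h / Z + 1) := by
  have ha0 : 0 ≤ a 0 := (abs_nonneg _).trans (ha 0)
  have hnn : (0 : ℝ) ≤ 2 * h / Z := by positivity
  rcases ho with rfl | ho
  · rw [htp0]
    nlinarith
  · have ho0 : (0 : ℝ) < o := lt_of_lt_of_le hZ ho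
    have ho1 : 1 ≤ o := by
      have : 0 < o := by exact_mod_cast ho0
      exact this
    refine (abs_tp_le ha htp o x).trans (mul_le_mul_of_nonneg_left ?_ ha0)
    refine (card_mult o ho1).trans ?_
    have : 2 * (h : ℝ) / o ≤ 2 * h / Z := div_le_div_of_nonneg_left (by positivity) hZ ho
    linarith

/-- expectation for elements of small order -/
lemma exp_small (w : ZMod p → ℝ) (ha : ∀ j : ℤ, |a j| ≤ a 0) 
    (htp : ∀ (o : ℕ) (x : ZMod p), (tp p h a o x : ℂ) =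
      ∑ j ∈ (Icc (-(h : ℤ)) (h : ℤ)).filter (fun j => (o : ℤ) ∣ j),
      (a j : ℂ) * ZMod.stdAddChar (j • x)) (hw : ∀ c, 0 ≤ w c) (hw1 : ∑ c, w c = 1)
    (o : ℕ) (y v : ZMod p) (η : ℝ) (hη : 0 ≤ η)
    (h0 : ∀ j : ℤ, |j| ≤ (h : ℤ) → ¬ (o : ℤ) ∣ j →
      ∑ c, (w c : ℂ) * ZMod.stdAddChar (c * (j • y)) = 0)
    (h1 : ∀ j : ℤ, |j| ≤ (h : ℤ) → (o : ℤ) ∣ j →
      ∑ c, w c * ‖(ZMod.stdAddChar (c * (j • y)) : ℂ) - 1‖ ≤ η) :
    ∑ c, w c * tp p h a 1 (c * y - v) ≤ tp p h a o (-v) + (2 * h + 1) * a 0 * η := by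
  have ha0 : 0 ≤ a 0 := (abs_nonneg _).trans (ha 0)
  have hw1' : ∑ c, (w c : ℂ) = 1 := by exact_mod_cast hw1
  set D : ℝ := ∑ c, w c * tp p h a 1 (c * y - v) - tp p h a o (-v) with hD
  suffices hs : |D| ≤ (2 * h + 1) * a 0 * η by
    have := le_abs_self D
    linarith
  have hDn : |D| = ‖(D : ℂ)‖ := by
    rw [Complex.norm_real, Real.norm_eq_abs]
  rw [hDn, hD]
  push_cast
  have e1 : ∑ c, (w c : ℂ) * (tp p h a 1 (c * y - v) : ℂ) =
      ∑ j ∈ Icc (-(h : ℤ)) (h : ℤ), (a j : ℂ) * ZMod.stdAddChar (j • (-v)) *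
        ∑ c, (w c : ℂ) * ZMod.stdAddChar (c * (j • y)) := by
    simp_rw [htp, Finset.mul_sum]
    rw [Finset.sum_comm]
    have hf : (Icc (-(h : ℤ)) (h : ℤ)).filter (fun j => ((1 : ℕ) : ℤ) ∣ j) =
        Icc (-(h : ℤ)) (h : ℤ) := by
      apply Finset.filter_true_of_mem
      intro j _
      simp
    rw [hf]
    refine Finset.sum_congr rfl (fun j _ => Finset.sum_congr rfl (fun c _ => ?_))
    have : j • (c * y - v) = j • (-v) + c * (j • y) := by
      simp only [zsmul_eq_mul]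
      ring
    rw [this, AddChar.map_add_eq_mul]
    ring
  rw [e1, htp]
  have e2 : ∑ j ∈ Icc (-(h : ℤ)) (h : ℤ), (a j : ℂ) * ZMod.stdAddChar (j • (-v)) *
        ∑ c, (w c : ℂ) * ZMod.stdAddChar (c * (j • y)) =
      ∑ j ∈ (Icc (-(h : ℤ)) (h : ℤ)).filter (fun j => (o : ℤ) ∣ j),
        (a j : ℂ) * ZMod.stdAddChar (j • (-v)) *
        ∑ c, (w c : ℂ) * ZMod.stdAddChar (c * (j • y)) := by
    rw [Finset.sum_filter]
    refine Finset.sum_congr rfl (fun j hj => ?_)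
    by_cases hoj : (o : ℤ) ∣ j
    · rw [if_pos hoj]
    · rw [if_neg hoj, h0 j (abs_le.2 (Finset.mem_Icc.1 hj)) hoj, mul_zero]
  rw [e2, ← Finset.sum_sub_distrib]
  refine (norm_sum_le _ _).trans ?_
  have e3 : ∀ j ∈ (Icc (-(h : ℤ)) (h : ℤ)).filter (fun j => (o : ℤ) ∣ j),
      ‖(a j : ℂ) * ZMod.stdAddChar (j • (-v)) *
        ∑ c, (w c : ℂ) * ZMod.stdAddChar (c * (j • y)) - (a j : ℂ) * ZMod.stdAddChar (j • (-v))‖ ≤
        a 0 * η := by
    intro j hj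
    rw [Finset.mem_filter] at hj
    have hj1 : |j| ≤ (h : ℤ) := abs_le.2 (Finset.mem_Icc.1 hj.1)
    have : (a j : ℂ) * ZMod.stdAddChar (j • (-v)) *
        ∑ c, (w c : ℂ) * ZMod.stdAddChar (c * (j • y)) - (a j : ℂ) * ZMod.stdAddChar (j • (-v)) =
        (a j : ℂ) * ZMod.stdAddChar (j • (-v)) *
          ∑ c, (w c : ℂ) * (ZMod.stdAddChar (c * (j • y)) - 1) := by
      simp_rw [mul_sub, mul_one, Finset.sum_sub_distrib, hw1']
      ring
    rw [this, norm_mul, norm_mul, AddChar.norm_apply, mul_one, Complex.norm_real,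
      Real.norm_eq_abs]
    refine mul_le_mul (ha j) ?_ (norm_nonneg _) ha0
    refine (norm_sum_le _ _).trans ?_
    calc ∑ c, ‖(w c : ℂ) * (ZMod.stdAddChar (c * (j • y)) - 1)‖ =
        ∑ c, w c * ‖(ZMod.stdAddChar (c * (j • y)) : ℂ) - 1‖ := by
          refine Finset.sum_congr rfl (fun c _ => ?_)
          rw [norm_mul, Complex.norm_real, Real.norm_eq_abs, abs_of_nonneg (hw c)]
      _ ≤ η := h1 j hj1 hj.2
  refine (Finset.sum_le_card_nsmul _ _ _ e3).trans ?_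
  rw [nsmul_eq_mul]
  have hc : ((((Icc (-(h : ℤ)) (h : ℤ)).filter (fun j => (o : ℤ) ∣ j)).card : ℕ) : ℝ) ≤
      2 * h + 1 := by
    have : ((Icc (-(h : ℤ)) (h : ℤ)).filter (fun j => (o : ℤ) ∣ j)).card ≤ 2 * h + 1 := by
      refine (Finset.card_filter_le _ _).trans ?_
      rw [Int.card_Icc]
      omega
    exact_mod_cast this
  calc _ ≤ (2 * (h : ℝ) + 1) * (a 0 * η) := mul_le_mul_of_nonneg_right hc (by positivity)
    _ = _ := by ring

end tpfacts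

lemma chi_int {chi : ℝ → ℝ} (hper : ∀ t, chi (t + 1) = chi t) (t : ℝ) (l : ℤ) :
    chi (t + l) = chi t := by
  have hp : Function.Periodic chi 1 := hper
  have := (hp.int_mul l) t
  simpa using this

/-- large values of `chi` occur only near the integers -/
lemma near_int {chi : ℝ → ℝ} (hper : ∀ t, chi (t + 1) = chi t) (m n : ℕ) (hn : 1 ≤ n)
    (hdec : ∀ t : ℝ, t ≠ 0 → |t| ≤ 1 / 2 → chi t ≤ m / (4 * n ^ 2 * t ^ 2))
    (ρ : ℝ) (hρ : 0 < ρ) (t : ℝ) (ht : m / (4 * (n : ℝ) ^ 2 * ρ ^ 2) < chi t) :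
    |t - round t| < ρ := by
  by_contra hcon
  push Not at hcon
  have h1 : chi (t - round t) = chi t := by
    have := chi_int hper t (-(round t))
    push_cast at this
    rw [← sub_eq_add_neg] at this
    exact this
  have hne : t - round t ≠ 0 := by
    intro h0
    rw [h0, abs_zero] at hcon
    linarith
  have h2 := hdec (t - round t) hne (abs_sub_round t)
  rw [h1] at h2
  have hn0 : (0 : ℝ) < n := by exact_mod_cast hn
  have h3 : (m : ℝ) / (4 * n ^ 2 * (t - round t) ^ 2) ≤ m / (4 * (n : ℝ) ^ 2 * ρ ^ 2) := by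
    apply div_le_div_of_nonneg_left (by positivity) (by positivity)
    apply mul_le_mul_of_nonneg_left _ (by positivity)
    rw [← sq_abs (t - round t)]
    exact pow_le_pow_left₀ hρ.le hcon 2
  linarith

/-- counting -/
lemma count_near {p : ℕ} [Fact p.Prime] (ρ : ℝ) (hρ : 0 < ρ) (θ : ℝ) (l : ℤ) :
    ((univ.filter (fun v : ZMod p => |(v.val : ℝ) / p + θ - l| < ρ)).card : ℝ) ≤ 2 * ρ * p + 1 := by
  have hp0 : (0 : ℝ) < p := by exact_mod_cast (Fact.out : p.Prime).pos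
  set S := univ.filter (fun v : ZMod p => |(v.val : ℝ) / p + θ - l| < ρ) with hS
  set A : ℝ := (l - θ - ρ) * p with hA
  set B : ℝ := (l - θ + ρ) * p with hB
  have hinj : Set.InjOn (fun v : ZMod p => (v.val : ℤ)) S := by
    intro v _ v' _ hvv
    have h0 : (v.val : ℤ) = (v'.val : ℤ) := hvv
    have : v.val = v'.val := by exact_mod_cast h0
    exact ZMod.val_injective p this
  have hmap : S.image (fun v : ZMod p => (v.val : ℤ)) ⊆ Icc ⌈A⌉ ⌊B⌋ := by
    intro j hj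
    rw [Finset.mem_image] at hj
    obtain ⟨v, hv, rfl⟩ := hj
    rw [hS, Finset.mem_filter] at hv
    have hv2 := abs_lt.1 hv.2
    have e : (v.val : ℝ) = (v.val : ℝ) / p * p := by field_simp
    rw [Finset.mem_Icc]
    constructor
    · rw [Int.ceil_le]
      push_cast
      rw [e, hA]
      apply mul_le_mul_of_nonneg_right _ hp0.le
      linarith
    · rw [Int.le_floor]
      push_cast
      rw [e, hB]
      apply mul_le_mul_of_nonneg_right _ hp0.le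
      linarith
  have hcard : S.card ≤ (⌊B⌋ + 1 - ⌈A⌉).toNat := by
    rw [← Int.card_Icc, ← Finset.card_image_of_injOn hinj]
    exact Finset.card_le_card hmap
  have h1 : (((⌊B⌋ + 1 - ⌈A⌉).toNat : ℕ) : ℝ) = (((max (⌊B⌋ + 1 - ⌈A⌉) 0 : ℤ)) : ℝ) := by
    rw [← Int.ofNat_toNat]
    push_cast
    rfl
  have h2 : ((max (⌊B⌋ + 1 - ⌈A⌉) 0 : ℤ) : ℝ) ≤ 2 * ρ * p + 1 := by
    push_cast
    apply max_le
    · have h3 := Int.floor_le B
      have h4 := Int.le_ceil A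
      have h5 : B - A = 2 * ρ * p := by
        rw [hA, hB]
        ring
      linarith
    · positivity
  calc (S.card : ℝ) ≤ ((⌊B⌋ + 1 - ⌈A⌉).toNat : ℕ) := by exact_mod_cast hcard
    _ ≤ _ := by
      rw [h1]
      exact h2

lemma count_bad {p : ℕ} [Fact p.Prime] {chi : ℝ → ℝ} (hper : ∀ t, chi (t + 1) = chi t)
    (m n : ℕ) (hn : 1 ≤ n)
    (hdec : ∀ t : ℝ, t ≠ 0 → |t| ≤ 1 / 2 → chi t ≤ m / (4 * n ^ 2 * t ^ 2))
    (ρ : ℝ) (hρ : 0 < ρ) (θ : ℝ) :
    ((univ.filter (fun v : ZMod p =>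
      m / (4 * (n : ℝ) ^ 2 * ρ ^ 2) < chi ((v.val : ℝ) / p + θ))).card : ℝ) ≤
      2 * (2 * ρ * p + 1) := by
  have hp0 : (0 : ℝ) < p := by exact_mod_cast (Fact.out : p.Prime).pos
  have hsub : univ.filter (fun v : ZMod p =>
      m / (4 * (n : ℝ) ^ 2 * ρ ^ 2) < chi ((v.val : ℝ) / p + θ)) ⊆
      univ.filter (fun v : ZMod p => |(v.val : ℝ) / p + θ - (round θ : ℤ)| < ρ) ∪
      univ.filter (fun v : ZMod p => |(v.val : ℝ) / p + θ - ((round θ + 1 : ℤ) : ℝ)| < ρ) := by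
    intro v hv
    rw [Finset.mem_filter] at hv
    have h1 := near_int hper m n hn hdec ρ hρ _ hv.2
    have hv0 : (0 : ℝ) ≤ (v.val : ℝ) / p := by positivity
    have hv1 : (v.val : ℝ) / p < 1 := by
      rw [div_lt_one hp0]
      exact_mod_cast ZMod.val_lt v
    have h2 : round θ ≤ round ((v.val : ℝ) / p + θ) := by
      rw [round_eq, round_eq]
      exact Int.floor_mono (by linarith)
    have h3 : round ((v.val : ℝ) / p + θ) ≤ round θ + 1 := by
      rw [round_eq, round_eq, ← Int.floor_add_one]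
      exact Int.floor_mono (by linarith)
    rw [Finset.mem_union, Finset.mem_filter, Finset.mem_filter]
    rcases (by omega : round ((v.val : ℝ) / p + θ) = round θ ∨
        round ((v.val : ℝ) / p + θ) = round θ + 1) with h4 | h4
    · left
      rw [h4] at h1
      exact ⟨Finset.mem_univ _, h1⟩
    · right
      rw [h4] at h1
      exact ⟨Finset.mem_univ _, h1⟩
  have h1 := (Finset.card_le_card hsub).trans (Finset.card_union_le _ _)
  have h2 := count_near (p := p) ρ hρ θ (round θ)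
  have h3 := count_near (p := p) ρ hρ θ (round θ + 1)
  calc _ ≤ (((univ.filter (fun v : ZMod p => |(v.val : ℝ) / p + θ - (round θ : ℤ)| < ρ)).card +
      (univ.filter (fun v : ZMod p =>
        |(v.val : ℝ) / p + θ - ((round θ + 1 : ℤ) : ℝ)| < ρ)).card : ℕ) : ℝ) := by
        exact_mod_cast h1
    _ ≤ _ := by
      push_cast at h3 ⊢
      linarith

lemma norm_std_ge {p : ℕ} [Fact p.Prime] (y : ZMod p) :
    4 * |(y.valMinAbs : ℝ)| / p ≤ ‖(ZMod.stdAddChar y : ℂ) - 1‖ := by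
  have hp0 : (0 : ℝ) < p := by exact_mod_cast (Fact.out : p.Prime).pos
  set t : ℤ := y.valMinAbs with ht
  have hy : ((t : ℤ) : ZMod p) = y := y.coe_valMinAbs
  have hm := y.valMinAbs_mem_Ioc
  rw [← ht] at hm
  have hbound : |(t : ℝ)| ≤ p / 2 := by
    have h1 : |t * 2| ≤ (p : ℤ) := by
      rw [abs_le]
      exact ⟨hm.1.le, hm.2⟩
    have h2 : |(t : ℝ) * 2| ≤ (p : ℝ) := by exact_mod_cast h1
    rw [abs_mul, abs_of_pos (by norm_num : (0 : ℝ) < 2)] at h2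
    linarith
  rw [← hy, ZMod.stdAddChar_coe]
  have e1 : (2 * Real.pi * Complex.I * t / p : ℂ) =
      Complex.I * ((2 * Real.pi * t / p : ℝ) : ℂ) := by
    push_cast
    ring
  rw [e1, Complex.norm_exp_I_mul_ofReal_sub_one, Real.norm_eq_abs, abs_mul,
    abs_of_pos (by norm_num : (0 : ℝ) < 2)]
  have e2 : 2 * Real.pi * (t : ℝ) / p / 2 = Real.pi * (t / p) := by ring
  rw [e2]
  have h3 : |(t : ℝ) / p| ≤ 1 / 2 := by
    rw [abs_div, abs_of_pos hp0, div_le_iff₀ hp0]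
    linarith
  have h4 : |Real.pi * ((t : ℝ) / p)| ≤ Real.pi / 2 := by
    rw [abs_mul, abs_of_pos Real.pi_pos]
    nlinarith [Real.pi_pos]
  have h5 := Real.mul_abs_le_abs_sin h4
  have h6 : 2 / Real.pi * |Real.pi * ((t : ℝ) / p)| = 2 * |(t : ℝ)| / p := by
    rw [abs_mul, abs_of_pos Real.pi_pos, abs_div, abs_of_pos hp0]
    field_simp
  rw [h6] at h5
  calc 4 * |(t : ℝ)| / p = 2 * (2 * |(t : ℝ)| / p) := by ring
    _ ≤ _ := mul_le_mul_of_nonneg_left h5 (by norm_num)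

/-- the upper bound -/
lemma upper {p : ℕ} [Fact p.Prime] (A : Finset (ZMod p)) (k m : ℕ) (hk : 1 ≤ k)
    (hA : A.card = k) (L : ℝ)
    (hL : 1 ≤ L) (hng : ¬ Gap p A (L * p / k)) (w : ZMod p → ℝ) (hw : ∀ c, 0 ≤ w c)
    (hw1 : ∑ c, w c = 1) (N : ZMod p) (hN : N ≠ 0) (B1 : Finset (ZMod p)) (v : ZMod p)
    (f : ZMod p → ℝ) (hf : ∀ x, 0 ≤ f x ∧ f x ≤ 1) (η : ℝ)
    (hrep : ∀ a ∈ A, ∃ b, (b ∈ B1 ∨ b = 0) ∧
      ∑ c, w c * ‖(ZMod.stdAddChar (c * (N * (a - b))) : ℂ) - 1‖ ≤ η)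
    (hf1 : ∀ t : ℤ, |(t : ℝ)| ≤ (L + 1) * p / k → 1 - f ((t : ℤ) : ZMod p) ≤ (1 / 2) ^ m) :
    ∑ c, w c * ((1 - f (-v)) * ∏ b ∈ B1, (1 - f (c * (N * b) - v))) ≤
      w 0 + (k : ℝ) ^ 2 * η + (1 / 2) ^ m := by
  classical
  have hp0 : (0 : ℝ) < p := by exact_mod_cast (Fact.out : p.Prime).pos
  have hk0 : (0 : ℝ) < k := by exact_mod_cast hk
  choose! bb hbb1 hbb2 using hrep
  have key : ∀ c : ZMod p, (1 - f (-v)) * ∏ b ∈ B1, (1 - f (c * (N * b) - v)) ≤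
      (if c = 0 then 1 else 0) +
      ∑ a ∈ A, (k : ℝ) * ‖(ZMod.stdAddChar (c * (N * (a - bb a))) : ℂ) - 1‖ + (1 / 2) ^ m := by
    intro c
    have hnn : 0 ≤ ∑ a ∈ A, (k : ℝ) * ‖(ZMod.stdAddChar (c * (N * (a - bb a))) : ℂ) - 1‖ :=
      Finset.sum_nonneg (fun a _ => by positivity)
    have hm0 : (0 : ℝ) ≤ (1 / 2) ^ m := by positivity
    have hP := prod_mem01 B1 (fun b => f (c * (N * b) - v)) (fun b _ => hf _)
    have hfv := hf (-v)
    have hle1 : (1 - f (-v)) * ∏ b ∈ B1, (1 - f (c * (N * b) - v)) ≤ 1 :=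
      mul_le_one₀ (by linarith) hP.1 hP.2
    by_cases hc : c = 0
    · rw [if_pos hc]
      linarith
    rw [if_neg hc]
    by_cases hbig : ∃ a ∈ A, 1 / (k : ℝ) <
        ‖(ZMod.stdAddChar (c * (N * (a - bb a))) : ℂ) - 1‖
    · obtain ⟨a, ha, hb⟩ := hbig
      have h1 : 1 ≤ (k : ℝ) * ‖(ZMod.stdAddChar (c * (N * (a - bb a))) : ℂ) - 1‖ := by
        rw [div_lt_iff₀ hk0] at hb
        linarith
      have h2 := Finset.single_le_sum (f := fun a =>
        (k : ℝ) * ‖(ZMod.stdAddChar (c * (N * (a - bb a))) : ℂ) - 1‖)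
        (fun a _ => by positivity) ha
      have h3 : (1 : ℝ) ≤ ∑ a ∈ A,
        (k : ℝ) * ‖(ZMod.stdAddChar (c * (N * (a - bb a))) : ℂ) - 1‖ := h1.trans h2
      linarith
    push Not at hbig
    -- use the failure of the gap
    have hng' : ∃ i : ℕ, (i : ℝ) < L * p / k ∧ ∃ a ∈ A, c * N * a = v + i := by
      by_contra hcon
      push Not at hcon
      exact hng ⟨c * N, mul_ne_zero hc hN, v, fun i hi a ha => hcon i hi a ha⟩
    obtain ⟨i, hi, a, ha, hia⟩ := hng'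
    set y : ZMod p := c * (N * (a - bb a)) with hy
    have h1 := hbig a ha
    have h2 := norm_std_ge y
    have h3 : |(y.valMinAbs : ℝ)| ≤ p / (4 * k) := by
      have h4 : 4 * |(y.valMinAbs : ℝ)| / p ≤ 1 / k := h2.trans h1
      rw [div_le_div_iff₀ hp0 hk0] at h4
      rw [le_div_iff₀ (by positivity)]
      linarith
    have h4 : c * (N * bb a) - v = (((i : ℤ) - y.valMinAbs : ℤ) : ZMod p) := by
      push_cast
      rw [hy]
      have : v = c * N * a - i := by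
        rw [hia]
        ring
      rw [this]
      ring
    have h5 : |(((i : ℤ) - y.valMinAbs : ℤ) : ℝ)| ≤ (L + 1) * p / k := by
      push_cast
      calc |(i : ℝ) - (y.valMinAbs : ℝ)| ≤ |(i : ℝ)| + |(y.valMinAbs : ℝ)| := abs_sub _ _
        _ ≤ L * p / k + p / (4 * k) := by
          refine add_le_add ?_ h3
          rw [abs_of_nonneg (by positivity)]
          exact hi.le
        _ ≤ L * p / k + p / k := by
          gcongr
          linarith
        _ = _ := by ring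
    have h6 := hf1 _ h5
    rw [← h4] at h6
    rcases hbb1 a ha with hb | hb
    · have h7 := prod_le_factor B1 (fun b => f (c * (N * b) - v)) (fun b _ => hf _) (bb a) hb
      have h8 : (1 - f (-v)) * ∏ b ∈ B1, (1 - f (c * (N * b) - v)) ≤
          1 * ∏ b ∈ B1, (1 - f (c * (N * b) - v)) :=
        mul_le_mul_of_nonneg_right (by linarith) hP.1
      linarith
    · rw [hb, mul_zero, mul_zero, zero_sub] at h6
      have h8 : (1 - f (-v)) * ∏ b ∈ B1, (1 - f (c * (N * b) - v)) ≤ (1 - f (-v)) * 1 :=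
        mul_le_mul_of_nonneg_left hP.2 (by linarith)
      linarith
  calc ∑ c, w c * ((1 - f (-v)) * ∏ b ∈ B1, (1 - f (c * (N * b) - v))) ≤
      ∑ c, w c * ((if c = 0 then 1 else 0) +
      ∑ a ∈ A, (k : ℝ) * ‖(ZMod.stdAddChar (c * (N * (a - bb a))) : ℂ) - 1‖ + (1 / 2) ^ m) :=
        Finset.sum_le_sum (fun c _ => mul_le_mul_of_nonneg_left (key c) (hw c))
    _ = w 0 + (k : ℝ) * (∑ a ∈ A, ∑ c, w c *
        ‖(ZMod.stdAddChar (c * (N * (a - bb a))) : ℂ) - 1‖) + (1 / 2) ^ m := by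
      simp_rw [mul_add, Finset.sum_add_distrib]
      rw [← Finset.sum_mul, hw1, one_mul]
      congr 2
      · simp
      · simp_rw [Finset.mul_sum]
        rw [Finset.sum_comm]
        refine Finset.sum_congr rfl (fun c _ => ?_)
        refine Finset.sum_congr rfl (fun a _ => ?_)
        ring
    _ ≤ w 0 + (k : ℝ) * (∑ a ∈ A, η) + (1 / 2) ^ m := by
      gcongr with a ha
      exact hbb2 a ha
    _ = _ := by
      rw [Finset.sum_const, hA, nsmul_eq_mul]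
      ring

end Pool.Agent.W397.LGFinal
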