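import Pool.Agent.W397.LGFinalA

set_option autoImplicit false

namespace Pool.Agent.W397.LGFinal

open Finset Pool.Agent.W246.LG

/-- product over the larger set -/
lemma lower_prod {α : Type} [DecidableEq α] (B' B B1 : Finset α) (h1 : B' ⊆ B) (h2 : B ⊆ B1)
    (g : α → ℝ) (hg : ∀ b, 0 ≤ g b ∧ g b ≤ 1) (f0 : ℝ) (hf0 : 0 ≤ f0 ∧ f0 ≤ 1) :
    ∏ b ∈ B', (1 - g b) - ∑ b ∈ B1 \ B, g b - ∑ b ∈ B \ B', g b - f0 ≤
      (1 - f0) * ∏ b ∈ B1, (1 - g b) := by
  have e1 : ∏ b ∈ B1, (1 - g b) = (∏ b ∈ B1 \ B', (1 - g b)) * ∏ b ∈ B', (1 - g b) :=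
    (Finset.prod_sdiff (h1.trans h2)).symm
  have e2 := Finset.sum_sdiff (f := g) (h1.trans h2)
  have e3 := Finset.sum_sdiff (f := g) h1
  have e4 := Finset.sum_sdiff (f := g) h2
  have p1 := prod_one_sub_ge (B1 \ B') g (fun b _ => hg b)
  have p2 := prod_mem01 (B1 \ B') g (fun b _ => hg b)
  have p3 := prod_mem01 B' g (fun b _ => hg b)
  have s1 : 0 ≤ ∑ b ∈ B1 \ B', g b := Finset.sum_nonneg (fun b _ => (hg b).1)
  set X := ∏ b ∈ B1 \ B', (1 - g b)
  set Y := ∏ b ∈ B', (1 - g b)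
  set S := ∑ b ∈ B1 \ B', g b
  have e5 : ∑ b ∈ B1 \ B, g b + ∑ b ∈ B \ B', g b = S := by linarith
  rw [e1]
  have q1 : (1 - S) * Y ≤ X * Y := mul_le_mul_of_nonneg_right p1 p3.1
  have q2 : S * Y ≤ S := by nlinarith
  have q3 : X * Y ≤ 1 := mul_le_one₀ p2.2 p3.1 p3.2
  have q4 : 0 ≤ X * Y := mul_nonneg p2.1 p3.1
  nlinarith [hf0.1, hf0.2]

lemma card_bad {p : ℕ} [Fact p.Prime] {chi : ℝ → ℝ} (hper : ∀ t, chi (t + 1) = chi t)
    (m n : ℕ) (hn : 1 ≤ n)
    (hdec : ∀ t : ℝ, t ≠ 0 → |t| ≤ 1 / 2 → chi t ≤ m / (4 * n ^ 2 * t ^ 2))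
    (ρ : ℝ) (hρ : 0 < ρ) (Qn : ℕ) :
    ∃ Bad : Finset (ZMod p), ((Bad.card : ℝ) ≤ Qn ^ 2 * (2 * (2 * ρ * p + 1))) ∧
      ∀ v ∉ Bad, ∀ o : ℕ, 1 ≤ o → o ≤ Qn → ∀ i < o,
        chi (((-v).val : ℝ) / p + i / o) ≤ m / (4 * (n : ℝ) ^ 2 * ρ ^ 2) := by
  classical
  have hp0 : (0 : ℝ) < p := by exact_mod_cast (Fact.out : p.Prime).pos
  set P : ℕ → ℕ → Finset (ZMod p) := fun o i => univ.filter (fun v : ZMod p =>
      m / (4 * (n : ℝ) ^ 2 * ρ ^ 2) < chi (((-v).val : ℝ) / p + (i : ℝ) / (o : ℝ))) with hP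
  have hPc : ∀ o i, ((P o i).card : ℝ) ≤ 2 * (2 * ρ * p + 1) := by
    intro o i
    have h1 : P o i ⊆ (univ.filter (fun v : ZMod p =>
      m / (4 * (n : ℝ) ^ 2 * ρ ^ 2) < chi ((v.val : ℝ) / p + (i : ℝ) / (o : ℝ)))).image
        (fun v => -v) := by
      intro v hv
      rw [hP, Finset.mem_filter] at hv
      rw [Finset.mem_image]
      exact ⟨-v, Finset.mem_filter.2 ⟨Finset.mem_univ _, hv.2⟩, neg_neg v⟩
    have h2 := (Finset.card_le_card h1).trans Finset.card_image_le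
    have h3 := count_bad (p := p) hper m n hn hdec ρ hρ ((i : ℝ) / (o : ℝ))
    exact (by exact_mod_cast h2 : ((P o i).card : ℝ) ≤ _).trans h3
  refine ⟨(Icc 1 Qn).biUnion (fun o => (range o).biUnion (fun i => P o i)), ?_, ?_⟩
  · have h1 : (((Icc 1 Qn).biUnion (fun o => (range o).biUnion (fun i => P o i))).card : ℝ) ≤
        ∑ o ∈ Icc 1 Qn, ∑ i ∈ range o, ((P o i).card : ℝ) := by
      have : ((Icc 1 Qn).biUnion (fun o => (range o).biUnion (fun i => P o i))).card ≤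
          ∑ o ∈ Icc 1 Qn, ∑ i ∈ range o, (P o i).card := by
        refine Finset.card_biUnion_le.trans (Finset.sum_le_sum (fun o _ => ?_))
        exact Finset.card_biUnion_le
      exact_mod_cast this
    refine h1.trans ?_
    have h0 : (0 : ℝ) ≤ 2 * (2 * ρ * p + 1) := by positivity
    calc ∑ o ∈ Icc 1 Qn, ∑ i ∈ range o, ((P o i).card : ℝ) ≤
        ∑ o ∈ Icc 1 Qn, ∑ i ∈ range o, (2 * (2 * ρ * p + 1)) :=
          Finset.sum_le_sum (fun o _ => Finset.sum_le_sum (fun i _ => hPc o i))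
      _ ≤ ∑ o ∈ Icc 1 Qn, (Qn : ℝ) * (2 * (2 * ρ * p + 1)) := by
          refine Finset.sum_le_sum (fun o ho => ?_)
          rw [Finset.sum_const, nsmul_eq_mul, Finset.card_range]
          apply mul_le_mul_of_nonneg_right _ h0
          exact_mod_cast (Finset.mem_Icc.1 ho).2
      _ = _ := by
          rw [Finset.sum_const, nsmul_eq_mul, Nat.card_Icc]
          simp
          ring
  · intro v hv o ho1 ho2 i hi
    by_contra hcon
    push Not at hcon
    apply hv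
    rw [Finset.mem_biUnion]
    refine ⟨o, Finset.mem_Icc.2 ⟨ho1, ho2⟩, ?_⟩
    rw [Finset.mem_biUnion]
    exact ⟨i, Finset.mem_range.2 hi, Finset.mem_filter.2 ⟨Finset.mem_univ _, hcon⟩⟩

open Classical in
/-- the deterministic part -/
lemma det (h_tp : S_tp) (h_fejer : S_fejer) (h_pair : S_pair) (h_core : S_core)
    (L : ℝ) (hL : 1 ≤ L) (m R k p n h : ℕ) [Fact p.Prime] (hk : 1 ≤ k) (hn : 1 ≤ n) (hh : 1 ≤ h)
    (hhp : 2 * h < p) (hR : Odd R)
    (A : Finset (ZMod p)) (hA : A.card = k) (hng : ¬ Gap p A (L * p / k))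
    -- test function
    (chi : ℝ → ℝ) (a : ℤ → ℝ) (hchi : ∀ t : ℝ, 0 ≤ chi t ∧ chi t ≤ 1)
    (hper : ∀ t : ℝ, chi (t + 1) = chi t)
    (hexp : ∀ t : ℝ, (chi t : ℂ) = ∑ j ∈ Icc (-(h : ℤ)) (h : ℤ),
      (a j : ℂ) * Complex.exp (2 * Real.pi * Complex.I * j * t))
    (haev : ∀ j : ℤ, a (-j) = a j) (ha : ∀ j : ℤ, |a j| ≤ a 0)
    (hflat : ∀ t : ℝ, |t| ≤ 1 / (4 * n) → 1 - chi t ≤ (1 / 2) ^ m)
    (hdec : ∀ t : ℝ, t ≠ 0 → |t| ≤ 1 / 2 → chi t ≤ m / (4 * n ^ 2 * t ^ 2))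
    (ha1 : a 0 ≤ 1) (hLn : (L + 1) / k ≤ 1 / (4 * n))
    -- structure
    (N z s : ℕ) (Q : Finset (ℕ × ZMod p × ZMod p)) (M Hs : ℕ × ZMod p × ZMod p → ℕ)
    (B1 B : Finset (ZMod p)) (o : ZMod p → ℕ)
    (hN : (N : ZMod p) ≠ 0) (hs : 1 ≤ s) (hz : 1 ≤ z)
    (hM : ∀ q ∈ Q, 1 ≤ M q) (hMH : ∀ q ∈ Q, (2 * R + 2) * Hs q ≤ M q)
    (η : ℝ) (hη0 : 0 ≤ η) (hη : ∑ q ∈ Q, (Hs q : ℝ) * (2 / Real.sqrt (M q)) ≤ η)
    (hB : B ⊆ B1) (hB1 : B1 ⊆ A)
    (hrep : ∀ a ∈ A, ∃ b, (b ∈ B1 ∨ b = 0) ∧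
      (N : ZMod p) * (a - b) ∈ Box Q (fun q => q.2.2) Hs)
    (ho1 : ∀ b ∈ B, ∀ j : ℤ, |j| ≤ (h : ℤ) → (o b : ℤ) ∣ j →
      j • ((N : ZMod p) * b) ∈ Box Q (fun q => q.2.2) Hs)
    (ho2 : ∀ b ∈ B, ∀ j : ℤ, |j| ≤ (h : ℤ) →
      j • ((N : ZMod p) * b) ∈ Box Q (fun q => q.2.2) (fun q => 2 * M q) → (o b : ℤ) ∣ j)
    (hsep : ∀ b ∈ B, ∀ b' ∈ B, b ≠ b' → ∀ j : ℕ, 1 ≤ j → j ≤ z →
      (j : ZMod p) * ((N : ZMod p) * (b - b')) ∉ Box Q (fun q => q.2.2) (fun q => 2 * M q))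
    (hdep : ∀ F ⊆ A, (dep B (fun b => (N : ZMod p) * b) o h
      (Box Q (fun q => q.2.2) (fun q => 2 * M q)) F).card ≤ s * F.card)
    -- numbers
    (A1 W A2 A3 E qs ρ lam P : ℝ) (Qn : ℕ) (hQn : 1 ≤ Qn)
    (hW : W = 8 * A1) (hW1 : 1 ≤ W) (hA2 : 0 < A2) (hA3 : 0 < A3)
    (hE : E = Real.exp (-2 * W)) (hP : P = (100 * R * W) ^ (10 * R))
    (hlam : lam = m / (4 * (n : ℝ) ^ 2 * ρ ^ 2))
    (n1 : k * a 0 ≤ A1) (n2 : ((B1 \ B).card : ℝ) * a 0 ≤ A2)
    (n3 : (k : ℝ) * s * (a 0 ^ 2 * (2 * h / z + 3)) ≤ A3) (hρ : 0 < ρ)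
    (n4 : (Qn : ℝ) ^ 2 * (2 * (2 * ρ * p + 1)) ≤ p / 8)
    (n5 : a 0 * (2 * h / Qn + 1) ≤ qs) (n6 : 0 < qs) (n7 : qs ≤ 1 / 2)
    (n8 : (s : ℝ) * (2 * R + 2) * qs ≤ 1 / 16)
    (n9 : P * ((s : ℝ) ^ 2 * Real.sqrt qs + 8 * A3 + (k + 1) ^ (2 * R + 2) * h * η) ≤ E / 8)
    (n10 : W ^ (R + 1) / (R + 1).factorial ≤ E / 8)
    (n11 : 8 * A2 + (k + 1) * lam + k * ((2 * h + 1) * a 0 * η) ≤ E / 4)
    (n12 : (∏ q ∈ Q, (M q : ℝ)) / p + (k : ℝ) ^ 2 * η ≤ E / 32)
    (n13 : (1 / 2 : ℝ) ^ m ≤ E / 32) : False := by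
  have hp0 : (0 : ℝ) < p := by exact_mod_cast (Fact.out : p.Prime).pos
  have hhp' : h < p := by omega
  have ha0 : 0 ≤ a 0 := (abs_nonneg _).trans (ha 0)
  obtain ⟨tp1, tp0, tpc⟩ := h_tp p h chi a hper hexp haev
  obtain ⟨w, hw, hw1, hw0, hwT, hwS⟩ := h_fejer p _ Q (fun q => q.2.2) M hM
  set d : ℕ × ZMod p × ZMod p → ZMod p := fun q => q.2.2 with hd
  -- values of tp
  have htp01 : ∀ (o' : ℕ) (x : ZMod p), 0 ≤ tp p h a o' x ∧ tp p h a o' x ≤ 1 := by
    intro o' x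
    rcases Nat.eq_zero_or_pos o' with h0 | h0
    · subst h0
      rw [tp0]
      exact ⟨ha0, ha1⟩
    · rw [tp1 o' h0]
      have h0' : (0 : ℝ) < o' := by exact_mod_cast h0
      constructor
      · exact div_nonneg (Finset.sum_nonneg (fun i _ => (hchi _).1)) h0'.le
      · rw [div_le_one h0']
        calc _ ≤ ∑ i ∈ range o', (1 : ℝ) := Finset.sum_le_sum (fun i _ => (hchi _).2)
          _ = o' := by simp
  have hf1 : ∀ x : ZMod p, tp p h a 1 x = chi ((x.val : ℝ) / p) := by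
    intro x
    rw [tp1 1 le_rfl]
    simp
  -- the small boxes
  have hSm : ∀ g ∈ Box Q d Hs, ∑ c, w c * ‖(ZMod.stdAddChar (c * g) : ℂ) - 1‖ ≤ η := by
    rintro g ⟨μ, hμ, rfl⟩
    refine (hwS μ).trans (le_trans ?_ hη)
    refine Finset.sum_le_sum (fun q hq => ?_)
    apply mul_le_mul_of_nonneg_right _ (by positivity)
    have := hμ q hq
    exact_mod_cast this
  -- nested sets
  set T : ℕ → Set (ZMod p) := fun i => Box Q d (fun q => M q + i * Hs q) with hT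
  have hT0 : T 0 = Box Q d M := by
    rw [hT]
    simp
  have hTmono : ∀ i j, i ≤ j → T i ⊆ T j := by
    intro i j hij
    exact box_mono (fun q _ => by
      have := Nat.mul_le_mul_right (Hs q) hij
      omega)
  have hTsub : ∀ i, ∀ g ∈ T i, ∀ g' ∈ Box Q d Hs, g - g' ∈ T (i + 1) := by
    intro i g hg g' hg'
    exact box_sub (fun q _ => by
      have : (i + 1) * Hs q = i * Hs q + Hs q := by ring
      omega) hg hg'
  have hT2 : T (2 * R + 2) ⊆ Box Q d (fun q => 2 * M q) :=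
    box_mono (fun q hq => by
      have := hMH q hq
      omega)
  have hT02 : T 0 ⊆ Box Q d (fun q => 2 * M q) := (hTmono 0 _ (Nat.zero_le _)).trans hT2
  have hwT0 : ∀ g, g ∉ T 0 → ∑ c, (w c : ℂ) * ZMod.stdAddChar (c * g) = 0 := by
    rw [hT0]
    exact hwT
  -- the elements of large order
  set y : ZMod p → ZMod p := fun b => (N : ZMod p) * b with hy
  set B' : Finset (ZMod p) := B.filter (fun b => o b = 0 ∨ Qn < o b) with hB'
  have hB'B : B' ⊆ B := Finset.filter_subset _ _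
  have hB'A : B' ⊆ A := hB'B.trans (hB.trans hB1)
  have hB'k : B'.card ≤ k := hA ▸ Finset.card_le_card hB'A
  have hdep' : ∀ F ⊆ B', ((dep B' y o h (T (2 * R + 2)) F).card : ℝ) ≤ s * F.card := by
    intro F hF
    have h1 := hdep F (hF.trans hB'A)
    have h2 := Finset.card_le_card (dep_mono hB'B hT2 (y := y) (o := o) (h := h) F)
    exact_mod_cast h2.trans h1
  -- the three functions of v
  set X1 : ZMod p → ℝ := fun v => ∑ b ∈ B', tp p h a (o b) (-v) with hX1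
  set X2 : ZMod p → ℝ := fun v => ∑ b ∈ B1 \ B, ∑ c, w c * tp p h a 1 (c * y b - v) with hX2
  set X3 : ZMod p → ℝ := fun v => ∑ s ∈ B', ∑ x ∈ (dep B' y o h (T (2 * R + 2)) {s}).erase s,
    ∑ c, w c * (tp p h a 1 (c * y s - v) * tp p h a 1 (c * y x - v)) with hX3
  have hA1 : 0 < A1 := by linarith
  have x1 : ∀ v, 0 ≤ X1 v := fun v => Finset.sum_nonneg (fun b _ => (htp01 _ _).1)
  have x2 : ∀ v, 0 ≤ X2 v := fun v => Finset.sum_nonneg (fun b _ => Finset.sum_nonneg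
    (fun c _ => mul_nonneg (hw c) (htp01 _ _).1))
  have x3 : ∀ v, 0 ≤ X3 v := fun v => Finset.sum_nonneg (fun b _ => Finset.sum_nonneg
    (fun x _ => Finset.sum_nonneg
      (fun c _ => mul_nonneg (hw c) (mul_nonneg (htp01 _ _).1 (htp01 _ _).1))))
  have s1 : ∑ v, X1 v ≤ p * A1 := by
    rw [hX1, Finset.sum_comm]
    simp_rw [sum_tp_neg hhp' tpc]
    rw [Finset.sum_const, nsmul_eq_mul]
    have : (B'.card : ℝ) ≤ k := by exact_mod_cast hB'k
    calc (B'.card : ℝ) * (p * a 0) ≤ k * (p * a 0) :=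
          mul_le_mul_of_nonneg_right this (by positivity)
      _ = p * (k * a 0) := by ring
      _ ≤ _ := mul_le_mul_of_nonneg_left n1 hp0.le
  have s2 : ∑ v, X2 v ≤ p * A2 := by
    rw [hX2, Finset.sum_comm]
    have : ∀ b ∈ B1 \ B, ∑ v : ZMod p, ∑ c, w c * tp p h a 1 (c * y b - v) = p * a 0 := by
      intro b _
      rw [Finset.sum_comm]
      simp_rw [← Finset.mul_sum, sum_tp_sub hhp' tpc]
      rw [← Finset.sum_mul, hw1, one_mul]
    rw [Finset.sum_congr rfl this, Finset.sum_const, nsmul_eq_mul]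
    calc ((B1 \ B).card : ℝ) * (p * a 0) = p * ((B1 \ B).card * a 0) := by ring
      _ ≤ _ := mul_le_mul_of_nonneg_left n2 hp0.le
  have s3 : ∑ v, X3 v ≤ p * A3 := by
    rw [hX3, Finset.sum_comm]
    have h1 : ∀ b ∈ B', ∑ v : ZMod p, ∑ x ∈ (dep B' y o h (T (2 * R + 2)) {b}).erase b,
        ∑ c, w c * (tp p h a 1 (c * y b - v) * tp p h a 1 (c * y x - v)) ≤
        s * (p * (a 0 ^ 2 * (2 * h / z + 3))) := by
      intro b hb
      rw [Finset.sum_comm]
      have h2 : ∀ x ∈ (dep B' y o h (T (2 * R + 2)) {b}).erase b, ∑ v : ZMod p,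
          ∑ c, w c * (tp p h a 1 (c * y b - v) * tp p h a 1 (c * y x - v)) ≤
          p * (a 0 ^ 2 * (2 * h / z + 3)) := by
        intro x hx
        rw [Finset.mem_erase] at hx
        have hxB' : x ∈ B' := by
          have := hx.2
          simp only [dep, Finset.mem_filter] at this
          exact this.1
        have h3 := h_pair p w (T 0) h z a (y b) (y x) hw hw1 hwT0 haev ha hhp hz (by
          intro j hj1 hj2 hcon
          obtain ⟨g, hg, g', hg', he⟩ := hcon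
          refine hsep b (hB'B hb) x (hB'B hxB') (Ne.symm hx.1) j hj1 hj2 ?_
          have h5 : (N : ZMod p) * (b - x) = y b - y x := by
            rw [hy]
            ring
          rw [h5, he]
          rw [hT0] at hg hg'
          exact box_sub (fun q _ => by omega) hg hg')
        rw [div_le_iff₀ hp0] at h3
        linarith
      refine (Finset.sum_le_card_nsmul _ _ _ h2).trans ?_
      rw [nsmul_eq_mul]
      apply mul_le_mul_of_nonneg_right _ (by positivity)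
      have h3 := hdep' {b} (Finset.singleton_subset_iff.2 hb)
      rw [Finset.card_singleton, Nat.cast_one, mul_one] at h3
      have h4 : (((dep B' y o h (T (2 * R + 2)) {b}).erase b).card : ℝ) ≤
        (dep B' y o h (T (2 * R + 2)) {b}).card := by exact_mod_cast Finset.card_erase_le
      exact h4.trans h3
    refine (Finset.sum_le_card_nsmul _ _ _ h1).trans ?_
    rw [nsmul_eq_mul]
    have : (B'.card : ℝ) ≤ k := by exact_mod_cast hB'k
    calc (B'.card : ℝ) * (s * (p * (a 0 ^ 2 * (2 * h / z + 3)))) ≤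
        k * (s * (p * (a 0 ^ 2 * (2 * h / z + 3)))) :=
          mul_le_mul_of_nonneg_right this (by positivity)
      _ = p * (k * s * (a 0 ^ 2 * (2 * h / z + 3))) := by ring
      _ ≤ _ := mul_le_mul_of_nonneg_left n3 hp0.le
  obtain ⟨Bad, hBad1, hBad2⟩ := card_bad (p := p) hper m n hn hdec ρ hρ Qn
  obtain ⟨v, hvb, hv1, hv2, hv3⟩ := exists_v p X1 X2 X3 A1 A2 A3 hA1 hA2 hA3 x1 x2 x3 s1 s2 s3
    Bad (hBad1.trans n4)
  have hv4 := hBad2 v hvb
  rw [← hlam] at hv4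
  have hlam0 : 0 ≤ lam := by
    rw [hlam]
    positivity
  have hsmall : ∀ o' : ℕ, 1 ≤ o' → o' ≤ Qn → tp p h a o' (-v) ≤ lam := by
    intro o' h1 h2
    rw [tp1 o' h1]
    have h0' : (0 : ℝ) < o' := by exact_mod_cast h1
    rw [div_le_iff₀ h0']
    calc _ ≤ ∑ i ∈ range o', lam :=
          Finset.sum_le_sum (fun i hi => hv4 o' h1 h2 i (Finset.mem_range.1 hi))
      _ = _ := by simp [mul_comm]
  -- the core inequality
  have hcore := h_core p w B' y o h R a T (Box Q d Hs) η W qs s k v hw hw1 hR hh hB'k haev ha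
    htp01 hTmono hTsub hwT0 hSm (fun b hb => ho1 b (hB'B hb))
    (fun b hb j hj hm => ho2 b (hB'B hb) j hj (hT2 hm)) hdep'
    (fun b hb => by
      have hb2 := (Finset.mem_filter.1 hb).2
      refine le_trans (tp_le_of_lt ha tpc tp0 (o b) Qn (by exact_mod_cast hQn) ?_ (-v)) n5
      rcases hb2 with hb2 | hb2
      · exact Or.inl hb2
      · right
        exact_mod_cast hb2.le)
    (by
      have := hv1
      rw [hX1] at this
      rw [hW]
      exact this)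
    hW1 (by exact_mod_cast hs) n6 n7 n8 hη0
  have hP0 : 0 ≤ P := by
    rw [hP]
    positivity
  have hlow : E - E / 8 - E / 8 ≤ ∑ c, w c * ∏ b ∈ B', (1 - tp p h a 1 (c * y b - v)) := by
    refine le_trans ?_ hcore
    rw [← hE, ← hP]
    have h1 : P * ((s : ℝ) ^ 2 * Real.sqrt qs + (∑ s ∈ B',
          ∑ x ∈ (dep B' y o h (T (2 * R + 2)) {s}).erase s,
          ∑ c, w c * (tp p h a 1 (c * y s - v) * tp p h a 1 (c * y x - v)))
      + (k + 1) ^ (2 * R + 2) * h * η) ≤ E / 8 := by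
      refine le_trans (mul_le_mul_of_nonneg_left ?_ hP0) n9
      have := hv3
      rw [hX3] at this
      linarith
    linarith
  -- the lower bound for the full product
  have hfull : E / 2 ≤ ∑ c, w c * ((1 - tp p h a 1 (-v)) *
      ∏ b ∈ B1, (1 - tp p h a 1 (c * (N * b) - v))) := by
    have h1 : ∀ c, w c * (∏ b ∈ B', (1 - tp p h a 1 (c * y b - v)) -
        ∑ b ∈ B1 \ B, tp p h a 1 (c * y b - v) - ∑ b ∈ B \ B', tp p h a 1 (c * y b - v) -
        tp p h a 1 (-v)) ≤ w c * ((1 - tp p h a 1 (-v)) *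
        ∏ b ∈ B1, (1 - tp p h a 1 (c * (N * b) - v))) := fun c =>
      mul_le_mul_of_nonneg_left (lower_prod B' B B1 hB'B hB
        (fun b => tp p h a 1 (c * y b - v)) (fun b => htp01 _ _) _ (htp01 _ _)) (hw c)
    refine le_trans ?_ (Finset.sum_le_sum (fun c _ => h1 c))
    have e1 : ∑ c, w c * (∏ b ∈ B', (1 - tp p h a 1 (c * y b - v)) -
        ∑ b ∈ B1 \ B, tp p h a 1 (c * y b - v) - ∑ b ∈ B \ B', tp p h a 1 (c * y b - v) -
        tp p h a 1 (-v)) = ∑ c, w c * ∏ b ∈ B', (1 - tp p h a 1 (c * y b - v)) - X2 v -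
        ∑ b ∈ B \ B', ∑ c, w c * tp p h a 1 (c * y b - v) - tp p h a 1 (-v) := by
      have e1a : X2 v = ∑ c, w c * ∑ b ∈ B1 \ B, tp p h a 1 (c * y b - v) := by
        simp_rw [Finset.mul_sum]
        rw [Finset.sum_comm]
      have e1b : ∑ b ∈ B \ B', ∑ c, w c * tp p h a 1 (c * y b - v) =
          ∑ c, w c * ∑ b ∈ B \ B', tp p h a 1 (c * y b - v) := by
        simp_rw [Finset.mul_sum]
        rw [Finset.sum_comm]
      rw [e1a, e1b]
      simp_rw [mul_sub, Finset.sum_sub_distrib]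
      rw [← Finset.sum_mul, hw1, one_mul]
    rw [e1]
    have h2 : ∑ b ∈ B \ B', ∑ c, w c * tp p h a 1 (c * y b - v) ≤
        k * (lam + (2 * h + 1) * a 0 * η) := by
      have h3 : ∀ b ∈ B \ B', ∑ c, w c * tp p h a 1 (c * y b - v) ≤
          lam + (2 * h + 1) * a 0 * η := by
        intro b hb
        rw [Finset.mem_sdiff, hB', Finset.mem_filter] at hb
        obtain ⟨hbB, hb2⟩ := hb
        have hb3 : 1 ≤ o b ∧ o b ≤ Qn := by
          constructor
          · by_contra hcon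
            exact hb2 ⟨hbB, Or.inl (by omega)⟩
          · by_contra hcon
            exact hb2 ⟨hbB, Or.inr (by omega)⟩
        have h4 := exp_small w ha tpc hw hw1 (o b) (y b) v η hη0
          (fun j hj hnd => hwT0 _ (fun hcon => hnd (ho2 b hbB j hj (hT02 hcon))))
          (fun j hj hjd => hSm _ (ho1 b hbB j hj hjd))
        have h5 := hsmall (o b) hb3.1 hb3.2
        linarith
      refine (Finset.sum_le_card_nsmul _ _ _ h3).trans ?_
      rw [nsmul_eq_mul]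
      apply mul_le_mul_of_nonneg_right _ (by positivity)
      have : (B \ B').card ≤ k := by
        rw [← hA]
        exact Finset.card_le_card (Finset.sdiff_subset.trans (hB.trans hB1))
      exact_mod_cast this
    have h3 := hsmall 1 le_rfl hQn
    have e2 : (k : ℝ) * (lam + (2 * h + 1) * a 0 * η) =
        k * lam + k * ((2 * h + 1) * a 0 * η) := by ring
    have e3 : ((k : ℝ) + 1) * lam = k * lam + lam := by ring
    rw [e2] at h2
    rw [e3] at n11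
    linarith
  -- the upper bound
  have hup := upper A k m hk hA L hL hng w hw hw1 N hN B1 v (tp p h a 1) (fun x => htp01 1 x) η
    (fun b hb => by
      obtain ⟨b', hb1, hb2⟩ := hrep b hb
      exact ⟨b', hb1, hSm _ hb2⟩)
    (by
      intro t ht
      rw [hf1]
      have e1 : chi ((((t : ℤ) : ZMod p).val : ℝ) / p) = chi ((t : ℝ) / p) := by
        have h1 : (((((t : ℤ) : ZMod p).val : ℕ)) : ℤ) = t % p := ZMod.val_intCast t
        have h2 := Int.emod_add_mul_ediv t p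
        have h3 : (t : ℝ) / p = (((t : ℤ) : ZMod p).val : ℝ) / p + ((t / (p : ℤ) : ℤ) : ℝ) := by
          have h4 : (t : ℝ) = (((t : ℤ) : ZMod p).val : ℝ) + p * ((t / (p : ℤ) : ℤ) : ℝ) := by
            have h5 : t = ((((t : ℤ) : ZMod p).val : ℕ) : ℤ) + p * (t / (p : ℤ)) := by
              rw [h1]
              exact h2.symm
            exact_mod_cast h5
          rw [eq_comm, ← sub_eq_zero]
          field_simp
          linarith
        rw [h3, chi_int hper]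
      rw [e1]
      apply hflat
      rw [abs_div, abs_of_pos hp0, div_le_iff₀ hp0]
      calc |(t : ℝ)| ≤ (L + 1) * p / k := ht
        _ = (L + 1) / k * p := by ring
        _ ≤ _ := mul_le_mul_of_nonneg_right hLn hp0.le)
  have hE0 : 0 < E := by
    rw [hE]
    exact Real.exp_pos _
  linarith

end Pool.Agent.W397.LGFinal
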