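import Mathlib
import Pool.Agent.W526.LL.Stm
import Pool.Agent.W526.LL.Red

/-! LL-CU2: the Poincare series is harmonic at infinity (part of helper526's project for
MP_5ae62c_nt). -/

namespace Pool.Agent.W397.LLCU2

open Pool.Agent.W526.LL IsDedekindDomain WithZero Polynomial Topology

/-! ### The local part -/

section Local

/-- the local field at infinity -/
abbrev Fi := Kv none

/-- its general linear group -/
abbrev Gi := GL (Fin 2) Fi

theorem z_comm (j : ℤ) (g : Gi) : Dinf.z ^ j * g = g * Dinf.z ^ j :=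
  Commute.zpow_left (show Commute Dinf.z g from sc_comm Dinf.ϖ Dinf.ne g) j

/-- valuation of the determinant -/
noncomputable def dtv : Gi →* ℤᵐ⁰ where
  toFun g := Valued.v (dt g)
  map_one' := by simp
  map_mul' a b := by simp [dt_mul]

theorem dtv_z : dtv Dinf.z = exp (-2 : ℤ) := by
  show Valued.v (dt Dinf.z) = _
  have : dt Dinf.z = Dinf.ϖ * Dinf.ϖ := by simp [LD.z, sc]
  rw [this, map_mul, Dinf.hϖ, ← exp_add]; norm_num

theorem dtv_zz (j : ℤ) : dtv (Dinf.z ^ j) = exp (-2 * j) := by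
  rw [map_zpow, dtv_z, ← exp_zsmul]
  congr 1
  rw [smul_eq_mul]; ring

theorem dtv_of_mem {k : Gi} (hk : k ∈ maxK Fi) : dtv k = 1 := hk.2

theorem dtv_w : dtv Dinf.w = exp (-1 : ℤ) := by
  show Valued.v (dt Dinf.w) = _
  have : dt Dinf.w = - Dinf.ϖ := by simp [LD.w, LD.al, dg, ws, dt_mul]
  rw [this, Valuation.map_neg, Dinf.hϖ]

theorem dtv_eq {y : Gi} {j : ℤ} (h : Dinf.z ^ j * y ∈ maxK Fi) : dtv y = exp (2 * j) := by
  have h1 := dtv_of_mem h
  rw [map_mul, dtv_zz] at h1
  have h2 : exp (2 * j) * (exp (-2 * j) * dtv y) = exp (2 * j) := by rw [h1, mul_one]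
  rw [← mul_assoc, ← exp_add] at h2
  have : (2 * j + -2 * j : ℤ) = 0 := by ring
  rwa [this, exp_zero, one_mul] at h2

theorem j_uniq {y : Gi} {i j : ℤ} (h : Dinf.z ^ j * y ∈ maxK Fi) (h' : Dinf.z ^ i * y ∈ maxK Fi) :
    i = j := by
  have h1 := dtv_eq h
  rw [dtv_eq h', exp_inj] at h1
  omega

/-- `y ∈ z^ℤ Iw` -/
def A (y : Gi) : Prop := ∃ j : ℤ, Dinf.z ^ j * y ∈ Iw Fi
/-- `y ∈ z^ℤ maxK` -/
def M (y : Gi) : Prop := ∃ j : ℤ, Dinf.z ^ j * y ∈ maxK Fi
/-- `y w ∈ z^ℤ Iw` -/
def B (y : Gi) : Prop := ∃ j : ℤ, Dinf.z ^ j * y * Dinf.w ∈ Iw Fi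

open Classical in
/-- indicator of a proposition -/
noncomputable def io (P : Prop) : ℤ := if P then 1 else 0

theorem io_pos {P : Prop} (h : P) : io P = 1 := if_pos h
theorem io_neg {P : Prop} (h : ¬ P) : io P = 0 := if_neg h

theorem A_mul_iff {y k : Gi} (hk : k ∈ maxK Fi) {j : ℤ} (h : Dinf.z ^ j * y ∈ maxK Fi) :
    A (y * k) ↔ Valued.v ((Dinf.z ^ j * y * k) 1 0) < 1 := by
  constructor
  · rintro ⟨i, hi⟩
    rw [← mul_assoc] at hi
    have h1 : Dinf.z ^ i * y ∈ maxK Fi := (Subgroup.mul_mem_cancel_right _ hk).mp hi.1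
    have := j_uniq h h1
    subst this
    exact hi.2
  · intro hlt
    refine ⟨j, ?_⟩
    rw [← mul_assoc]
    exact ⟨mul_mem h hk, hlt⟩

theorem A_imp_M {y k : Gi} (hk : k ∈ maxK Fi) (h : A (y * k)) : M y := by
  obtain ⟨j, hj⟩ := h
  rw [← mul_assoc] at hj
  exact ⟨j, (Subgroup.mul_mem_cancel_right _ hk).mp hj.1⟩

theorem v_two : (2 : Fi) = 0 := by
  have : ((2 : ZMod 2) : ZMod 2) = 0 := by decide
  have h3 : cmap none (2 : KK) = 0 := by
    have h4 : (2 : KK) = RatFunc.C (2 : ZMod 2) := by rw [map_ofNat]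
    rw [h4, this, map_zero, map_zero]
  rwa [map_ofNat] at h3

theorem lo1_mem : (lo 1 : Gi) ∈ maxK Fi := lo_mem (by simp)

theorem sumA (y : Gi) : io (A (y * lo 0)) + io (A (y * lo 1)) + io (A (y * ws)) = io (M y) := by
  have l0 : (lo 0 : Gi) ∈ maxK Fi := lo_mem (by simp)
  by_cases hM : M y
  · rw [io_pos hM]
    obtain ⟨j, hj⟩ := hM
    have e0 := A_mul_iff l0 hj
    have e1 := A_mul_iff lo1_mem hj
    have e2 := A_mul_iff ws_mem hj
    set N : Gi := Dinf.z ^ j * y with hN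
    have f0 : (N * lo 0 : Gi) 1 0 = N 1 0 := by rw [mul_ij]; simp [lo]
    have f1 : (N * lo 1 : Gi) 1 0 = N 1 0 + N 1 1 := by rw [mul_ij]; simp [lo]
    have f2 : (N * ws : Gi) 1 0 = N 1 1 := by rw [mul_ij]; simp [ws]
    rw [f0] at e0
    rw [f1] at e1
    rw [f2] at e2
    have hdet := hj.2
    have hc := hj.1 1 0
    have hd := hj.1 1 1
    have hnot : ¬ (Valued.v (N 1 0) < 1 ∧ Valued.v (N 1 1) < 1) := by
      rintro ⟨ha, hb⟩
      have : Valued.v (dt N) < 1 := by
        unfold dt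
        refine (Valuation.map_sub _ _ _).trans_lt (max_lt ?_ ?_) <;> rw [map_mul]
        · exact mul_lt_one_of_nonneg_of_lt_one_right (hj.1 _ _) zero_le hb
        · exact mul_lt_one_of_nonneg_of_lt_one_right (hj.1 _ _) zero_le ha
      rw [hdet] at this
      exact lt_irrefl _ this
    rcases res_inf _ hc with h | h <;> rcases res_inf _ hd with h' | h'
    · exact absurd ⟨h, h'⟩ hnot
    · have h3 : ¬ Valued.v (N 1 1) < 1 := by
        rw [v_eq_one_of_sub h']; exact lt_irrefl _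
      have h4 : ¬ Valued.v (N 1 0 + N 1 1) < 1 := by
        have : Valued.v (N 1 0 + N 1 1 - 1) < 1 := by
          have e : N 1 0 + N 1 1 - 1 = N 1 0 + (N 1 1 - 1) := by ring
          rw [e]; exact (Valuation.map_add _ _ _).trans_lt (max_lt h h')
        rw [v_eq_one_of_sub this]; exact lt_irrefl _
      rw [io_pos (e0.mpr h), io_neg (fun hh => h4 (e1.mp hh)), io_neg (fun hh => h3 (e2.mp hh))]
      norm_num
    · have h3 : ¬ Valued.v (N 1 0) < 1 := by
        rw [v_eq_one_of_sub h]; exact lt_irrefl _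
      have h4 : ¬ Valued.v (N 1 0 + N 1 1) < 1 := by
        have : Valued.v (N 1 0 + N 1 1 - 1) < 1 := by
          have e : N 1 0 + N 1 1 - 1 = (N 1 0 - 1) + N 1 1 := by ring
          rw [e]; exact (Valuation.map_add _ _ _).trans_lt (max_lt h h')
        rw [v_eq_one_of_sub this]; exact lt_irrefl _
      rw [io_neg (fun hh => h3 (e0.mp hh)), io_neg (fun hh => h4 (e1.mp hh)), io_pos (e2.mpr h')]
      norm_num
    · have h3 : ¬ Valued.v (N 1 0) < 1 := by
        rw [v_eq_one_of_sub h]; exact lt_irrefl _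
      have h5 : ¬ Valued.v (N 1 1) < 1 := by
        rw [v_eq_one_of_sub h']; exact lt_irrefl _
      have h4 : Valued.v (N 1 0 + N 1 1) < 1 := by
        have e : N 1 0 + N 1 1 = (N 1 0 - 1) + (N 1 1 - 1) := by linear_combination v_two
        rw [e]; exact (Valuation.map_add _ _ _).trans_lt (max_lt h h')
      rw [io_neg (fun hh => h3 (e0.mp hh)), io_pos (e1.mpr h4), io_neg (fun hh => h5 (e2.mp hh))]
      norm_num
  · rw [io_neg hM, io_neg (fun h => hM (A_imp_M l0 h)), io_neg (fun h => hM (A_imp_M lo1_mem h)),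
      io_neg (fun h => hM (A_imp_M ws_mem h))]
    norm_num

theorem w00 : Dinf.w 0 0 = 0 := by simp [LD.w, LD.al, mul_ij, dg, ws]
theorem w01 : Dinf.w 0 1 = 1 := by simp [LD.w, LD.al, mul_ij, dg, ws]
theorem w10 : Dinf.w 1 0 = Dinf.ϖ := by simp [LD.w, LD.al, mul_ij, dg, ws]
theorem w11 : Dinf.w 1 1 = 0 := by simp [LD.w, LD.al, mul_ij, dg, ws]

theorem ww : Dinf.w * Dinf.w = Dinf.z := by
  apply ext4 <;> rw [mul_ij] <;> simp [w00, w01, w10, w11, LD.z, sc]

theorem lt_one_iff {x : ℤᵐ⁰} : x < 1 ↔ x ≤ exp (-1 : ℤ) := by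
  induction x using WithZero.expRecOn with
  | zero => simp
  | exp a =>
    rw [← exp_zero, exp_lt_exp, exp_le_exp]
    omega

/-- `w` normalises the Iwahori subgroup. -/
theorem conjw {h : Gi} (hh : h ∈ Iw Fi) : Dinf.w * h * Dinf.w⁻¹ ∈ Iw Fi := by
  have hne := Dinf.ne
  obtain ⟨N, hN⟩ : ∃ N, N = Dinf.w * h * Dinf.w⁻¹ := ⟨_, rfl⟩
  have e : N * Dinf.w = Dinf.w * h := by rw [hN]; group
  have e00 : N 0 0 = h 1 1 := by
    have := congrArg (fun m : Gi => m 0 1) e
    simp only [mul_ij, w01, w11, w00, w10] at this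
    simpa using this
  have e10 : N 1 0 = Dinf.ϖ * h 0 1 := by
    have := congrArg (fun m : Gi => m 1 1) e
    simp only [mul_ij, w01, w11, w00, w10] at this
    simpa using this
  have e01 : N 0 1 = h 1 0 * Dinf.ϖ⁻¹ := by
    have := congrArg (fun m : Gi => m 0 0) e
    simp only [mul_ij, w01, w11, w00, w10] at this
    field_simp
    simpa using this
  have e11 : N 1 1 = h 0 0 := by
    have := congrArg (fun m : Gi => m 1 0) e
    simp only [mul_ij, w01, w11, w00, w10] at this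
    have h2 : N 1 1 * Dinf.ϖ = h 0 0 * Dinf.ϖ := by linear_combination this
    exact mul_right_cancel₀ hne h2
  rw [← hN]
  have hint := hh.1.1
  have hdt : dt N = dt h := by
    have h1 := congrArg dt e
    rw [dt_mul, dt_mul, mul_comm] at h1
    exact mul_left_cancel₀ (dt_ne_zero _) h1
  refine ⟨⟨fun i j => ?_, by rw [hdt]; exact hh.1.2⟩, ?_⟩
  · fin_cases i <;> fin_cases j
    · show Valued.v (N 0 0) ≤ 1
      rw [e00]; exact hint _ _
    · show Valued.v (N 0 1) ≤ 1
      rw [e01, map_mul, map_inv₀, Dinf.hϖ]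
      have h1 := lt_one_iff.mp hh.2
      calc Valued.v (h 1 0) * (exp (-1 : ℤ))⁻¹ ≤ exp (-1 : ℤ) * (exp (-1 : ℤ))⁻¹ := by gcongr
        _ = 1 := mul_inv_cancel₀ exp_ne_zero
    · show Valued.v (N 1 0) ≤ 1
      rw [e10, map_mul, Dinf.hϖ]
      refine mul_le_one' ?_ (hint _ _)
      rw [← exp_zero, exp_le_exp]; omega
    · show Valued.v (N 1 1) ≤ 1
      rw [e11]; exact hint _ _
  · rw [e10, map_mul, Dinf.hϖ]
    refine mul_lt_one_of_nonneg_of_lt_one_left zero_le ?_ (hint _ _)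
    rw [← exp_zero, exp_lt_exp]; omega

theorem B_iff (y : Gi) : B y ↔ A (Dinf.w⁻¹ * y) := by
  have hz : Dinf.z = Dinf.w * Dinf.w := ww.symm
  constructor
  · rintro ⟨j, hj⟩
    refine ⟨j + 1, ?_⟩
    have h1 := conjw hj
    have e : Dinf.w * (Dinf.z ^ j * y * Dinf.w) * Dinf.w⁻¹ = Dinf.z ^ (j + 1) * (Dinf.w⁻¹ * y) := by
      have h2 : Dinf.w * (Dinf.z ^ j * y * Dinf.w) * Dinf.w⁻¹ = Dinf.w * (Dinf.z ^ j * y) := by
        group
      rw [h2, z_comm j y, zpow_add_one, z_comm j Dinf.z, mul_assoc, z_comm j]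
      rw [← mul_assoc, ← mul_assoc]
      congr 1
      rw [hz]; group
    rwa [e] at h1
  · rintro ⟨i, hi⟩
    refine ⟨i - 1, ?_⟩
    have h1 := conjw hi
    have e : Dinf.w * (Dinf.z ^ i * (Dinf.w⁻¹ * y)) * Dinf.w⁻¹ = Dinf.z ^ (i - 1) * y * Dinf.w := by
      have h3 : Dinf.w⁻¹ = Dinf.z⁻¹ * Dinf.w := by rw [hz]; group
      have h4 : ∀ g : Gi, Dinf.z⁻¹ * g = g * Dinf.z⁻¹ := fun g => by simpa using z_comm (-1) g
      have h5 : Dinf.w * (Dinf.z ^ i * (Dinf.w⁻¹ * y)) = Dinf.z ^ i * y := by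
        rw [← mul_assoc, ← z_comm i Dinf.w]; group
      rw [h5, zpow_sub_one, h3, mul_assoc, ← mul_assoc y, ← h4 y]
      group
    rwa [e] at h1

theorem not_both (y : Gi) (ha : A y) (hb : B y) : False := by
  obtain ⟨j, hj⟩ := ha
  obtain ⟨i, hi⟩ := hb
  have h1 := dtv_eq hj.1
  have h2 := dtv_of_mem hi.1
  rw [map_mul, map_mul, dtv_zz, h1, dtv_w, ← exp_add, ← exp_add, ← exp_zero, exp_inj] at h2
  omega

theorem ep_eq (y : Gi) : ep y = io (A y) - io (B y) := by
  classical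
  have e : ep y = if A y then 1 else if B y then -1 else 0 := by
    unfold ep A B
    congr
  rw [e]
  by_cases ha : A y
  · have hb : ¬ B y := fun hb => not_both y ha hb
    rw [if_pos ha, io_pos ha, io_neg hb, sub_zero]
  · rw [if_neg ha, io_neg ha]
    by_cases hb : B y
    · rw [if_pos hb, io_pos hb]; norm_num
    · rw [if_neg hb, io_neg hb]; norm_num

theorem ep_sum (y : Gi) : ep (y * lo 0) + ep (y * lo 1) + ep (y * ws) =
    io (M y) - io (M (Dinf.w⁻¹ * y)) := by
  have h1 := sumA y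
  have h2 := sumA (Dinf.w⁻¹ * y)
  rw [ep_eq, ep_eq, ep_eq, ← h1, ← h2]
  simp only [B_iff, mul_assoc]
  ring

theorem M_mul {k y : Gi} (hk : k ∈ maxK Fi) : M (k * y) ↔ M y := by
  have e : ∀ j : ℤ, Dinf.z ^ j * (k * y) = k * (Dinf.z ^ j * y) := by
    intro j
    rw [← mul_assoc, z_comm j k, mul_assoc]
  constructor
  · rintro ⟨j, hj⟩
    rw [e] at hj
    exact ⟨j, (Subgroup.mul_mem_cancel_left _ hk).mp hj⟩
  · rintro ⟨j, hj⟩
    refine ⟨j, ?_⟩
    rw [e]
    exact mul_mem hk hj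

theorem up_w (b : Fi) : up b * Dinf.w = Dinf.w * lo (b * Dinf.ϖ) := by
  apply ext4 <;> rw [mul_ij, mul_ij] <;> simp [w00, w01, w10, w11, up, lo]

theorem M_up {b : Fi} (hb : Valued.v (b * Dinf.ϖ) ≤ 1) (y : Gi) :
    M (Dinf.w⁻¹ * (up b * y)) ↔ M (Dinf.w⁻¹ * y) := by
  have e : Dinf.w⁻¹ * (up b * y) = lo (b * Dinf.ϖ) * (Dinf.w⁻¹ * y) := by
    have h := up_w b
    have h2 : Dinf.w⁻¹ * up b = lo (b * Dinf.ϖ) * Dinf.w⁻¹ := by
      rw [inv_mul_eq_iff_eq_mul, ← mul_assoc, ← h]; group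
    rw [← mul_assoc, h2, mul_assoc]
  rw [e]
  exact M_mul (lo_mem hb)

/-- if `M y`, then one of the three `ep` is nonzero -/
theorem ep_ne_of_M {y : Gi} (h : M y) : ep (y * lo 0) ≠ 0 ∨ ep (y * lo 1) ≠ 0 ∨ ep (y * ws) ≠ 0 := by
  have h1 := sumA y
  rw [io_pos h] at h1
  by_contra hcon
  push Not at hcon
  obtain ⟨c0, c1, c2⟩ := hcon
  have key : ∀ x : Gi, ep x = 0 → io (A x) = 0 := by
    intro x hx
    by_cases ha : A x
    · rw [ep_eq, io_pos ha, io_neg (fun hb => not_both x ha hb)] at hx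
      norm_num at hx
    · exact io_neg ha
  rw [key _ c0, key _ c1, key _ c2] at h1
  norm_num at h1

theorem ep_ne_of_M' {y : Gi} (h : M (Dinf.w⁻¹ * y)) :
    ep (y * lo 0) ≠ 0 ∨ ep (y * lo 1) ≠ 0 ∨ ep (y * ws) ≠ 0 := by
  have h1 := sumA (Dinf.w⁻¹ * y)
  rw [io_pos h] at h1
  by_contra hcon
  push Not at hcon
  obtain ⟨c0, c1, c2⟩ := hcon
  have key : ∀ x : Gi, ep x = 0 → io (B x) = 0 := by
    intro x hx
    by_cases hb : B x
    · rw [ep_eq, io_pos hb, io_neg (fun ha => not_both x ha hb)] at hx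
      norm_num at hx
    · exact io_neg hb
  have k0 := key _ c0
  have k1 := key _ c1
  have k2 := key _ c2
  simp only [B_iff, ← mul_assoc] at k0 k1 k2
  rw [k0, k1, k2] at h1
  norm_num at h1

end Local

/-! ### The coefficients -/

open Classical in
/-- the finite part of the summand -/
noncomputable def cc (g : GA) (γ : GL (Fin 2) KK) : ℂ :=
  if ∀ v, locK (some v) γ * g (some v) ∈ maxK (Kv (some v)) then
    ((sg (red (locK (some pl0) γ * g (some pl0))) *
      ch (red (locK (some pl1) γ * g (some pl1))) : ℤ) : ℂ) else 0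

theorem phi_eq (g : GA) (k : GL (Fin 2) (Kv none)) (γ : GL (Fin 2) KK) :
    phi γ (g * inj none k) = cc g γ * (ep (locK none γ * g none * k) : ℂ) := by
  have hs : ∀ v, (g * inj none k) (some v) = g (some v) := by
    intro v
    rw [mul_apply, inj_ne (by simp), mul_one]
  have hn : (g * inj none k) none = g none * k := by
    rw [mul_apply, inj_same]
  classical
  have e : phi γ (g * inj none k) = if ∀ v, locK (some v) γ * g (some v) ∈ maxK (Kv (some v)) then
      ((sg (red (locK (some pl0) γ * g (some pl0))) *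
        ch (red (locK (some pl1) γ * g (some pl1))) *
        ep (locK none γ * (g none * k)) : ℤ) : ℂ) else 0 := by
    unfold phi
    simp only [hs, hn]
  have e2 : cc g γ = if ∀ v, locK (some v) γ * g (some v) ∈ maxK (Kv (some v)) then
    ((sg (red (locK (some pl0) γ * g (some pl0))) *
      ch (red (locK (some pl1) γ * g (some pl1))) : ℤ) : ℂ) else 0 := by
    rfl
  have e3 : locK none γ * g none * k = locK none γ * (g none * k) := mul_assoc _ _ _
  rw [e, e2, e3]
  by_cases hc : ∀ v, locK (some v) γ * g (some v) ∈ maxK (Kv (some v))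
  · rw [if_pos hc, if_pos hc]
    push_cast
    ring
  · rw [if_neg hc, if_neg hc, zero_mul]

theorem locK_gl2 (p : Pl) (a b c d : KK) (h : a * d - b * c ≠ 0)
    (h' : cmap p a * cmap p d - cmap p b * cmap p c ≠ 0) :
    locK p (gl2 a b c d h) = gl2 (cmap p a) (cmap p b) (cmap p c) (cmap p d) h' := by
  apply ext4 <;> rfl

open Classical in
theorem cc_mul {g : GA} {δ γ : GL (Fin 2) KK} (hδ : ∀ v, locK (some v) δ ∈ maxK (Kv (some v)))
    (h0 : Res2 (some pl0)) (h1 : Res2 (some pl1)) :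
    cc g (δ * γ) = if ∀ v, locK (some v) γ * g (some v) ∈ maxK (Kv (some v)) then
      ((sg (red (locK (some pl0) δ)) * sg (red (locK (some pl0) γ * g (some pl0))) *
      ch (red (locK (some pl1) δ) * red (locK (some pl1) γ * g (some pl1))) : ℤ) : ℂ) else 0 := by
  unfold cc
  have e : (∀ v, locK (some v) (δ * γ) * g (some v) ∈ maxK (Kv (some v))) ↔
      (∀ v, locK (some v) γ * g (some v) ∈ maxK (Kv (some v))) := by
    refine forall_congr' fun v => ?_
    rw [map_mul, mul_assoc]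
    exact Subgroup.mul_mem_cancel_left _ (hδ v)
  by_cases hc : ∀ v, locK (some v) γ * g (some v) ∈ maxK (Kv (some v))
  · rw [if_pos hc, if_pos (e.mpr hc), map_mul, mul_assoc, map_mul, mul_assoc,
      red_mul h0 (hδ pl0) (hc pl0), red_mul h1 (hδ pl1) (hc pl1),
      sg_mul _ _ _ _ (red_det h0 (hδ pl0)).1 (red_det h0 (hc pl0)).1]
  · rw [if_neg hc, if_neg (fun h => hc (e.mp h))]

/-! ### The element of order three -/

/-- the element of order three -/
noncomputable def rr : GL (Fin 2) KK := gl2 0 1 1 1 (by norm_num)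

theorem locK_rr (p : Pl) : locK p rr = gl2 0 1 1 1 (by norm_num) := by
  apply ext4 <;> simp [rr, locK] 

theorem rr_mem (p : Pl) : locK p rr ∈ maxK (Kv p) := by
  rw [locK_rr]
  refine ⟨fun i j => ?_, by simp⟩
  fin_cases i <;> fin_cases j <;> simp

theorem red_rr (p : Pl) : red (locK p rr) = !![0, 1; 1, 1] := by
  rw [locK_rr]
  ext i j
  show bit _ = _
  fin_cases i <;> fin_cases j <;> simp

theorem ch_sum (N N' : Matrix (Fin 2) (Fin 2) (ZMod 2)) (h : N * N' = 1) :
    ch N + ch (!![0, 1; 1, 1] * N) + ch (!![0, 1; 1, 1] * (!![0, 1; 1, 1] * N)) = 0 := by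
  have hd : ∀ a b c d : ZMod 2, a * d - b * c = 1 →
      ch !![a, b; c, d] + ch (!![0, 1; 1, 1] * !![a, b; c, d]) +
        ch (!![0, 1; 1, 1] * (!![0, 1; 1, 1] * !![a, b; c, d])) = 0 := by decide
  have h1 : N.det * N'.det = 1 := by rw [← Matrix.det_mul, h, Matrix.det_one]
  have h2 : ∀ x y : ZMod 2, x * y = 1 → x = 1 := by decide
  have h3 := h2 _ _ h1
  rw [Matrix.det_fin_two] at h3
  have := hd _ _ _ _ h3
  rwa [← Matrix.eta_fin_two N] at this

theorem sg_rr : sg !![0, 1; 1, 1] = 1 := by decide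

theorem cc_three (g : GA) (γ : GL (Fin 2) KK) (h0 : Res2 (some pl0)) (h1 : Res2 (some pl1)) :
    cc g γ + cc g (rr * γ) + cc g (rr * (rr * γ)) = 0 := by
  classical
  rw [cc_mul (fun v => rr_mem _) h0 h1, cc_mul (fun v => rr_mem _) h0 h1]
  have e : (∀ v, locK (some v) (rr * γ) * g (some v) ∈ maxK (Kv (some v))) ↔
      (∀ v, locK (some v) γ * g (some v) ∈ maxK (Kv (some v))) := by
    refine forall_congr' fun v => ?_
    rw [map_mul, mul_assoc]
    exact Subgroup.mul_mem_cancel_left _ (rr_mem _)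
  unfold cc
  by_cases hc : ∀ v, locK (some v) γ * g (some v) ∈ maxK (Kv (some v))
  · rw [if_pos hc, if_pos hc, if_pos (e.mpr hc)]
    rw [map_mul, mul_assoc (locK (some pl0) rr), map_mul, mul_assoc (locK (some pl1) rr),
      red_mul h0 (rr_mem _) (hc pl0), red_mul h1 (rr_mem _) (hc pl1),
      sg_mul _ _ _ _ (red_det h0 (rr_mem _)).1 (red_det h0 (hc pl0)).1]
    rw [red_rr, red_rr, sg_rr]
    have := ch_sum _ _ (red_det h1 (hc pl1)).1
    have h5 : sg (red (locK (some pl0) γ * g (some pl0))) *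
        (ch (red (locK (some pl1) γ * g (some pl1))) +
        ch (!![0, 1; 1, 1] * red (locK (some pl1) γ * g (some pl1))) +
        ch (!![0, 1; 1, 1] * (!![0, 1; 1, 1] * red (locK (some pl1) γ * g (some pl1))))) = 0 := by
      rw [this, mul_zero]
    have h6 : ∀ a b c d : ℤ, a * (b + c + d) = 0 →
        (((a * b : ℤ) : ℂ) + ((1 * a * c : ℤ) : ℂ) + ((1 * (1 * a) * d : ℤ) : ℂ)) = 0 := by
      intro a b c d h
      have : ((a * (b + c + d) : ℤ) : ℂ) = 0 := by rw [h]; simp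
      push_cast at this ⊢
      linear_combination this
    exact h6 _ _ _ _ h5
  · rw [if_neg hc, if_neg hc, if_neg (fun h => hc (e.mp h))]
    simp

/-! ### The unipotent element -/

/-- the polynomial `X - 1` -/
noncomputable abbrev bp : (ZMod 2)[X] := X - C 1

/-- the unipotent element -/
noncomputable def dd : GL (Fin 2) KK := up (ofPoly bp)

theorem locK_dd (p : Pl) : locK p dd = up (cmap p (ofPoly bp)) := by
  apply ext4 <;> simp [dd, locK, up]

theorem v_poly (v : HeightOneSpectrum (ZMod 2)[X]) (P : (ZMod 2)[X]) :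
    Valued.v (cmap (some v) (ofPoly P)) ≤ 1 := by
  rw [v_fin]
  exact v.valuation_le_one P

theorem dd_mem (v : HeightOneSpectrum (ZMod 2)[X]) : locK (some v) dd ∈ maxK (Kv (some v)) := by
  rw [locK_dd]
  exact up_mem (v_poly v _)

theorem red_dd0 : red (locK (some pl0) dd) = !![1, 1; 0, 1] := by
  rw [locK_dd]
  have hb : bit (cmap (some pl0) (ofPoly bp)) = 1 := by
    unfold bit
    rw [if_neg]
    rw [v_fin, HeightOneSpectrum.valuation_lt_one_iff_mem]
    intro h
    have h2 : (X : (ZMod 2)[X]) ∣ bp := Ideal.mem_span_singleton.mp h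
    rw [X_dvd_iff] at h2
    simp at h2
  ext i j
  show bit _ = _
  fin_cases i <;> fin_cases j
  · exact bit_one
  · exact hb
  · exact bit_zero
  · exact bit_one

theorem red_dd1 : red (locK (some pl1) dd) = 1 := by
  rw [locK_dd]
  have hb : bit (cmap (some pl1) (ofPoly bp)) = 0 := by
    unfold bit
    rw [if_pos]
    rw [v_fin, HeightOneSpectrum.valuation_lt_one_iff_mem]
    exact Ideal.mem_span_singleton_self _
  ext i j
  show bit _ = _
  fin_cases i <;> fin_cases j
  · exact bit_one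
  · exact hb
  · exact bit_zero
  · exact bit_one

theorem sg_dd : sg !![1, 1; 0, 1] = -1 := by decide

theorem cc_dd (g : GA) (γ : GL (Fin 2) KK) (h0 : Res2 (some pl0)) (h1 : Res2 (some pl1)) :
    cc g (dd * γ) = - cc g γ := by
  classical
  rw [cc_mul dd_mem h0 h1, red_dd0, red_dd1, sg_dd]
  unfold cc
  by_cases hc : ∀ v, locK (some v) γ * g (some v) ∈ maxK (Kv (some v))
  · rw [if_pos hc, if_pos hc, one_mul]
    push_cast
    ring
  · rw [if_neg hc, if_neg hc]
    simp

theorem v_bpi : Valued.v (cmap none (ofPoly bp) * Dinf.ϖ) ≤ 1 := by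
  have hne : ofPoly bp ≠ 0 := by
    intro h
    have : bp = 0 := (RatFunc.algebraMap_injective (ZMod 2)) (by rw [map_zero]; exact h)
    exact X_sub_C_ne_zero 1 this
  rw [map_mul, Dinf.hϖ, v_inf, RatFunc.inftyValuation_of_nonzero _ hne,
    RatFunc.intDegree_polynomial, natDegree_X_sub_C, ← exp_add, ← exp_zero, exp_le_exp]
  norm_num

/-! ### The two sums -/

section Sums
variable (g : GA)

/-- first summand -/
noncomputable def f0 (γ : GL (Fin 2) KK) : ℂ := cc g γ * (io (M (locK none γ * g none)) : ℂ)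
/-- second summand -/
noncomputable def f1 (γ : GL (Fin 2) KK) : ℂ :=
  cc g γ * (io (M (Dinf.w⁻¹ * (locK none γ * g none))) : ℂ)

variable {g}

theorem f0_supp (hF : FinSupp) : (Function.support (f0 g)).Finite := by
  refine ((hF (g * inj none (lo 0))).union ((hF (g * inj none (lo 1))).union
    (hF (g * inj none ws)))).subset ?_
  intro γ hγ
  have hγ' : f0 g γ ≠ 0 := hγ
  unfold f0 at hγ'
  have hc : cc g γ ≠ 0 := left_ne_zero_of_mul hγ'
  have hM : M (locK none γ * g none) := by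
    by_contra hM
    rw [io_neg hM] at hγ'
    simp at hγ'
  have hk : ∀ k, ep (locK none γ * g none * k) ≠ 0 → phi γ (g * inj none k) ≠ 0 := by
    intro k hk
    rw [phi_eq]
    exact mul_ne_zero hc (by exact_mod_cast hk)
  rcases ep_ne_of_M hM with h | h | h
  · exact Or.inl (hk _ h)
  · exact Or.inr (Or.inl (hk _ h))
  · exact Or.inr (Or.inr (hk _ h))

theorem f1_supp (hF : FinSupp) : (Function.support (f1 g)).Finite := by
  refine ((hF (g * inj none (lo 0))).union ((hF (g * inj none (lo 1))).union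
    (hF (g * inj none ws)))).subset ?_
  intro γ hγ
  have hγ' : f1 g γ ≠ 0 := hγ
  unfold f1 at hγ'
  have hc : cc g γ ≠ 0 := left_ne_zero_of_mul hγ'
  have hM : M (Dinf.w⁻¹ * (locK none γ * g none)) := by
    by_contra hM
    rw [io_neg hM] at hγ'
    simp at hγ'
  have hk : ∀ k, ep (locK none γ * g none * k) ≠ 0 → phi γ (g * inj none k) ≠ 0 := by
    intro k hk
    rw [phi_eq]
    exact mul_ne_zero hc (by exact_mod_cast hk)
  rcases ep_ne_of_M' hM with h | h | h
  · exact Or.inl (hk _ h)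
  · exact Or.inr (Or.inl (hk _ h))
  · exact Or.inr (Or.inr (hk _ h))

theorem sum_f0 (hF : FinSupp) (h0 : Res2 (some pl0)) (h1 : Res2 (some pl1)) :
    ∑ᶠ γ, f0 g γ = 0 := by
  have hs := f0_supp (g := g) hF
  have hM : ∀ γ : GL (Fin 2) KK, io (M (locK none (rr * γ) * g none)) =
      io (M (locK none γ * g none)) := by
    intro γ
    rw [map_mul, mul_assoc]
    congr 1
    exact propext (M_mul (rr_mem none))
  have e1 : ∑ᶠ γ, f0 g (rr * γ) = ∑ᶠ γ, f0 g γ := finsum_comp_equiv (Equiv.mulLeft rr)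
  have e2 : ∑ᶠ γ, f0 g (rr * (rr * γ)) = ∑ᶠ γ, f0 g γ := by
    rw [← e1]
    exact finsum_comp_equiv (Equiv.mulLeft rr) (f := fun γ => f0 g (rr * γ))
  have hs1 : (Function.support fun γ => f0 g (rr * γ)).Finite :=
    hs.preimage ((mul_right_injective rr).injOn)
  have hs2 : (Function.support fun γ => f0 g (rr * (rr * γ))).Finite :=
    hs1.preimage ((mul_right_injective rr).injOn)
  have h3 : ∀ γ, f0 g γ + f0 g (rr * γ) + f0 g (rr * (rr * γ)) = 0 := by
    intro γ
    unfold f0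
    rw [hM (rr * γ), hM γ, ← add_mul, ← add_mul, cc_three g γ h0 h1, zero_mul]
  have h4 : ∑ᶠ γ, (f0 g γ + f0 g (rr * γ) + f0 g (rr * (rr * γ))) = 0 := by
    simp only [h3]; exact finsum_zero
  rw [finsum_add_distrib, finsum_add_distrib hs hs1, e1, e2] at h4
  · linear_combination (1 / 3 : ℂ) * h4
  · exact (hs.union hs1).subset (Function.support_add _ _)
  · exact hs2

theorem sum_f1 (h0 : Res2 (some pl0)) (h1 : Res2 (some pl1)) :
    ∑ᶠ γ, f1 g γ = 0 := by
  have hM : ∀ γ : GL (Fin 2) KK, io (M (Dinf.w⁻¹ * (locK none (dd * γ) * g none))) =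
      io (M (Dinf.w⁻¹ * (locK none γ * g none))) := by
    intro γ
    rw [map_mul, mul_assoc, locK_dd]
    congr 1
    exact propext (M_up v_bpi _)
  have e1 : ∑ᶠ γ, f1 g (dd * γ) = ∑ᶠ γ, f1 g γ := finsum_comp_equiv (Equiv.mulLeft dd)
  have h3 : ∀ γ, f1 g (dd * γ) = - f1 g γ := by
    intro γ
    unfold f1
    rw [hM γ, cc_dd g γ h0 h1, neg_mul]
  simp only [h3] at e1
  rw [finsum_neg_distrib] at e1
  linear_combination (-1 / 2 : ℂ) * e1

end Sums

theorem main (h0 : Res2 (some pl0)) (h1 : Res2 (some pl1)) : S_cu2 := by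
  intro hF g
  rw [Dinf_T, Finset.sum_pair (zero_ne_one)]
  unfold fc
  rw [← finsum_add_distrib (hF _) (hF _), ← finsum_add_distrib _ (hF _)]
  · have h : ∀ γ, phi γ (g * inj none (lo 0)) + phi γ (g * inj none (lo 1)) +
        phi γ (g * inj none ws) = f0 g γ - f1 g γ := by
      intro γ
      rw [phi_eq, phi_eq, phi_eq]
      unfold f0 f1
      have := ep_sum (locK none γ * g none)
      rw [← mul_add, ← mul_add, ← mul_sub]
      congr 1
      exact_mod_cast this
    simp only [h]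
    rw [finsum_sub_distrib (f0_supp hF) (f1_supp hF), sum_f0 hF h0 h1, sum_f1 h0 h1, sub_zero]
  · exact ((hF _).union (hF _)).subset (Function.support_add _ _)

end Pool.Agent.W397.LLCU2
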