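import Pool.Agent.W792.WA.Stm3
import Pool.Agent.W999.WA.Vr

/-!
# Project WA, part MOM: truncation of laws with 60 moments
-/

set_option autoImplicit false

namespace Pool.Agent.W397.WAMom

open MeasureTheory Filter Pool.Agent.W792.LL Pool.Agent.W792.WA
open Pool.Agent.W335.LLCay (norm_cay cont_cay)
open Pool.Agent.W999.WA.Vr (norm_cay_sub_ge norm_sub_sq)

/-- Truncation to `[-δ, δ]`. -/
noncomputable def cl (δ x : ℝ) : ℝ := max (-δ) (min x δ)

theorem cont_cl (δ : ℝ) : Continuous (cl δ) :=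
  continuous_const.max (continuous_id.min continuous_const)

theorem abs_cl_le {δ : ℝ} (hδ : 0 ≤ δ) (x : ℝ) : |cl δ x| ≤ δ := by
  unfold cl
  rw [abs_le]
  exact ⟨le_max_left _ _, max_le (by linarith) (min_le_right _ _)⟩

theorem cl_of_le {δ x : ℝ} (h : |x| ≤ δ) : cl δ x = x := by
  unfold cl
  rw [abs_le] at h
  rw [min_eq_left h.2, max_eq_right h.1]

theorem exists_R (ν : Measure ℝ) [IsProbabilityMeasure ν] (hat : ∀ a : ℝ, ν {a} < 1) :
    ∃ R : ℕ, (ν.prod ν) {p : ℝ × ℝ | p.1 ≠ p.2 ∧ |p.1| ≤ R ∧ |p.2| ≤ R} ≠ 0 := by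
  by_contra hcon
  push Not at hcon
  have hun : (⋃ R : ℕ, {p : ℝ × ℝ | p.1 ≠ p.2 ∧ |p.1| ≤ R ∧ |p.2| ≤ R})
      = {p : ℝ × ℝ | p.1 ≠ p.2} := by
    ext p
    rw [Set.mem_iUnion]
    constructor
    · rintro ⟨R, h, -⟩
      exact h
    · intro h
      obtain ⟨R, hR⟩ := exists_nat_ge (max |p.1| |p.2|)
      exact ⟨R, h, (le_max_left _ _).trans hR, (le_max_right _ _).trans hR⟩
  have h0 : (ν.prod ν) {p : ℝ × ℝ | p.1 ≠ p.2} = 0 := by
    rw [← hun]
    exact measure_iUnion_null hcon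
  have hms : MeasurableSet {p : ℝ × ℝ | p.1 ≠ p.2} :=
    (isClosed_eq continuous_fst continuous_snd).measurableSet.compl
  have h1 := (Measure.measure_prod_null hms).1 h0
  obtain ⟨x, hx⟩ := h1.exists
  have h2 : ν ({x}ᶜ) = 0 := by
    refine measure_mono_null ?_ hx
    intro y hy hxy
    exact hy (by
      have : x = y := hxy
      rw [this]
      rfl)
  have h3 : ν {x} = 1 := by
    rw [← prob_compl_eq_zero_iff (measurableSet_singleton x)]
    exact h2
  exact (ne_of_lt (hat x)) h3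

/-- The square in which the variance is measured. -/
def SS (R : ℝ) : Set (ℝ × ℝ) := Set.Icc (-R) R ×ˢ Set.Icc (-R) R

theorem intOn (ν : Measure ℝ) [IsProbabilityMeasure ν] (R : ℝ) :
    IntegrableOn (fun p : ℝ × ℝ => (p.1 - p.2) ^ 2) (SS R) (ν.prod ν) := by
  have hc : Continuous fun p : ℝ × ℝ => (p.1 - p.2) ^ 2 := by fun_prop
  exact hc.continuousOn.integrableOn_compact (isCompact_Icc.prod isCompact_Icc)

theorem cR_pos (ν : Measure ℝ) [IsProbabilityMeasure ν] (R : ℝ)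
    (h : (ν.prod ν) {p : ℝ × ℝ | p.1 ≠ p.2 ∧ |p.1| ≤ R ∧ |p.2| ≤ R} ≠ 0) :
    0 < ∫ p in SS R, (p.1 - p.2) ^ 2 ∂(ν.prod ν) := by
  rw [setIntegral_pos_iff_support_of_nonneg_ae (Eventually.of_forall fun p => sq_nonneg _)
    (intOn ν R)]
  refine lt_of_lt_of_le (pos_iff_ne_zero.2 h) (measure_mono ?_)
  rintro p ⟨h1, h2, h3⟩
  refine ⟨?_, ?_⟩
  · rw [Function.mem_support]
    exact pow_ne_zero _ (sub_ne_zero.2 h1)
  · exact ⟨abs_le.1 h2, abs_le.1 h3⟩

theorem main : S_MOM := by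
  intro ν _ hmom hat
  obtain ⟨R, hR⟩ := exists_R ν hat
  set c : ℝ := ∫ p in SS (R : ℝ), (p.1 - p.2) ^ 2 ∂(ν.prod ν) with hc
  have hcpos : 0 < c := cR_pos ν R hR
  set M : ℝ := ∫ x, x ^ 60 ∂ν with hM
  have hM0 : 0 ≤ M := integral_nonneg fun x => by positivity
  set δ₀ : ℝ := min (1 / ((R : ℝ) ^ 2 + 1)) (1 / (4 * M + 1)) with hδ₀
  have hδ₀pos : 0 < δ₀ := lt_min (by positivity) (by positivity)
  have hδ₀1 : δ₀ ≤ 1 := by
    refine (min_le_right _ _).trans ?_
    rw [div_le_one (by positivity)]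
    linarith
  refine ⟨c / 2, δ₀ ^ (3 / 2 : ℝ), by positivity, by positivity,
    Real.rpow_le_one hδ₀pos.le hδ₀1 (by norm_num), ?_⟩
  intro lam hlam hlam1 X hX
  set δ : ℝ := lam ^ (2 / 3 : ℝ) with hδ
  have hδpos : 0 < δ := by positivity
  have hδle : δ ≤ δ₀ := by
    calc δ ≤ (δ₀ ^ (3 / 2 : ℝ)) ^ (2 / 3 : ℝ) := Real.rpow_le_rpow hlam.le hlam1 (by norm_num)
      _ = δ₀ := by
        rw [← Real.rpow_mul hδ₀pos.le]
        norm_num
  have hδ1 : δ ≤ 1 := hδle.trans hδ₀1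
  have hδ3 : δ ^ 3 = lam ^ 2 := by
    rw [hδ, ← Real.rpow_natCast, ← Real.rpow_mul hlam.le, ← Real.rpow_natCast]
    norm_num
  have hδR : δ * (R : ℝ) ^ 2 ≤ 1 := by
    have h1 : δ ≤ 1 / ((R : ℝ) ^ 2 + 1) := hδle.trans (min_le_left _ _)
    rw [le_div_iff₀ (by positivity)] at h1
    linarith
  have hδM : 4 * M * δ ^ 2 ≤ 1 := by
    have h1 : δ ≤ 1 / (4 * M + 1) := hδle.trans (min_le_right _ _)
    rw [le_div_iff₀ (by positivity)] at h1
    have h2 : δ ^ 2 ≤ δ := by nlinarith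
    have h3 : 4 * M * δ ^ 2 ≤ 4 * M * δ := mul_le_mul_of_nonneg_left h2 (by positivity)
    linarith
  have hlamR : lam * R ≤ δ := by
    refine le_of_sq_le_sq ?_ hδpos.le
    calc (lam * R) ^ 2 = lam ^ 2 * (R : ℝ) ^ 2 := by ring
      _ = δ ^ 2 * (δ * (R : ℝ) ^ 2) := by rw [← hδ3]; ring
      _ ≤ δ ^ 2 * 1 := mul_le_mul_of_nonneg_left hδR (by positivity)
      _ = δ ^ 2 := mul_one _
  let X' : MX := ⟨fun u => cl δ (X.1 u), (cont_cl δ).measurable.comp X.2⟩
  have hX'law : qlaw X' = ν.map fun x => cl δ (lam * x) := by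
    have h1 : qlaw X' = (qlaw X).map (cl δ) := by
      unfold qlaw
      rw [Measure.map_map (cont_cl δ).measurable X.2]
      rfl
    rw [h1, hX, Measure.map_map (cont_cl δ).measurable (by fun_prop)]
    rfl
  refine ⟨X', fun u => abs_cl_le hδpos.le _, ?_, ?_⟩
  · -- the distance
    have hXm : Integrable (fun x : ℝ => x ^ 60) (qlaw X) := by
      rw [hX, integrable_map_measure (by fun_prop) (by fun_prop)]
      have h1 := hmom.const_mul (lam ^ 60)
      refine h1.congr (Eventually.of_forall fun x => ?_)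
      change lam ^ 60 * x ^ 60 = (lam * x) ^ 60
      rw [mul_pow]
    have hXi : Integrable (fun u : ℝ => (X.1 u) ^ 60) (volume.restrict (Set.Ioc (0 : ℝ) 1)) := by
      unfold qlaw at hXm
      rw [integrable_map_measure (by fun_prop) X.2.aemeasurable] at hXm
      exact hXm
    have hXv : ∫ u in Set.Ioc (0 : ℝ) 1, (X.1 u) ^ 60 = lam ^ 60 * M := by
      have h1 : ∫ x, x ^ 60 ∂(qlaw X) = ∫ u in Set.Ioc (0 : ℝ) 1, (X.1 u) ^ 60 := by
        unfold qlaw
        rw [integral_map X.2.aemeasurable (by fun_prop)]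
      rw [← h1, hX, integral_map (by fun_prop) (by fun_prop), hM, ← integral_const_mul]
      refine integral_congr_ae (Eventually.of_forall fun x => ?_)
      change (lam * x) ^ 60 = lam ^ 60 * x ^ 60
      rw [mul_pow]
    have hpt : ∀ u : ℝ, ‖cay (X.1 u) - cay (X'.1 u)‖ ^ 2 ≤ 4 / δ ^ 60 * (X.1 u) ^ 60 := by
      intro u
      change ‖cay (X.1 u) - cay (cl δ (X.1 u))‖ ^ 2 ≤ _
      rcases le_or_gt |X.1 u| δ with h | h
      · rw [cl_of_le h, sub_self, norm_zero]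
        have : (0 : ℝ) ≤ 4 / δ ^ 60 * (X.1 u) ^ 60 := by
          have h60 : (0 : ℝ) ≤ (X.1 u) ^ 60 := Even.pow_nonneg (by decide) _
          exact mul_nonneg (div_nonneg (by norm_num) (pow_nonneg hδpos.le 60)) h60
        simpa using this
      · have h1 : ‖cay (X.1 u) - cay (cl δ (X.1 u))‖ ≤ 2 := by
          calc ‖cay (X.1 u) - cay (cl δ (X.1 u))‖ ≤ ‖cay (X.1 u)‖ + ‖cay (cl δ (X.1 u))‖ :=
                norm_sub_le _ _
            _ = 2 := by rw [norm_cay, norm_cay]; norm_num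
        have h2 : ‖cay (X.1 u) - cay (cl δ (X.1 u))‖ ^ 2 ≤ 4 := by
          have h0 := norm_nonneg (cay (X.1 u) - cay (cl δ (X.1 u)))
          nlinarith
        have h3 : δ ^ 60 ≤ (X.1 u) ^ 60 := by
          have h4 : (X.1 u) ^ 60 = |X.1 u| ^ 60 := (Even.pow_abs (by decide) _).symm
          rw [h4]
          exact pow_le_pow_left₀ hδpos.le h.le 60
        have h5 : (1 : ℝ) ≤ (X.1 u) ^ 60 / δ ^ 60 := by
          rw [le_div_iff₀ (by positivity)]
          linarith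
        calc ‖cay (X.1 u) - cay (cl δ (X.1 u))‖ ^ 2 ≤ 4 * 1 := by linarith
          _ ≤ 4 * ((X.1 u) ^ 60 / δ ^ 60) := mul_le_mul_of_nonneg_left h5 (by norm_num)
          _ = 4 / δ ^ 60 * (X.1 u) ^ 60 := by ring
    have hle : cd X X' ≤ 4 / δ ^ 60 * (lam ^ 60 * M) := by
      unfold cd
      rw [← hXv, ← integral_const_mul]
      exact integral_mono_of_nonneg (Eventually.of_forall fun u => by positivity)
        (hXi.const_mul _) (Eventually.of_forall hpt)
    have h90 : lam ^ 60 = δ ^ 90 := by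
      calc lam ^ 60 = (lam ^ 2) ^ 30 := by rw [← pow_mul]
        _ = δ ^ 90 := by rw [← hδ3, ← pow_mul]
    refine hle.trans ?_
    calc 4 / δ ^ 60 * (lam ^ 60 * M) = 4 * M * δ ^ 2 * (δ ^ 14) ^ 2 := by
          rw [h90]
          field_simp
      _ ≤ 1 * (δ ^ 14) ^ 2 := mul_le_mul_of_nonneg_right hδM (by positivity)
      _ = (δ ^ 14) ^ 2 := one_mul _
  · -- the variance
    have hcc : Continuous fun x : ℝ => cay (cl δ (lam * x)) :=
      cont_cay.comp ((cont_cl δ).comp (by fun_prop))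
    have hZ1 : ∀ x : ℝ, ‖cay (cl δ (lam * x))‖ = 1 := fun x => norm_cay _
    set e := ∫ x, cay (cl δ (lam * x)) ∂ν with he
    have hvr : vr (qlaw X') = 1 - ‖e‖ ^ 2 := by
      unfold vr
      have hcl : Measurable fun x : ℝ => cl δ (lam * x) :=
        (cont_cl δ).measurable.comp (by fun_prop)
      rw [hX'law, integral_map hcl.aemeasurable cont_cay.aestronglyMeasurable]
    -- the double integral
    have hcont2 : Continuous fun p : ℝ × ℝ =>
        ‖cay (cl δ (lam * p.1)) - cay (cl δ (lam * p.2))‖ ^ 2 :=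
      (((hcc.comp continuous_fst).sub (hcc.comp continuous_snd)).norm).pow 2
    have hbd2 : ∀ p : ℝ × ℝ, ‖‖cay (cl δ (lam * p.1)) - cay (cl δ (lam * p.2))‖ ^ 2‖ ≤ 4 := by
      intro p
      rw [Real.norm_eq_abs, abs_of_nonneg (by positivity)]
      have h1 : ‖cay (cl δ (lam * p.1)) - cay (cl δ (lam * p.2))‖ ≤ 2 := by
        calc _ ≤ ‖cay (cl δ (lam * p.1))‖ + ‖cay (cl δ (lam * p.2))‖ := norm_sub_le _ _
          _ = 2 := by rw [hZ1, hZ1]; norm_num
      have h0 := norm_nonneg (cay (cl δ (lam * p.1)) - cay (cl δ (lam * p.2)))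
      nlinarith
    have hint2 : Integrable (fun p : ℝ × ℝ =>
        ‖cay (cl δ (lam * p.1)) - cay (cl δ (lam * p.2))‖ ^ 2) (ν.prod ν) :=
      Integrable.of_bound hcont2.aestronglyMeasurable 4 (Eventually.of_forall hbd2)
    have hdouble : ∫ p, ‖cay (cl δ (lam * p.1)) - cay (cl δ (lam * p.2))‖ ^ 2 ∂(ν.prod ν)
        = 2 - 2 * ‖e‖ ^ 2 := by
      have h1 : ∀ p : ℝ × ℝ, ‖cay (cl δ (lam * p.1)) - cay (cl δ (lam * p.2))‖ ^ 2
          = 2 - 2 * (cay (cl δ (lam * p.1)) *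
            (starRingEnd ℂ) (cay (cl δ (lam * p.2)))).re := fun p =>
        norm_sub_sq (hZ1 p.1) (hZ1 p.2)
      have h2 : Integrable (fun p : ℝ × ℝ => cay (cl δ (lam * p.1)) *
          (starRingEnd ℂ) (cay (cl δ (lam * p.2)))) (ν.prod ν) := by
        refine Integrable.of_bound ?_ 1 (Eventually.of_forall fun p => ?_)
        · exact ((hcc.comp continuous_fst).mul
            (Complex.continuous_conj.comp (hcc.comp continuous_snd))).aestronglyMeasurable
        · rw [norm_mul, RCLike.norm_conj, hZ1, hZ1, one_mul]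
      have h3 : ∫ p : ℝ × ℝ, cay (cl δ (lam * p.1)) *
          (starRingEnd ℂ) (cay (cl δ (lam * p.2))) ∂(ν.prod ν) = e * (starRingEnd ℂ) e := by
        rw [integral_prod_mul (fun x : ℝ => cay (cl δ (lam * x)))
          (fun y : ℝ => (starRingEnd ℂ) (cay (cl δ (lam * y)))), integral_conj]
      have h4 : ∫ p : ℝ × ℝ, (cay (cl δ (lam * p.1)) *
          (starRingEnd ℂ) (cay (cl δ (lam * p.2)))).re ∂(ν.prod ν) = ‖e‖ ^ 2 := by
        have h5 := integral_re h2
        rw [h3, RCLike.mul_conj] at h5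
        have h6 : ∫ p : ℝ × ℝ, (cay (cl δ (lam * p.1)) *
          (starRingEnd ℂ) (cay (cl δ (lam * p.2)))).re ∂(ν.prod ν) = ((‖e‖ : ℂ) ^ 2).re := h5
        rw [h6, ← Complex.ofReal_pow, Complex.ofReal_re]
      have h2' : Integrable (fun p : ℝ × ℝ => (cay (cl δ (lam * p.1)) *
          (starRingEnd ℂ) (cay (cl δ (lam * p.2)))).re) (ν.prod ν) := h2.re
      simp only [h1]
      rw [integral_sub (integrable_const _) (h2'.const_mul 2), integral_const_mul, h4]
      simp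
    have hlow : lam ^ 2 * c ≤ 2 - 2 * ‖e‖ ^ 2 := by
      rw [← hdouble]
      have h1 : ∫ p in SS (R : ℝ), lam ^ 2 * (p.1 - p.2) ^ 2 ∂(ν.prod ν)
          ≤ ∫ p in SS (R : ℝ), ‖cay (cl δ (lam * p.1)) - cay (cl δ (lam * p.2))‖ ^ 2
            ∂(ν.prod ν) := by
        refine setIntegral_mono_on ((intOn ν R).const_mul _) hint2.integrableOn
          (measurableSet_Icc.prod measurableSet_Icc) ?_
        rintro p ⟨hp1, hp2⟩
        have hb : ∀ t : ℝ, t ∈ Set.Icc (-(R : ℝ)) R → |lam * t| ≤ δ := by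
          intro t ht
          rw [abs_mul, abs_of_pos hlam]
          exact (mul_le_mul_of_nonneg_left (abs_le.2 ht) hlam.le).trans hlamR
        rw [cl_of_le (hb _ hp1), cl_of_le (hb _ hp2)]
        have h4 := norm_cay_sub_ge ((hb _ hp1).trans hδ1) ((hb _ hp2).trans hδ1)
        calc lam ^ 2 * (p.1 - p.2) ^ 2 = (lam * p.1 - lam * p.2) ^ 2 := by ring
          _ ≤ _ := h4
      have h2 : ∫ p in SS (R : ℝ), lam ^ 2 * (p.1 - p.2) ^ 2 ∂(ν.prod ν) = lam ^ 2 * c := by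
        rw [integral_const_mul]
      rw [← h2]
      exact h1.trans (setIntegral_le_integral hint2 (Eventually.of_forall fun p => by positivity))
    rw [hvr, hδ3]
    linarith

end Pool.Agent.W397.WAMom
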